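import Pool.Agent.Lib.MP_688fd0_co.SQ7.H25.Hole

/-!
Type C2, B1-FULL, words and frames (helper25, finding 4358).

`Λ` = the labels of one level, `q : Λ → Y` their values. `Wd q l1 D`: all multiples of `l1` from `D` on are lengths of words
with value `1`, and the inverse of a letter is the value of a word of length at most `D`, `-1` modulo `l1`. `Sh q l1 B f n`:
`f` is the value of a word of length at most `B`, `n` modulo `l1`. Then the value `f` has a word of length exactly `n` if
`B + D ≤ n`; the prefix products (frames) of a pattern can be prescribed at levels with large gaps (`pat`).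

`wd_of_prim`: bounded `Y`, `l1 = δ`, `D` of size `|Y| ^ 2`.
-/

set_option autoImplicit false

namespace Pool.Agent.Lib.MP_688fd0_co.SQ7.H25

variable {Λ Y : Type*} [Group Y]

/-- The value of a word. -/
def vl (q : Λ → Y) (w : List Λ) : Y := (w.map q).prod

@[simp] theorem vl_nil (q : Λ → Y) : vl q [] = 1 := rfl

theorem vl_append (q : Λ → Y) (u v : List Λ) : vl q (u ++ v) = vl q u * vl q v := by simp [vl]

theorem vl_cons (q : Λ → Y) (s : Λ) (v : List Λ) : vl q (s :: v) = q s * vl q v := by simp [vl]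

/-- Words of value `1` and inverses of letters. -/
structure Wd (q : Λ → Y) (l1 D : ℕ) : Prop where
  one : ∀ d, D ≤ d → l1 ∣ d → ∃ w : List Λ, w.length = d ∧ vl q w = 1
  inv : ∀ s, ∃ w : List Λ, w.length ≤ D ∧ l1 ∣ w.length + 1 ∧ vl q w = (q s)⁻¹

/-- `f` is the value of a word of length at most `B`, `n` modulo `l1`. -/
def Sh (q : Λ → Y) (l1 B : ℕ) (f : Y) (n : ℤ) : Prop :=
  ∃ w : List Λ, w.length ≤ B ∧ (l1 : ℤ) ∣ n - w.length ∧ vl q w = f

section sh

variable {q : Λ → Y} {l1 D B B' : ℕ} {f f' : Y} {n n' : ℤ}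

theorem Sh.one : Sh q l1 0 1 0 := ⟨[], le_rfl, by simp, rfl⟩

theorem Sh.letter (s : Λ) : Sh q l1 1 (q s) 1 := ⟨[s], le_rfl, by simp, by simp [vl]⟩

theorem Sh.mono (h : Sh q l1 B f n) (hB : B ≤ B') : Sh q l1 B' f n := by
  obtain ⟨w, h1, h2, h3⟩ := h; exact ⟨w, h1.trans hB, h2, h3⟩

theorem Sh.congr (h : Sh q l1 B f n) (hn : (l1 : ℤ) ∣ n' - n) : Sh q l1 B f n' := by
  obtain ⟨w, h1, h2, h3⟩ := h
  refine ⟨w, h1, ?_, h3⟩
  have := dvd_add hn h2
  have h4 : n' - n + (n - (w.length : ℤ)) = n' - w.length := by ring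
  rwa [h4] at this

theorem Sh.mul (h : Sh q l1 B f n) (h' : Sh q l1 B' f' n') : Sh q l1 (B + B') (f * f') (n + n') := by
  obtain ⟨w, h1, h2, h3⟩ := h
  obtain ⟨w', h1', h2', h3'⟩ := h'
  refine ⟨w ++ w', by rw [List.length_append]; omega, ?_, by rw [vl_append, h3, h3']⟩
  have := dvd_add h2 h2'
  have h4 : n - (w.length : ℤ) + (n' - (w'.length : ℤ)) = n + n' - ((w ++ w').length : ℤ) := by
    rw [List.length_append]; push_cast; ring
  rwa [h4] at this

theorem Sh.word (w : List Λ) : Sh q l1 w.length (vl q w) w.length := ⟨w, le_rfl, by simp, rfl⟩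

theorem Sh.inv (H : Wd q l1 D) (h : Sh q l1 B f n) : Sh q l1 (B * D) f⁻¹ (-n) := by
  obtain ⟨w, h1, h2, h3⟩ := h
  suffices h : ∀ w : List Λ, Sh q l1 (w.length * D) (vl q w)⁻¹ (-(w.length : ℤ)) by
    have h4 := h w
    rw [h3] at h4
    refine (h4.mono (Nat.mul_le_mul_right D h1)).congr ?_
    have := (dvd_neg (a := (l1 : ℤ))).2 h2
    have h5 : -(n - (w.length : ℤ)) = -n - -(w.length : ℤ) := by ring
    rwa [h5] at this
  intro w
  induction w with
  | nil => simpa using Sh.one (q := q) (l1 := l1)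
  | cons s w ih =>
    obtain ⟨u, hu1, hu2, hu3⟩ := H.inv s
    have h4 : Sh q l1 D (q s)⁻¹ (-1) := by
      refine ⟨u, hu1, ?_, hu3⟩
      have h5 : (-1 : ℤ) - (u.length : ℤ) = -((u.length + 1 : ℕ) : ℤ) := by push_cast; ring
      rw [h5, dvd_neg]
      exact_mod_cast hu2
    have h5 := ih.mul h4
    rw [vl_cons, mul_inv_rev]
    refine (h5.mono (by rw [List.length_cons]; exact le_of_eq (by ring))).congr ?_
    rw [List.length_cons]; push_cast
    have : (-((w.length : ℤ) + 1) - (-(w.length : ℤ) + -1)) = 0 := by ring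
    rw [this]; exact dvd_zero _

/-- A word of length exactly `n`. -/
theorem Sh.exact (H : Wd q l1 D) {n : ℕ} (h : Sh q l1 B f n) (hn : B + D ≤ n) :
    ∃ w : List Λ, w.length = n ∧ vl q w = f := by
  obtain ⟨w, h1, h2, h3⟩ := h
  have h4 : (l1 : ℤ) ∣ ((n - w.length : ℕ) : ℤ) := by
    rw [Nat.cast_sub (by omega)]; exact h2
  obtain ⟨u, hu1, hu2⟩ := H.one (n - w.length) (by omega) (by exact_mod_cast h4)
  exact ⟨w ++ u, by rw [List.length_append]; omega, by rw [vl_append, h3, hu2, mul_one]⟩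

/-- A word between two frames. -/
theorem Sh.between (H : Wd q l1 D) {n n' : ℕ} (h : Sh q l1 B f n) (h' : Sh q l1 B' f' n')
    (hn : n + (B * D + B' + D) ≤ n') : ∃ w : List Λ, w.length = n' - n ∧ f * vl q w = f' := by
  have h1 := (h.inv H).mul h'
  have h2 : (-(n : ℤ) + n') = ((n' - n : ℕ) : ℤ) := by rw [Nat.cast_sub (by omega)]; ring
  rw [h2] at h1
  obtain ⟨w, hw1, hw2⟩ := h1.exact H (by omega)
  exact ⟨w, hw1, by rw [hw2, mul_inv_cancel_left]⟩

end sh

/-! ### Patterns from segments -/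

/-- The segments `w i`, `i < m`, which go from the level `nn i` to the level `nn (i + 1)`, form one pattern. -/
theorem exists_pat [Nonempty Λ] (m : ℕ) (nn : ℕ → ℕ) (hnn : ∀ i < m, nn i ≤ nn (i + 1)) (w : ℕ → List Λ)
    (hw : ∀ i < m, (w i).length = nn (i + 1) - nn i) :
    ∃ s : ℕ → Λ, ∀ i < m, ∀ j, ∀ h : j < (w i).length, s (nn i + j) = (w i)[j] := by
  induction m with
  | zero => exact ⟨fun _ => Classical.arbitrary Λ, fun i hi => absurd hi (by omega)⟩
  | succ m ih =>
    obtain ⟨s, hs⟩ := ih (fun i hi => hnn i (by omega)) (fun i hi => hw i (by omega))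
    have hmono : ∀ i ≤ m, nn i ≤ nn m := by
      intro i hi
      induction m, hi using Nat.le_induction with
      | base => exact le_rfl
      | succ k hk ihk =>
        exact (ihk (fun i hi => hnn i (by omega)) (fun i hi => hw i (by omega))
          (ih := fun h1 h2 => ⟨s, fun i hi => hs i (by omega)⟩) (fun i hi => hs i (by omega))).trans
          (hnn k (by omega))
    refine ⟨fun n => if h : nn m ≤ n ∧ n - nn m < (w m).length then (w m)[n - nn m]'h.2 else s n, ?_⟩
    intro i hi j hj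
    rcases Nat.lt_or_ge i m with h | h
    · have h1 : nn (i + 1) ≤ nn m := hmono (i + 1) (by omega)
      have h2 := hw i hi
      have h3 := hnn i hi
      have h4 : ¬ (nn m ≤ nn i + j ∧ nn i + j - nn m < (w m).length) := by omega
      exact (dif_neg h4).trans (hs i h j hj)
    · have h1 : i = m := by omega
      subst h1
      have h4 : nn i ≤ nn i + j ∧ nn i + j - nn i < (w i).length := ⟨by omega, by omega⟩
      refine (dif_pos h4).trans ?_
      congr 1
      omega

/-- The prefix product after a segment. -/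
theorem pw_seg {q : Λ → Y} {s : ℕ → Λ} {n : ℕ} {w : List Λ} (h : ∀ j, ∀ hj : j < w.length, s (n + j) = w[j]) :
    ∀ j ≤ w.length, pw (fun i => q (s i)) (n + j) = pw (fun i => q (s i)) n * vl q (w.take j) := by
  intro j
  induction j with
  | zero => intro _; simp
  | succ j ih =>
    intro hj
    have h1 : j < w.length := by omega
    rw [← add_assoc]
    show pw (fun i => q (s i)) (n + j) * q (s (n + j)) = _
    rw [ih (by omega), h j h1, mul_assoc, List.take_succ_eq_append_getElem h1, vl_append, vl_cons, vl_nil, mul_one]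

/-- The frames of a pattern made of segments. -/
theorem pw_pat {q : Λ → Y} {s : ℕ → Λ} {m : ℕ} {nn : ℕ → ℕ} (hnn : ∀ i < m, nn i ≤ nn (i + 1)) {w : ℕ → List Λ}
    (hw : ∀ i < m, (w i).length = nn (i + 1) - nn i) (h0 : nn 0 = 0)
    (hs : ∀ i < m, ∀ j, ∀ h : j < (w i).length, s (nn i + j) = (w i)[j]) {f : ℕ → Y} (f0 : f 0 = 1)
    (hf : ∀ i < m, f i * vl q (w i) = f (i + 1)) : ∀ i ≤ m, pw (fun i => q (s i)) (nn i) = f i := by
  intro i
  induction i with
  | zero => intro _; rw [h0, f0]; rfl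
  | succ i ih =>
    intro hi
    have h1 := pw_seg (q := q) (hs i (by omega)) (w i).length le_rfl
    have h2 := hnn i (by omega)
    have h3 := hw i (by omega)
    have h4 : nn i + (w i).length = nn (i + 1) := by omega
    rw [h4, ih (by omega), List.take_length, hf i (by omega)] at h1
    exact h1

end Pool.Agent.Lib.MP_688fd0_co.SQ7.H25
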