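import Pool.Agent.Lib.MP_688fd0_co.SQ7.H90.Bal

/-!
Type C2, B1-FULL, row WORD (helper25): the Eulerian circuit of the pairs `(q s, q (σ s))`. Both coordinates are balanced walks
with the same multiplicity, so both values are the same central element.
-/

set_option autoImplicit false

namespace Pool.Agent.Lib.MP_688fd0_co.SQ7.H25

open Pool.Agent.Lib.MP_688fd0_co.SQ7.H90 (Bal exists_lam)

/-- The fibres of a surjective homomorphism. -/
theorem ncard_fib {K Q : Type} [Group K] [Group Q] (f : K →* Q) (hf : Function.Surjective f) (y : Q) :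
    (f ⁻¹' {y}).ncard = Nat.card f.ker := by
  obtain ⟨κ, hκ⟩ := hf y
  have h1 : f ⁻¹' {y} = (fun x => κ * x) '' (f.ker : Set K) := by
    ext x
    constructor
    · intro hx
      have hx : f x = y := hx
      refine ⟨κ⁻¹ * x, ?_, mul_inv_cancel_left _ _⟩
      show f (κ⁻¹ * x) = 1
      rw [map_mul, map_inv, hκ, hx, inv_mul_cancel]
    · rintro ⟨z, hz, rfl⟩
      have hz : f z = 1 := hz
      show f (κ * z) = y
      rw [map_mul, hκ, hz, mul_one]
  rw [h1, Set.ncard_image_of_injective _ (mul_right_injective κ), ← Nat.card_coe_set_eq]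
  rfl

/-- A coordinate of an Eulerian circuit is balanced. -/
theorem bal_of_euler {K Γ Λ : Type} [Group K] [Finite K] [Finite Λ] [Group Γ] (N : Subgroup Γ) (hN : N.Normal)
    (f : K →* Γ ⧸ N) (hf : Function.Surjective f) (qK : Λ → K) (q : Λ → Γ) (σ : Equiv.Perm Λ)
    (hq : ∀ s, f (qK s) = QuotientGroup.mk' N (q (σ s))) (l : List Λ) (hlen : l.length = Nat.card K * Nat.card Λ)
    (h1 : (l.map qK).prod = 1)
    (hcov : ∀ (x : K) (s : Λ), ∃ i, ∃ h : i < l.length, l[i] = s ∧ ((l.take i).map qK).prod = x) :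
    Bal N q (Nat.card f.ker) (l.map σ) := by
  classical
  have := Fintype.ofFinite K
  have := Fintype.ofFinite Λ
  have hpre : ∀ l : List Λ, f (l.map qK).prod = QuotientGroup.mk' N ((l.map σ).map q).prod := by
    intro l
    rw [map_list_prod, map_list_prod, List.map_map, List.map_map, List.map_map]
    congr 1
    exact List.map_congr_left fun s _ => hq s
  -- every edge is used once
  set φ : Fin l.length → K × Λ := fun i => (((l.take i).map qK).prod, l[i]) with hφ
  have hbij : Function.Bijective φ := by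
    rw [Fintype.bijective_iff_surjective_and_card]
    refine ⟨?_, ?_⟩
    · rintro ⟨x, s⟩
      obtain ⟨i, hi, h2, h3⟩ := hcov x s
      exact ⟨⟨i, hi⟩, Prod.ext h3 h2⟩
    · rw [Fintype.card_fin, hlen, Fintype.card_prod, Nat.card_eq_fintype_card, Nat.card_eq_fintype_card]
  refine ⟨?_, fun x s => ?_⟩
  · have h2 := hpre l
    rw [h1, map_one] at h2
    exact (QuotientGroup.eq_one_iff (N := N) _).1 h2.symm
  · have hS : ∀ i, ((l.map σ)[i]? = some s ∧ x⁻¹ * (((l.map σ).take i).map q).prod ∈ N) ↔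
        ∃ h : i < l.length, l[i] = σ.symm s ∧ f ((l.take i).map qK).prod = QuotientGroup.mk' N x := by
      intro i
      have h2 : QuotientGroup.mk' N (((l.map σ).take i).map q).prod = f ((l.take i).map qK).prod := by
        rw [← List.map_take, hpre]
      have h3 : x⁻¹ * (((l.map σ).take i).map q).prod ∈ N ↔ f ((l.take i).map qK).prod = QuotientGroup.mk' N x := by
        rw [← h2, eq_comm]
        exact QuotientGroup.eq.symm
      rw [h3, List.getElem?_eq_some_iff]
      constructor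
      · rintro ⟨⟨h4, h5⟩, h6⟩
        have h7 : i < l.length := by rwa [List.length_map] at h4
        refine ⟨h7, ?_, h6⟩
        rw [List.getElem_map] at h5
        rw [← h5, Equiv.symm_apply_apply]
      · rintro ⟨h4, h5, h6⟩
        refine ⟨⟨by rwa [List.length_map], ?_⟩, h6⟩
        rw [List.getElem_map, h5, Equiv.apply_symm_apply]
    have hinj : Set.InjOn (fun i => ((l.take i).map qK).prod)
        {i | (l.map σ)[i]? = some s ∧ x⁻¹ * (((l.map σ).take i).map q).prod ∈ N} := by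
      intro i hi j hj hij
      obtain ⟨hi1, hi2, -⟩ := (hS i).1 hi
      obtain ⟨hj1, hj2, -⟩ := (hS j).1 hj
      have h2 : φ ⟨i, hi1⟩ = φ ⟨j, hj1⟩ := Prod.ext hij (hi2.trans hj2.symm)
      exact congrArg Fin.val (hbij.1 h2)
    rw [← ncard_fib f hf (QuotientGroup.mk' N x), ← hinj.ncard_image]
    congr 1
    ext y
    constructor
    · rintro ⟨i, hi, rfl⟩
      exact ((hS i).1 hi).2.2
    · intro hy
      obtain ⟨i, hi, h2, h3⟩ := hcov y (σ.symm s)
      refine ⟨i, (hS i).2 ⟨hi, h2, ?_⟩, h3⟩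
      rw [h3]
      exact hy

/-- **The pair circuit.** -/
theorem exists_circ {Γ Λ : Type} [Group Γ] [Finite Γ] [Finite Λ] [Nonempty Λ] (N : Subgroup Γ) (hN : N.Normal)
    (q : Λ → Γ) (hcl : Subgroup.closure (Set.range q) = ⊤) (σ : Equiv.Perm Λ) :
    ∃ (M : ℕ) (B : List Λ), 0 < M ∧ M ≤ N.index ∧ Bal N q M B ∧ Bal N q M (B.map σ) := by
  classical
  set p : Λ → (Γ ⧸ N) × (Γ ⧸ N) := fun s => (QuotientGroup.mk' N (q s), QuotientGroup.mk' N (q (σ s))) with hp
  set K : Subgroup ((Γ ⧸ N) × (Γ ⧸ N)) := Subgroup.closure (Set.range p) with hK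
  set qK : Λ → K := fun s => ⟨p s, Subgroup.subset_closure ⟨s, rfl⟩⟩ with hqK
  have hgen : Subgroup.closure (Set.range qK) = ⊤ := by
    have h1 : Set.range qK = ((↑) : K → (Γ ⧸ N) × (Γ ⧸ N)) ⁻¹' (Set.range p) := by
      ext ⟨x, hx⟩
      constructor
      · rintro ⟨s, hs⟩; exact ⟨s, congrArg Subtype.val hs⟩
      · rintro ⟨s, hs⟩; exact ⟨s, Subtype.ext hs⟩
    rw [h1]
    exact Subgroup.closure_closure_coe_preimage
  set f₁ : K →* Γ ⧸ N := (MonoidHom.fst _ _).comp K.subtype with hf₁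
  set f₂ : K →* Γ ⧸ N := (MonoidHom.snd _ _).comp K.subtype with hf₂
  have hsurj : ∀ (f : K →* Γ ⧸ N) (τ : Equiv.Perm Λ), (∀ s, f (qK s) = QuotientGroup.mk' N (q (τ s))) →
      Function.Surjective f := by
    intro f τ hf
    rw [← MonoidHom.range_eq_top, eq_top_iff, ← Subgroup.map_top_of_surjective _ (QuotientGroup.mk'_surjective N), ← hcl,
      MonoidHom.map_closure, Subgroup.closure_le]
    rintro _ ⟨_, ⟨s, rfl⟩, rfl⟩
    refine ⟨qK (τ.symm s), ?_⟩
    rw [hf, Equiv.apply_symm_apply]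
  have h1 : ∀ s, f₁ (qK s) = QuotientGroup.mk' N (q ((Equiv.refl Λ) s)) := fun s => rfl
  have h2 : ∀ s, f₂ (qK s) = QuotientGroup.mk' N (q (σ s)) := fun s => rfl
  have hs1 := hsurj f₁ (Equiv.refl Λ) h1
  have hs2 := hsurj f₂ σ h2
  obtain ⟨l, hl1, hl2, hl3⟩ := SQ6.eul K Λ qK inferInstance hgen
  have hb1 := bal_of_euler N hN f₁ hs1 qK q (Equiv.refl Λ) h1 l hl1 hl2 hl3
  have hb2 := bal_of_euler N hN f₂ hs2 qK q σ h2 l hl1 hl2 hl3
  have hcard : ∀ f : K →* Γ ⧸ N, Function.Surjective f → Nat.card f.ker * Nat.card (Γ ⧸ N) = Nat.card K := by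
    intro f hf
    have h3 := f.ker.card_mul_index
    rw [Subgroup.index_ker, MonoidHom.range_eq_top.2 hf, Subgroup.card_top] at h3
    exact h3
  have hpos : 0 < Nat.card (Γ ⧸ N) := Nat.card_pos
  have heq : Nat.card f₂.ker = Nat.card f₁.ker :=
    Nat.eq_of_mul_eq_mul_right hpos ((hcard f₂ hs2).trans (hcard f₁ hs1).symm)
  rw [heq] at hb2
  refine ⟨Nat.card f₁.ker, l, Nat.card_pos, ?_, ?_, hb2⟩
  · have h3 := hcard f₁ hs1
    have h4 : Nat.card K ≤ Nat.card ((Γ ⧸ N) × (Γ ⧸ N)) := Nat.card_le_card_of_injective _ K.subtype_injective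
    rw [Nat.card_prod, ← h3] at h4
    exact Nat.le_of_mul_le_mul_right h4 hpos
  · have : l.map (Equiv.refl Λ) = l := by simp
    rwa [this] at hb1

/-- The value of the pair circuit: one central element. -/
theorem circ_val {Γ Λ : Type} [Group Γ] [Finite Γ] [Finite Λ] (N : Subgroup Γ) (hN : N.Normal)
    (q : Λ → Γ) (hcl : Subgroup.closure (Set.range q) = ⊤) (hab : ∀ x ∈ N, ∀ y ∈ N, x * y = y * x) {M : ℕ}
    {B B' : List Λ} (h : Bal N q M B) (h' : Bal N q M B') :
    (B.map q).prod = (B'.map q).prod ∧ ∀ x, x * (B.map q).prod = (B.map q).prod * x := by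
  obtain ⟨lam, -, h2, h3⟩ := exists_lam N hN q hcl hab
  rw [h3 M B h, h3 M B' h']
  refine ⟨rfl, fun x => ?_⟩
  have : Commute x lam := h2 x
  exact this.pow_right M

end Pool.Agent.Lib.MP_688fd0_co.SQ7.H25
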