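import Pool.Agent.Lib.MP_688fd0_co.SQ7.H90.Asm

/-!
Type C2, B1-FULL, row COSET (helper25): the strands of all cosets as a product of transpositions.

`W` = the columns of all cosets, `vt n w` = the vertex of the level `n` on the column `w`, `R` = an equivalence relation
(connected in the 2-factor). The visits `0, .., k - 1` are numbered so that the levels increase inside every coset; the zone of
the visit `i` consists of the levels `lo i, .., hi i`, its exit is `vt (lo i) (y i)`, its arrival enters at
`vt (hi i + 1) (x i)`. A plain visit has `x i = y i`; in a twisted visit the column `x i` goes over to the column `y i`.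

Tokens: `inl w` = the bottom of the column `w`, `inr (t i)` = the arrival of the visit `i` (`t i` = its number in the thread).
`Kp` sends a token to the top of a column or to an exit.
-/

set_option autoImplicit false

namespace Pool.Agent.Lib.MP_688fd0_co.SQ7.H25

open Sum
open Pool.Agent.Lib.MP_688fd0_co.SQ7.H90 (pl)

variable {W D ι I : Type*}

/-- One visit. -/
noncomputable def evp [DecidableEq W] [DecidableEq I] (x y : W) (i : I) : Equiv.Perm (W ⊕ I) :=
  Equiv.swap (inr i) (inl x) * Equiv.swap (inl x) (inl y)

/-- The first `j` visits. -/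
noncomputable def Kp [DecidableEq W] [DecidableEq I] (x y : ℕ → W) (t : ℕ → I) (j : ℕ) : Equiv.Perm (W ⊕ I) :=
  pl (fun k => evp (x k) (y k) (t k)) (List.range j)

/-- The visits of all cosets. -/
structure Cos (R : D → D → Prop) (vt : ℕ → W → D) (cs : W → ι) (L k : ℕ) (lo hi : ℕ → ℕ) (x y : ℕ → W) (t : ℕ → I) : Prop where
  eqv : Equivalence R
  tinj : ∀ i < k, ∀ j < k, t i = t j → i = j
  cxy : ∀ i < k, cs (x i) = cs (y i)
  lohi : ∀ i < k, lo i ≤ hi i
  ord : ∀ i j, i < j → j < k → cs (x i) = cs (x j) → hi i < lo j
  top : ∀ i < k, hi i < L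
  plain : ∀ n < L, ∀ w, (∀ i < k, cs (x i) = cs w → n < lo i ∨ hi i < n) → R (vt n w) (vt (n + 1) w)
  thru : ∀ i < k, ∀ w, cs w = cs (x i) → w ≠ x i → w ≠ y i → R (vt (lo i) w) (vt (hi i + 1) w)
  twist : ∀ i < k, x i ≠ y i → R (vt (lo i) (x i)) (vt (hi i + 1) (y i))
  cov : ∀ i < k, ∀ w, cs w = cs (x i) → ∀ n, lo i < n → n ≤ hi i → ∃ w', cs w' = cs (x i) ∧ R (vt n w) (vt (hi i + 1) w')

section

variable [DecidableEq W] [DecidableEq I] {R : D → D → Prop} {vt : ℕ → W → D} {cs : W → ι} {L k : ℕ} {lo hi : ℕ → ℕ}
  {x y : ℕ → W} {t : ℕ → I}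

theorem evp_x {x y : W} (i : I) (h : x ≠ y) : evp x y i (inl x) = inl y := by
  have h1 : Equiv.swap (inl x) (inl y) (inl x : W ⊕ I) = inl y := Equiv.swap_apply_left _ _
  have h2 : Equiv.swap (inr i) (inl x) (inl y : W ⊕ I) = inl y :=
    Equiv.swap_apply_of_ne_of_ne (by simp) (by simpa using h.symm)
  unfold evp
  rw [Equiv.Perm.mul_apply, h1, h2]

theorem evp_y (x y : W) (i : I) : evp x y i (inl y) = inr i := by
  have h1 : Equiv.swap (inl x) (inl y) (inl y : W ⊕ I) = inl x := Equiv.swap_apply_right _ _
  have h2 : Equiv.swap (inr i) (inl x) (inl x : W ⊕ I) = inr i := Equiv.swap_apply_right _ _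
  unfold evp
  rw [Equiv.Perm.mul_apply, h1, h2]

theorem evp_i (x y : W) (i : I) : evp x y i (inr i) = inl x := by
  have h1 : Equiv.swap (inl x) (inl y) (inr i : W ⊕ I) = inr i :=
    Equiv.swap_apply_of_ne_of_ne (by simp) (by simp)
  have h2 : Equiv.swap (inr i) (inl x) (inr i : W ⊕ I) = inl x := Equiv.swap_apply_left _ _
  unfold evp
  rw [Equiv.Perm.mul_apply, h1, h2]

theorem evp_w {x y w : W} (i : I) (h : w ≠ x) (h' : w ≠ y) : evp x y i (inl w) = inl w := by
  have h1 : Equiv.swap (inl x) (inl y) (inl w : W ⊕ I) = inl w :=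
    Equiv.swap_apply_of_ne_of_ne (by simpa using h) (by simpa using h')
  have h2 : Equiv.swap (inr i) (inl x) (inl w : W ⊕ I) = inl w :=
    Equiv.swap_apply_of_ne_of_ne (by simp) (by simpa using h)
  unfold evp
  rw [Equiv.Perm.mul_apply, h1, h2]

theorem evp_j (x y : W) {i j : I} (h : j ≠ i) : evp x y i (inr j) = inr j := by
  have h1 : Equiv.swap (inl x) (inl y) (inr j : W ⊕ I) = inr j :=
    Equiv.swap_apply_of_ne_of_ne (by simp) (by simp)
  have h2 : Equiv.swap (inr i) (inl x) (inr j : W ⊕ I) = inr j :=
    Equiv.swap_apply_of_ne_of_ne (by simpa using h) (by simp)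
  unfold evp
  rw [Equiv.Perm.mul_apply, h1, h2]

theorem evp_self (x : W) (i : I) : evp x x i = Equiv.swap (inr i) (inl x) := by
  unfold evp
  rw [Equiv.swap_self]
  ext z; rfl

theorem Kp_zero (x y : ℕ → W) (t : ℕ → I) : Kp x y t 0 = 1 := rfl

theorem Kp_succ (x y : ℕ → W) (t : ℕ → I) (j : ℕ) : Kp x y t (j + 1) = evp (x j) (y j) (t j) * Kp x y t j := by
  unfold Kp
  rw [List.range_succ, Pool.Agent.Lib.MP_688fd0_co.SQ7.H90.pl_append]
  rfl

/-- A later visit has not been used. -/
theorem Kp_late (ht : ∀ i < k, ∀ j < k, t i = t j → i = j) (j i : ℕ) (h : j ≤ i) (hi : i < k) :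
    Kp x y t j (inr (t i)) = inr (t i) := by
  induction j with
  | zero => rfl
  | succ j ih =>
    rw [Kp_succ, Equiv.Perm.mul_apply, ih (by omega), evp_j _ _ fun h1 => absurd (ht i hi j (by omega) h1) (by omega)]

theorem Kp_other (j : ℕ) {i : I} (h : ∀ m < j, t m ≠ i) : Kp x y t j (inr i) = inr i := by
  induction j with
  | zero => rfl
  | succ j ih =>
    rw [Kp_succ, Equiv.Perm.mul_apply, ih fun m hm => h m (by omega), evp_j _ _ fun h1 => h j (by omega) h1.symm]

namespace Cos

variable (H : Cos R vt cs L k lo hi x y t)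

include H

omit [DecidableEq W] [DecidableEq I] in
theorem cy {i : ℕ} (hi' : i < k) : cs (y i) = cs (x i) := (H.cxy i hi').symm

omit [DecidableEq W] [DecidableEq I] in
/-- Levels without visits. -/
theorem range {w : W} {n n' : ℕ} (hn : n ≤ n') (hL : n' ≤ L)
    (h : ∀ i < k, cs (x i) = cs w → n' ≤ lo i ∨ hi i < n) : R (vt n w) (vt n' w) := by
  induction n', hn using Nat.le_induction with
  | base => exact H.eqv.refl _
  | succ m hm ih =>
    refine H.eqv.trans (ih (by omega) fun i hik hw => ?_) (H.plain m (by omega) w fun i hik hw => ?_)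
    · rcases h i hik hw with h1 | h1
      · left; omega
      · right; exact h1
    · rcases h i hik hw with h1 | h1
      · left; omega
      · right; omega

/-- The place of a token. -/
theorem main (j : ℕ) (hj : j ≤ k) (z : W ⊕ I) {real : W ⊕ I → D}
    (hr : ∀ w, real (inl w) = vt 0 w) (hr' : ∀ i < k, real (inr (t i)) = vt (hi i + 1) (x i)) :
    (∀ w, Kp x y t j z = inl w → ∀ n ≤ L, (∀ i < j, cs (x i) = cs w → hi i < n) →
      (∀ i, j ≤ i → i < k → cs (x i) = cs w → n ≤ lo i) → R (real z) (vt n w)) ∧
    (∀ i < j, Kp x y t j z = inr (t i) → R (real z) (vt (lo i) (y i))) := by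
  induction j with
  | zero =>
    refine ⟨?_, fun i hi' => absurd hi' (by omega)⟩
    intro w hw n hn _ h2
    have hw : z = inl w := hw
    rw [hw, hr]
    exact H.range (Nat.zero_le n) hn fun i hik hc => Or.inl (h2 i (Nat.zero_le i) hik hc)
  | succ j ih =>
    obtain ⟨ih1, ih2⟩ := ih (by omega)
    have hjk : j < k := by omega
    -- the token before the visit `j`
    rcases hK : Kp x y t j z with v | i
    · by_cases hcv : cs (x j) = cs v
      · have h0 : R (real z) (vt (lo j) v) := by
          have hj1 := H.lohi j hjk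
          have hj2 := H.top j hjk
          refine ih1 v hK (lo j) (by omega) (fun i hij hc => H.ord i j hij hjk (hc.trans hcv.symm)) fun i hji hik hc => ?_
          rcases Nat.eq_or_lt_of_le hji with rfl | h3
          · exact le_rfl
          · have := H.ord j i h3 hik (hcv.trans hc.symm)
            omega
        have hup : ∀ w, cs w = cs (x j) → R (real z) (vt (hi j + 1) w) → ∀ n ≤ L,
            (∀ i < j + 1, cs (x i) = cs w → hi i < n) →
            (∀ i, j + 1 ≤ i → i < k → cs (x i) = cs w → n ≤ lo i) → R (real z) (vt n w) := by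
          intro w hw h3 n hn h4 h5
          have h6 := h4 j (by omega) hw.symm
          refine H.eqv.trans h3 (H.range (by omega) hn fun i hik hc => ?_)
          rcases Nat.lt_or_ge j i with h7 | h7
          · left; exact h5 i (by omega) hik hc
          · right
            rcases Nat.eq_or_lt_of_le h7 with rfl | h8
            · omega
            · have := H.ord i j h8 hjk (hc.trans hw)
              have := H.lohi j hjk
              omega
        by_cases hvy : v = y j
        · subst hvy
          have hK' : Kp x y t (j + 1) z = inr (t j) := by rw [Kp_succ, Equiv.Perm.mul_apply, hK, evp_y]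
          refine ⟨fun w hw => ?_, fun i hij hw => ?_⟩
          · rw [hK'] at hw; exact absurd hw (by simp)
          · rw [hK'] at hw
            have : i = j := (H.tinj j hjk i (by omega) (inr.inj hw)).symm
            rw [this]; exact h0
        · by_cases hvx : v = x j
          · have hxy : x j ≠ y j := by rw [← hvx]; exact hvy
            have hK' : Kp x y t (j + 1) z = inl (y j) := by rw [Kp_succ, Equiv.Perm.mul_apply, hK, hvx, evp_x _ hxy]
            refine ⟨fun w hw => ?_, fun i _ hw => ?_⟩
            · rw [hK'] at hw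
              have : w = y j := (inl.inj hw).symm
              rw [this]
              refine hup _ (H.cy hjk) (H.eqv.trans h0 ?_)
              rw [hvx]; exact H.twist j hjk hxy
            · rw [hK'] at hw; exact absurd hw (by simp)
          · have hK' : Kp x y t (j + 1) z = inl v := by rw [Kp_succ, Equiv.Perm.mul_apply, hK, evp_w _ hvx hvy]
            refine ⟨fun w hw => ?_, fun i _ hw => ?_⟩
            · rw [hK'] at hw
              have : w = v := (inl.inj hw).symm
              rw [this]
              exact hup _ hcv.symm (H.eqv.trans h0 (H.thru j hjk v hcv.symm hvx hvy))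
            · rw [hK'] at hw; exact absurd hw (by simp)
      · have hvx : v ≠ x j := fun h => hcv (by rw [h])
        have hvy : v ≠ y j := fun h => hcv (by rw [h, H.cy hjk])
        have hK' : Kp x y t (j + 1) z = inl v := by rw [Kp_succ, Equiv.Perm.mul_apply, hK, evp_w _ hvx hvy]
        refine ⟨fun w hw n hn h4 h5 => ?_, fun i _ hw => ?_⟩
        · rw [hK'] at hw
          have : w = v := (inl.inj hw).symm
          subst this
          refine ih1 w hK n hn (fun i hij => h4 i (by omega)) fun i hji hik hc => ?_
          rcases Nat.eq_or_lt_of_le hji with rfl | h3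
          · exact absurd hc hcv
          · exact h5 i (by omega) hik hc
        · rw [hK'] at hw; exact absurd hw (by simp)
    · by_cases hij : i = t j
      · subst hij
        have hzi : z = inr (t j) := by
          have h3 := Kp_late (x := x) (y := y) H.tinj j j le_rfl hjk
          exact (Kp x y t j).injective (hK.trans h3.symm)
        have hK' : Kp x y t (j + 1) z = inl (x j) := by rw [Kp_succ, Equiv.Perm.mul_apply, hK, evp_i]
        refine ⟨fun w hw n hn h4 h5 => ?_, fun i' _ hw => ?_⟩
        · rw [hK'] at hw
          have : w = x j := (inl.inj hw).symm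
          rw [this, hzi, hr' j hjk]
          rw [this] at h4 h5
          have h6 := h4 j (by omega) rfl
          refine H.range (by omega) hn fun i' hik hc => ?_
          rcases Nat.lt_or_ge j i' with h7 | h7
          · left; exact h5 i' (by omega) hik hc
          · right
            rcases Nat.eq_or_lt_of_le h7 with rfl | h8
            · omega
            · have := H.ord i' j h8 hjk hc
              have := H.lohi j hjk
              omega
        · rw [hK'] at hw; exact absurd hw (by simp)
      · have hK' : Kp x y t (j + 1) z = inr i := by rw [Kp_succ, Equiv.Perm.mul_apply, hK, evp_j _ _ hij]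
        refine ⟨fun w hw => ?_, fun i' hi'j hw => ?_⟩
        · rw [hK'] at hw; exact absurd hw (by simp)
        · rw [hK'] at hw
          have h3 : i = t i' := inr.inj hw
          subst h3
          rcases Nat.eq_or_lt_of_le (show i' ≤ j by omega) with rfl | h4
          · exact absurd rfl hij
          · exact ih2 i' h4 hK

/-- From a token to the top of a column. -/
theorem up {real : W ⊕ I → D} (hr : ∀ w, real (inl w) = vt 0 w) (hr' : ∀ i < k, real (inr (t i)) = vt (hi i + 1) (x i))
    {z : W ⊕ I} {w : W} (h : Kp x y t k z = inl w) : R (real z) (vt L w) :=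
  (H.main k le_rfl z hr hr').1 w h L le_rfl (fun i hik _ => H.top i hik) fun i h1 h2 => absurd h2 (by omega)

/-- From a token to an exit. -/
theorem ex {real : W ⊕ I → D} (hr : ∀ w, real (inl w) = vt 0 w) (hr' : ∀ i < k, real (inr (t i)) = vt (hi i + 1) (x i))
    {z : W ⊕ I} {i : ℕ} (hik : i < k) (h : Kp x y t k z = inr (t i)) :
    R (real z) (vt (lo i) (y i)) :=
  (H.main k le_rfl z hr hr').2 i hik h

/-- Every vertex is connected with a token. -/
theorem cover {real : W ⊕ I → D} (hr : ∀ w, real (inl w) = vt 0 w) (hr' : ∀ i < k, real (inr (t i)) = vt (hi i + 1) (x i))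
    (n : ℕ) (hn : n ≤ L) (w : W) : ∃ z : W ⊕ I, (∀ i, z = inr i → ∃ j < k, t j = i) ∧ R (real z) (vt n w) := by
  -- a level outside the zones
  have key : ∀ n ≤ L, ∀ w, (∀ i < k, cs (x i) = cs w → n ≤ lo i ∨ hi i < n) →
      ∃ z : W ⊕ I, (∀ i, z = inr i → ∃ j < k, t j = i) ∧ R (real z) (vt n w) := by
    intro n hn w h
    have hex : ∃ j, j ≤ k ∧ ∀ i, j ≤ i → i < k → cs (x i) = cs w → n ≤ lo i :=
      ⟨k, le_rfl, fun i h1 h2 => absurd h2 (by omega)⟩
    classical
    set j := Nat.find hex with hj
    obtain ⟨hjk, hj1⟩ := Nat.find_spec hex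
    have hj2 : ∀ i < j, cs (x i) = cs w → hi i < n := by
      intro i hij hc
      obtain ⟨m, hm⟩ : ∃ m, j = m + 1 := ⟨j - 1, by omega⟩
      have h3 := Nat.find_min hex (m := m) (by omega)
      push Not at h3
      obtain ⟨i', h4, h5, h6, h7⟩ := h3 (by omega)
      have h8 : i' = m := by
        by_contra h8
        exact absurd (hj1 i' (by omega) h5 h6) (by omega)
      subst h8
      rcases h i' h5 h6 with h9 | h9
      · omega
      · rcases Nat.eq_or_lt_of_le (show i ≤ i' by omega) with rfl | h10
        · exact h9
        · have := H.ord i i' h10 h5 (hc.trans h6.symm)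
          have := H.lohi i' h5
          omega
    set z := (Kp x y t j).symm (inl w) with hz
    have hKz : Kp x y t j z = inl w := Equiv.apply_symm_apply _ _
    have hz2 : ∀ i, z = inr i → ∃ j < k, t j = i := by
      intro i h3
      by_contra h4
      push Not at h4
      have h5 : Kp x y t j (inr i) = inr i := Kp_other j fun m hm => h4 m (by omega)
      rw [← h3, hKz] at h5
      exact absurd h5 (by rw [h3]; simp)
    exact ⟨z, hz2, (H.main j hjk z hr hr').1 w hKz n hn hj2 hj1⟩
  by_cases h : ∀ i < k, cs (x i) = cs w → n ≤ lo i ∨ hi i < n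
  · exact key n hn w h
  · push Not at h
    obtain ⟨i, hik, hc, h1, h2⟩ := h
    obtain ⟨w', hw', h3⟩ := H.cov i hik w hc.symm n h1 h2
    have h4 := H.top i hik
    obtain ⟨z, hz, h5⟩ := key (hi i + 1) (by omega) w' fun i' hik' hc' => by
      rcases Nat.lt_trichotomy i i' with h6 | h6 | h6
      · left
        have := H.ord i i' h6 hik' (by rw [hc', hw'])
        omega
      · right; subst h6; omega
      · right
        have := H.ord i' i h6 hik (by rw [hc', hw'])
        have := H.lohi i hik
        omega
    exact ⟨z, hz, H.eqv.trans h5 (H.eqv.symm h3)⟩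

end Cos

end

end Pool.Agent.Lib.MP_688fd0_co.SQ7.H25
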