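import Pool.Agent.Lib.MP_688fd0_co.SQ7.H25.Zcs

/-!
Type C2, B1-FULL, row COSET (helper25): the statement `CosetS`.
-/

set_option autoImplicit false

namespace Pool.Agent.Lib.MP_688fd0_co.SQ7.H25

open Equiv Pool.Agent.Lib.MP_688fd0_co.SQ4.H49 Pool.Agent.Lib.MP_688fd0_co.SQ7.H71

/-- The gap. -/
def W0 (_l₁ B D _l : ℕ) : ℕ := (B + D + 2) * D + (B + D) + D + 2

theorem W0_le (l₁ B D l : ℕ) : W0 l₁ B D l ≤ (l₁ + B + D + l + 10) ^ 20 := by
  have h1 : W0 l₁ B D l ≤ (l₁ + B + D + l + 10) ^ 2 := by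
    unfold W0
    nlinarith [Nat.zero_le B, Nat.zero_le D, Nat.zero_le l, Nat.zero_le l₁, Nat.zero_le (B * D), Nat.zero_le (B * B),
      Nat.zero_le (D * D), Nat.zero_le (l₁ * B), Nat.zero_le (l₁ * D), Nat.zero_le (l * B), Nat.zero_le (l * D),
      Nat.zero_le (l * l₁), Nat.zero_le (l * l), Nat.zero_le (l₁ * l₁)]
  exact h1.trans (Nat.pow_le_pow_right (by omega) (by norm_num))

variable {G : Type} [Group G] {S : Lets G} {Γ T : Subgroup G} {L : ℕ} {lv : G → ℕ} {A : Set G} {Nv : Subgroup G} {l : ℕ}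
  {r : ℕ → Lt} {lam : G} {f l₁ B D W : ℕ} {g : G} {n : ℕ} {v : ℕ → Vst G} {d : ℕ → G} {σ : ℕ → ℕ}

/-- The context of a plan. -/
theorem exists_ctx [Finite G] (hw : Wrd S Γ T L lv Nv l₁ D) (hp : Pln S Γ T L lv A Nv l r lam f l₁ B W g n v d σ)
    (hW : W0 l₁ B D l ≤ W) (c : ℕ → Bool) :
    ∃ s : G ⧸ T → ℕ → Lt, Ctx S Γ T L lv l r lam f n v s (fun t => (v t).col (c t)) W g := by
  classical
  have haT : ∀ t ≤ n, ((v t).col (c t))⁻¹ * (v t).y ∈ T := fun t ht => (hp.col t ht _).1
  have hpats : ∀ ξ : G ⧸ T, ∃ s : ℕ → Lt, fr S s L = g ∧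
      ∀ t ∈ (Finset.range (n + 1)).filter (fun t => (QuotientGroup.mk (v t).y : G ⧸ T) = ξ),
        (v t).col (c t) * fr S s (lv (v t).y) = (v t).y ∧ (s (lv (v t).y - 1)).2 = (v t).j ∧
        (∀ k < l * f * (v t).m, s (lv (v t).y + k) = r k) ∧
        ∀ τ, (v t).tw = some τ → s (lv (v t).y + l * f * (v t).m) = flt τ := by
    intro ξ
    have hmem : ∀ t ∈ (Finset.range (n + 1)).filter (fun t => (QuotientGroup.mk (v t).y : G ⧸ T) = ξ), t ≤ n ∧
        (QuotientGroup.mk (v t).y : G ⧸ T) = ξ := by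
      intro t ht
      rw [Finset.mem_filter, Finset.mem_range] at ht
      exact ⟨by omega, ht.2⟩
    have hx0 : (v 0).col (c 0) ∈ Γ := by
      have h1 := Γ.mul_mem (hp.yΓ 0 (Nat.zero_le n)) (Γ.inv_mem (hp.circ.le (haT 0 (Nat.zero_le n))))
      rwa [mul_inv_rev, inv_inv, mul_inv_cancel_left] at h1
    have hx0' : lv ((v 0).col (c 0)) = 0 := (hp.col 0 (Nat.zero_le n) _).2
    have h0 := hp.low 0 (Nat.zero_le n)
    have h0' := hp.circ.lt (v 0).y
    exact exists_pats (B := B) (W := W) hw hp.run hp.lamN hp.hl _ (fun t => (v t).y) (fun t => (v t).col (c t))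
      (fun t => (v t).j) (fun t => (v t).m) (fun t => (v t).tw) (fun t ht => hp.yΓ t (hmem t ht).1)
      (fun t ht => haT t (hmem t ht).1) (fun t ht => (hp.col t (hmem t ht).1 _).2)
      (fun t ht => hp.word t (hmem t ht).1 _) hp.gT.1 _ hx0 hx0' (hp.gT.2 _ hx0 hx0') hp.gword hW (by omega)
      (fun t ht => hp.low t (hmem t ht).1) (fun t ht => hp.high t (hmem t ht).1)
      (fun t ht t' ht' hne => by
        obtain ⟨h1, h2⟩ := hmem t ht
        obtain ⟨h3, h4⟩ := hmem t' ht'
        exact hp.sep t h1 t' h3 hne (QuotientGroup.eq.1 (h2.trans h4.symm)))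
  choose s hs1 hs2 using hpats
  have hs3 : ∀ t ≤ n, (v t).col (c t) * fr S (s (QuotientGroup.mk (v t).y)) (lv (v t).y) = (v t).y ∧
      (s (QuotientGroup.mk (v t).y) (lv (v t).y - 1)).2 = (v t).j ∧
      (∀ k < l * f * (v t).m, s (QuotientGroup.mk (v t).y) (lv (v t).y + k) = r k) ∧
      ∀ τ, (v t).tw = some τ → s (QuotientGroup.mk (v t).y) (lv (v t).y + l * f * (v t).m) = flt τ := fun t ht =>
    hs2 _ t (by rw [Finset.mem_filter, Finset.mem_range]; exact ⟨by omega, rfl⟩)
  exact ⟨s, ⟨hp.circ, hp.run, hp.pos, hp.hf, hp.yΓ, haT, fun t ht => (hp.col t ht _).2, fun t ht => hp.colw t ht _,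
    hp.gT.1, hp.gT.2, (by unfold W0 at hW; omega), hp.low, hp.high, hp.sep, hp.last.1, hp.last.2.1,
    fun t ht => (hs3 t ht).1, fun t ht => (hs3 t ht).2.1, fun t ht => (hs3 t ht).2.2.1, fun t ht => (hs3 t ht).2.2.2, hs1⟩⟩

/-- The two forms of the permutation of a visit. -/
theorem evis_evp [DecidableEq G] {Γ : Subgroup G} {lv : G → ℕ} {n : ℕ} (t : Fin (n + 1)) (b : Bool) (a w : Col Γ lv)
    (h : b = false → w = a) : evis Γ lv n t b a w = evp w a t := by
  ext1 z
  unfold evis
  cases b with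
  | false =>
    rw [h rfl, evp_self, if_neg (by simp), one_mul]
  | true =>
    rw [if_pos rfl, Perm.mul_apply]
    by_cases hwa : w = a
    · subst hwa
      rw [evp_self, swap_self]; rfl
    · rcases z with z | z
      · by_cases h1 : z = a
        · subst h1
          rw [evp_y, swap_apply_right, swap_apply_of_ne_of_ne (by simp) (by simp)]
        · by_cases h2 : z = w
          · subst h2
            rw [evp_x _ hwa, swap_apply_of_ne_of_ne (a := Sum.inr t) (b := Sum.inl a) (by simp) (by simpa using h1),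
              swap_apply_right]
          · rw [evp_w _ h2 h1, swap_apply_of_ne_of_ne (a := Sum.inr t) (b := Sum.inl a) (by simp) (by simpa using h1),
              swap_apply_of_ne_of_ne (by simpa using h1) (by simpa using h2)]
      · by_cases h1 : z = t
        · subst h1
          rw [evp_i, swap_apply_left, swap_apply_left]
        · rw [evp_j _ _ h1, swap_apply_of_ne_of_ne (a := Sum.inr t) (b := Sum.inl a) (by simpa using h1) (by simp),
            swap_apply_of_ne_of_ne (by simp) (by simp)]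

theorem kpr_Kp [DecidableEq G] {Γ : Subgroup G} {lv : G → ℕ} {n : ℕ} {E : ℕ → Perm (Tok Γ lv n)} {x y : ℕ → Col Γ lv}
    {t : ℕ → Fin (n + 1)} (j : ℕ) (h : ∀ k < j, E k = evp (x k) (y k) (t k)) : kpr E j = Kp x y t j := by
  induction j with
  | zero => rfl
  | succ j ih =>
    show E j * kpr E j = _
    rw [ih fun k hk => h k (by omega), h j (by omega), Kp_succ]

/-- **COSET.** -/
theorem cosetS : CosetS := by
  refine ⟨W0, W0_le, ?_⟩
  intro G _ _ _ S Γ T L lv A Nv l r lam f l₁ B D W g n v d σ hw hp hW c O K E hO1 hO2 hE hK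
  obtain ⟨s, H⟩ := exists_ctx hw hp hW c
  have hcos := H.cos hp.σlt hp.σinj hp.σmon
  have hnpos := hp.pos
  have hσt : ∀ k ≤ n, ∀ t : Fin (n + 1), t.1 = σ k → Ctx.tf n σ k = t := fun k hk t ht =>
    Fin.ext ((Ctx.tf_val (hp.σlt k hk)).trans ht.symm)
  -- the permutation of the visits
  have hKK : K = Kp (H.xf σ) (H.yf σ) (Ctx.tf n σ) (n + 1) := by
    rw [hK]
    refine kpr_Kp (n + 1) fun k hk => ?_
    have hk' : σ k ≤ n := hp.σlt k (by omega)
    have hx : H.xf σ k = H.Wc hk' := by unfold Ctx.xf; rw [dif_pos hk']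
    have hy : H.yf σ k = H.A hk' := by unfold Ctx.yf; rw [dif_pos hk']
    have hv : (Ctx.tf n σ k).1 = σ k := Ctx.tf_val hk'
    rw [hE k (by omega) (Ctx.tf n σ k) (H.A hk') (H.Wc hk') hv (by rw [hv]; rfl) (by rw [hv]; rfl), hx, hy]
    refine evis_evp _ _ _ _ fun h => H.W_none hk' ?_
    rw [hv] at h
    rcases h1 : (v (σ k)).tw with _ | τ
    · rfl
    · rw [h1] at h; exact absurd h (by simp)
  -- tokens
  set real' : Tok Γ lv n → G := fun x => match x with
    | Sum.inl w => w.1
    | Sum.inr t => hvv S l f r (v t.1) (NN l f (v t.1)) with hreal'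
  have hr1 : ∀ w : Col Γ lv, real' (Sum.inl w) = vt S s 0 w := fun w => (vt_zero w).symm
  have hr2 : ∀ i < n + 1, real' (Sum.inr (Ctx.tf n σ i)) = vt S s (lv (v (σ i)).y + NN l f (v (σ i)) - 1 + 1) (H.xf σ i) := by
    intro i hi
    have hk' : σ i ≤ n := hp.σlt i (by omega)
    have hx : H.xf σ i = H.Wc hk' := by unfold Ctx.xf; rw [dif_pos hk']
    have h1 := H.low _ hk'
    have h2 := H.Wpos
    rw [hx, show lv (v (σ i)).y + NN l f (v (σ i)) - 1 + 1 = lv (v (σ i)).y + NN l f (v (σ i)) by omega, H.vt_W hk']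
    show hvv S l f r (v (Ctx.tf n σ i).1) (NN l f (v (Ctx.tf n σ i).1)) = _
    rw [Ctx.tf_val hk']
  have hsurj : ∀ t : Fin (n + 1), ∃ i ≤ n, Ctx.tf n σ i = t := by
    intro t
    have h1 : Function.Injective (fun i : Fin (n + 1) => Ctx.tf n σ i.1) := by
      intro i j hij
      exact Fin.ext (hcos.tinj i.1 i.2 j.1 j.2 hij)
    obtain ⟨i, hi⟩ := Finite.injective_iff_surjective.1 h1 t
    exact ⟨i.1, by omega, hi⟩
  have hthr : ∀ t : Fin (n + 1), (if t.1 = n then hvv S l f r (v n) (NN l f (v n)) else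
      hvv S l f r (v (Ctx.bf n t.1)) (NN l f (v (Ctx.bf n t.1)))) = real' (Sum.inr (thr n t)) := by
    intro t
    show _ = hvv S l f r (v (thr n t).1) (NN l f (v (thr n t).1))
    by_cases h1 : t.1 = n
    · rw [if_pos h1]
      have : (thr n t).1 = n := by unfold thr; rw [if_pos h1]; exact h1
      rw [this]
    · rw [if_neg h1]
      have : (thr n t).1 = Ctx.bf n t.1 := by
        unfold thr Ctx.bf
        rw [if_neg h1]
        by_cases h2 : t.1 = 0
        · rw [if_pos h2, if_neg (by omega)]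
        · rw [if_neg h2, if_pos (by omega)]
      rw [this]
  have hedge : ∀ x : ↥Γ, ((H.Φ x : ↥Γ) : G) ≠ real' (Sum.inr ⟨n - 1, by omega⟩) →
      ((mu H.hc s x : G))⁻¹ * (H.Φ x : ↥Γ) ∈ A := by
    intro x hx
    have hmu := mu_val H.hc s x
    by_cases h1 : ∀ t < n, ∀ i ≤ NN l f (v t), hvv S l f r (v t) i ≠ x.1 * S.sv (lt' lv s x.1)
    · rw [H.phi_of_off h1, hmu]
      have h2 : (x.1 * S.al (lt' lv s x.1).1)⁻¹ * (x.1 * S.sv (lt' lv s x.1)) = (S.be (lt' lv s x.1).2)⁻¹ := by
        unfold Lets.sv; group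
      rw [h2]
      exact hp.sym _ (hp.be _)
    · push Not at h1
      obtain ⟨t, ht, i, hi, h2⟩ := h1
      have hlvx : lv (x.1 * S.sv (lt' lv s x.1)) = (lv x.1 + 1) % L := H.hc.step _ x.2 _
      have hmk : (QuotientGroup.mk x.1 : G ⧸ T) = QuotientGroup.mk (v t).y := by
        rw [← hvv_mk (l := l) (f := f) (r := r) H.hc (v t) i, h2, mk_mul (H.hc.mem _)]
      have hlvi := H.hvv_lv ht.le hi
      have hlow := H.low t ht.le
      have hWp := H.Wpos
      have hbd := H.bd ht.le
      have hlx := H.hc.lt x.1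
      have hlx1 : lv x.1 + 1 = lv (v t).y + i := by
        rw [h2, hlvx] at hlvi
        rcases Nat.lt_or_ge (lv x.1 + 1) L with h3 | h3
        · rwa [Nat.mod_eq_of_lt h3] at hlvi
        · have h4 : lv x.1 + 1 = L := by omega
          rw [h4, Nat.mod_self] at hlvi; omega
      rcases i with _ | i
      · rw [hvv_zero] at h2
        have h3 := H.phi_of_ar ht h2
        rw [h3] at hx ⊢
        have ht0 : 0 < t := by
          by_contra h4
          have h5 : t = 0 := by omega
          apply hx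
          have h6 : Ctx.bf n t = n - 1 := by unfold Ctx.bf; rw [if_neg (by omega)]
          rw [h6]
        have h4 : Ctx.bf n t = t - 1 := by unfold Ctx.bf; rw [if_pos ht0]
        have h5 := hp.step (t - 1) (by omega)
        rw [show t - 1 + 1 = t by omega] at h5
        rw [h4, hvv_out H.hr]
        -- the odd vertex
        have h6 : (lt' lv s x.1).2 = (v t).j := by
          unfold lt'
          rw [hmk, show lv x.1 = lv (v t).y - 1 by omega]
          exact H.P2 t ht.le
        have h7 : (mu H.hc s x : G) = (v t).y * S.be (v t).j := by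
          rw [hmu, h2, ← h6]
          unfold Lets.sv; group
        rw [h7, h5]
        have h8 : ((v (t - 1)).out S (lam ^ f) * d (t - 1))⁻¹ * (v (t - 1)).out S (lam ^ f) = (d (t - 1))⁻¹ := by group
        rw [h8]
        exact hp.sym _ (hp.dA (t - 1) (by omega))
      · have h3 := H.phi_of_on ht hi h2
        rw [h3]
        have h4 : lt' lv s x.1 = flt (hlt l f r (v t) i) := by
          unfold lt'
          rw [hmk, show lv x.1 = lv (v t).y + i by omega]
          exact H.sea ht.le (by omega)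
        rw [hvv_succ, h4] at h2
        have h5 : (mu H.hc s x : G) = hvv S l f r (v t) i * S.al (hlt l f r (v t) i).1 := by
          rw [hmu, h4]
          have h6 : hvv S l f r (v t) i * S.al (hlt l f r (v t) i).1 * (S.be (hlt l f r (v t) i).2)⁻¹ =
              x.1 * S.al (flt (hlt l f r (v t) i)).1 * (S.be (hlt l f r (v t) i).2)⁻¹ := by
            rw [mul_assoc, mul_assoc]; exact h2
          exact (mul_right_cancel h6).symm
        rw [h5]
        have h6 : (hvv S l f r (v t) i * S.al (hlt l f r (v t) i).1)⁻¹ * hvv S l f r (v t) i =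
            (S.al (hlt l f r (v t) i).1)⁻¹ := by group
        rw [h6]
        exact hp.sym _ (hp.al _)
  have hedge2 : ∀ x : ↥Γ, x.1⁻¹ * (mu H.hc s x : G) ∈ A := by
    intro x
    rw [mu_val, inv_mul_cancel_left]
    exact hp.al _
  have hinvA : ∀ x y : G, x⁻¹ * y ∈ A → y⁻¹ * x ∈ A := by
    intro x y h
    have := hp.sym _ h
    rwa [mul_inv_rev, inv_inv] at this
  set last : G := real' (Sum.inr ⟨n - 1, by omega⟩) with hlast
  refine ⟨H.e, fun x => (real' x, false), last * d (n - 1), drt_inv _ _, ?_, ?_, ?_, ?_, ?_⟩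
  · -- letters
    intro x h1 h2
    have h1 : x ≠ (last, false) := h1
    have h2 : x ≠ H.e (last, false) := h2
    revert h1 h2
    refine drt_cases (mu H.hc s) (P := fun x => x ≠ (last, false) → x ≠ H.e (last, false) → x.1⁻¹ * (H.e x).1 ∈ A)
      ?_ ?_ ?_ ?_ x
    · intro x _ _
      unfold Ctx.e
      rw [drt_gt]
      exact hedge2 x
    · intro x h1 _
      unfold Ctx.e
      rw [drt_gf]
      refine hinvA _ _ ?_
      have h3 := hedge (H.Φ.symm x) (by
        rw [Equiv.apply_symm_apply]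
        intro h4
        exact h1 (Prod.ext h4 rfl))
      rwa [Equiv.apply_symm_apply] at h3
    · intro x _ h2
      unfold Ctx.e
      rw [drt_mt]
      refine hedge x fun h4 => h2 ?_
      have h5 : H.e ((H.Φ x : ↥Γ), false) = ((mu H.hc s x : G), true) := by
        unfold Ctx.e
        rw [drt_gf, Equiv.symm_apply_apply]
      have h6 : last = ((H.Φ x : ↥Γ) : G) := h4.symm
      rw [h6, h5]
    · intro x _ _
      unfold Ctx.e
      rw [drt_mf]
      exact hinvA _ _ (hedge2 x)
  · -- the neighbour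
    show last⁻¹ * (last * d (n - 1)) ∈ A
    rw [inv_mul_cancel_left]
    exact hp.dA (n - 1) (by omega)
  · -- the virtual visit
    have h1 : last = (v (n - 1)).out S (lam ^ f) := hvv_out H.hr _
    have h2 := hp.step (n - 1) (by omega)
    rw [show n - 1 + 1 = n by omega, ← h1] at h2
    rw [← h2]
    have hbd := H.bd (le_refl n)
    have hlow := H.low n le_rfl
    have hWp := H.Wpos
    set x0 : ↥Γ := ⟨vt S s (lv (v n).y - 1) (H.A le_rfl), vtΓ H.hc _ _⟩ with hx0
    have hst := vt_step (s := s) H.hc (show lv (v n).y - 1 < L by omega) (H.A (le_refl n))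
    rw [show lv (v n).y - 1 + 1 = lv (v n).y by omega, H.vt_A le_rfl] at hst
    have h3 : (mu H.hc s x0 : G) = (v n).y * S.be (v n).j := by
      have h6 : (lt' lv s x0.1).2 = (v n).j := by
        unfold lt'
        rw [vt_mk H.hc, H.A_mk le_rfl, vt_lv H.hc (by omega)]
        exact H.P2 n le_rfl
      rw [mu_val, ← h6]
      have hst' : x0.1 * S.sv (lt' lv s x0.1) = (v n).y := hst
      rw [← hst']
      unfold Lets.sv; group
    have h4 := H.R_eqv.symm (H.arr (le_refl n))
    rw [if_pos rfl] at h4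
    rw [← h3]
    have h5 : Con fl H.e ((x0 : G), false) ((mu H.hc s x0 : G), true) := drt_up _ _ x0 _ _
    exact (h5.symm).trans h4.symm
  · intro x
    show H.R (real' x) (real' (O (K x)))
    rcases hKx : K x with w | t
    · rw [hKK] at hKx
      have h1 := hcos.up hr1 hr2 hKx
      have h2 : w.1 * g ∈ Γ ∧ lv (w.1 * g) = 0 := ⟨Γ.mul_mem w.2.1 (H.hc.le H.gT), H.g0 w.1 w.2.1 w.2.2⟩
      rw [hO1 w ⟨w.1 * g, h2⟩ rfl]
      have h3 : vt S s L w = w.1 * g := H.vt_top w
      simp only [h3] at h1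
      exact h1
    · rw [hKK] at hKx
      obtain ⟨i, hi, rfl⟩ := hsurj t
      have hk' : σ i ≤ n := hp.σlt i hi
      have hy : H.yf σ i = H.A hk' := by unfold Ctx.yf; rw [dif_pos hk']
      have h1 := hcos.ex hr1 hr2 (show i < n + 1 by omega) hKx
      rw [hy] at h1
      have h2 := H.arr hk'
      rw [hO2, ← hthr, Ctx.tf_val hk']
      exact H.R_eqv.trans h1 h2
  · intro x
    have key : ∀ x : ↥Γ, ∃ y, Con fl H.e ((x : G), false) (real' y, false) := by
      intro x
      obtain ⟨w, h1, -⟩ := vt_ex (s := s) H.hc x.2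
      obtain ⟨z, -, h2⟩ := hcos.cover hr1 hr2 (lv x.1) (H.hc.lt _).le w
      simp only [h1] at h2
      exact ⟨z, H.R_eqv.symm h2⟩
    refine drt_cases (mu H.hc s) (P := fun x => ∃ y, Con fl H.e x (real' y, false)) ?_ ?_ ?_ ?_ x
    · intro x
      obtain ⟨y, hy⟩ := key x
      exact ⟨y, (drt_flip _ _ _ _ _).trans hy⟩
    · exact key
    · intro x
      obtain ⟨y, hy⟩ := key x
      exact ⟨y, (drt_up _ _ x false true).symm.trans hy⟩
    · intro x
      obtain ⟨y, hy⟩ := key x
      exact ⟨y, (drt_up _ _ x false false).symm.trans hy⟩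

end Pool.Agent.Lib.MP_688fd0_co.SQ7.H25
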