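import Pool.Agent.Lib.MP_688fd0_co.SQ7.H71.Dart

/-!
Type C2, B1-FULL, row COSET (helper25): darts of a 2-factor given by a bijection `μ` from the even to the odd vertices and a
permutation `Φ` of the even vertices.
-/

set_option autoImplicit false

namespace Pool.Agent.Lib.MP_688fd0_co.SQ7.H25

open Pool.Agent.Lib.MP_688fd0_co.SQ4.H49 Pool.Agent.Lib.MP_688fd0_co.SQ7.H71

variable {G : Type} [Group G] {Γ : Subgroup G} (μ : ↥Γ ≃ {o : G // o ∉ Γ}) (Φ : Equiv.Perm ↥Γ)

open Classical in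
/-- The involution of the edges: `(x, true) — (μ x, false)`, `(μ x, true) — (Φ x, false)`. -/
noncomputable def drt (x : G × Bool) : G × Bool :=
  if h : x.1 ∈ Γ then (if x.2 then ((μ ⟨x.1, h⟩ : G), false) else ((μ (Φ.symm ⟨x.1, h⟩) : G), true))
  else (if x.2 then ((Φ (μ.symm ⟨x.1, h⟩) : G), false) else ((μ.symm ⟨x.1, h⟩ : G), true))

theorem drt_gt (x : ↥Γ) : drt μ Φ ((x : G), true) = ((μ x : G), false) := by
  unfold drt
  rw [dif_pos x.2]
  rfl

theorem drt_gf (x : ↥Γ) : drt μ Φ ((x : G), false) = ((μ (Φ.symm x) : G), true) := by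
  unfold drt
  rw [dif_pos x.2]
  rfl

theorem drt_ot (o : {o : G // o ∉ Γ}) : drt μ Φ ((o : G), true) = ((Φ (μ.symm o) : G), false) := by
  unfold drt
  rw [dif_neg o.2]
  rfl

theorem drt_of (o : {o : G // o ∉ Γ}) : drt μ Φ ((o : G), false) = ((μ.symm o : G), true) := by
  unfold drt
  rw [dif_neg o.2]
  rfl

theorem drt_cases {P : G × Bool → Prop} (h1 : ∀ x : ↥Γ, P ((x : G), true)) (h2 : ∀ x : ↥Γ, P ((x : G), false))
    (h3 : ∀ x : ↥Γ, P ((μ x : G), true)) (h4 : ∀ x : ↥Γ, P ((μ x : G), false)) (d : G × Bool) : P d := by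
  obtain ⟨x, b⟩ := d
  by_cases hx : x ∈ Γ
  · cases b
    · exact h2 ⟨x, hx⟩
    · exact h1 ⟨x, hx⟩
  · obtain ⟨y, hy⟩ := μ.surjective ⟨x, hx⟩
    have h5 : (μ y : G) = x := congrArg Subtype.val hy
    cases b
    · rw [← h5]; exact h4 y
    · rw [← h5]; exact h3 y

theorem drt_mt (x : ↥Γ) : drt μ Φ ((μ x : G), true) = ((Φ x : G), false) := by
  rw [drt_ot, Equiv.symm_apply_apply]

theorem drt_mf (x : ↥Γ) : drt μ Φ ((μ x : G), false) = ((x : G), true) := by
  rw [drt_of, Equiv.symm_apply_apply]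

theorem drt_inv : Inv (drt μ Φ) := by
  intro d
  refine drt_cases μ (P := fun d => drt μ Φ (drt μ Φ d) = d ∧ drt μ Φ d ≠ d) ?_ ?_ ?_ ?_ d
  · intro x
    rw [drt_gt, drt_mf]
    exact ⟨rfl, fun h => by cases congrArg Prod.snd h⟩
  · intro x
    rw [drt_gf, drt_mt, Equiv.apply_symm_apply]
    exact ⟨rfl, fun h => by cases congrArg Prod.snd h⟩
  · intro x
    rw [drt_mt, drt_gf, Equiv.symm_apply_apply]
    exact ⟨rfl, fun h => by cases congrArg Prod.snd h⟩
  · intro x
    rw [drt_mf, drt_gt]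
    exact ⟨rfl, fun h => by cases congrArg Prod.snd h⟩

theorem drt_flip (x : G) (b b' : Bool) : Con fl (drt μ Φ) (x, b) (x, b') := by
  by_cases h : b = b'
  · rw [h]; exact Con.rfl'
  · have h1 : fl (x, b) = (x, b') := by
      show (x, !b) = (x, b')
      rw [show (!b) = b' by cases b <;> cases b' <;> simp_all]
    rw [← h1]
    exact con_left _ _ _

theorem drt_up (x : ↥Γ) (b b' : Bool) : Con fl (drt μ Φ) ((x : G), b) ((μ x : G), b') := by
  have h1 := con_right fl (drt μ Φ) ((x : G), true)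
  rw [drt_gt] at h1
  exact (drt_flip μ Φ _ b true).trans (h1.trans (drt_flip μ Φ _ false b'))

/-- The connections of the even vertices. -/
theorem drt_con (x : ↥Γ) (b b' : Bool) : Con fl (drt μ Φ) ((x : G), b) ((Φ x : G), b') := by
  have h1 := con_right fl (drt μ Φ) ((μ x : G), true)
  rw [drt_mt] at h1
  exact (drt_up μ Φ x b true).trans (h1.trans (drt_flip μ Φ _ false b'))

end Pool.Agent.Lib.MP_688fd0_co.SQ7.H25
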