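import Pool.Agent.Lib.MP_688fd0_co.SQ7.H25.Thd
import Pool.Agent.Lib.MP_688fd0_co.SQ7.H25.Drt
import Pool.Agent.Lib.MP_688fd0_co.SQ7.H25.Coset

/-!
Type C2, B1-FULL, row COSET (helper25): the zones of the visits.
-/

set_option autoImplicit false

namespace Pool.Agent.Lib.MP_688fd0_co.SQ7.H25

open Pool.Agent.Lib.MP_688fd0_co.SQ4.H49 Pool.Agent.Lib.MP_688fd0_co.SQ7.H71

variable {G : Type} [Group G]

/-- The length of the hole path. -/
def NN (l f : ℕ) (v : Vst G) : ℕ := l * f * v.m + v.tw.toList.length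

/-- The letters of the hole path. -/
def hlt (l f : ℕ) (r : ℕ → Lt) (v : Vst G) (k : ℕ) : Lt :=
  if k < l * f * v.m then flt (r k) else v.tw.getD (false, false)

/-- The hole vertices. -/
def hvv (S : Lets G) (l f : ℕ) (r : ℕ → Lt) (v : Vst G) (i : ℕ) : G := v.y * fr S (hlt l f r v) i

/-- The data for one choice of the bits. -/
structure Ctx (S : Lets G) (Γ T : Subgroup G) (L : ℕ) (lv : G → ℕ) (l : ℕ) (r : ℕ → Lt) (lam : G) (f n : ℕ)
    (v : ℕ → Vst G) (s : G ⧸ T → ℕ → Lt) (a : ℕ → G) (W : ℕ) (g : G) : Prop where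
  hc : Circ S Γ T L lv
  hr : Run S T l r lam
  npos : 0 < n
  hf : l.factorial ∣ f
  yΓ : ∀ t ≤ n, (v t).y ∈ Γ
  aT : ∀ t ≤ n, (a t)⁻¹ * (v t).y ∈ T
  a0 : ∀ t ≤ n, lv (a t) = 0
  w0 : ∀ t ≤ n, lv ((v t).w S * a t) = 0
  gT : g ∈ T
  g0 : ∀ x ∈ Γ, lv x = 0 → lv (x * g) = 0
  Wpos : 2 ≤ W
  low : ∀ t ≤ n, W ≤ lv (v t).y
  high : ∀ t ≤ n, lv (v t).y + l * f * (v t).m + W ≤ L
  sep : ∀ t ≤ n, ∀ t' ≤ n, t ≠ t' → (v t).y⁻¹ * (v t').y ∈ T →
    lv (v t).y + l * f * (v t).m + W ≤ lv (v t').y ∨ lv (v t').y + l * f * (v t').m + W ≤ lv (v t).y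
  vm : (v n).m = 0
  vtw : (v n).tw = none
  P1 : ∀ t ≤ n, a t * fr S (s (QuotientGroup.mk (v t).y)) (lv (v t).y) = (v t).y
  P2 : ∀ t ≤ n, (s (QuotientGroup.mk (v t).y) (lv (v t).y - 1)).2 = (v t).j
  P3 : ∀ t ≤ n, ∀ k < l * f * (v t).m, s (QuotientGroup.mk (v t).y) (lv (v t).y + k) = r k
  P4 : ∀ t ≤ n, ∀ τ, (v t).tw = some τ → s (QuotientGroup.mk (v t).y) (lv (v t).y + l * f * (v t).m) = flt τ
  P5 : ∀ ξ, fr S (s ξ) L = g

variable {S : Lets G} {Γ T : Subgroup G} {L : ℕ} {lv : G → ℕ} {l : ℕ} {r : ℕ → Lt} {lam : G} {f n : ℕ} {v : ℕ → Vst G}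
  {s : G ⧸ T → ℕ → Lt} {a : ℕ → G} {W : ℕ} {g : G}

theorem flt_flt (x : Lt) : flt (flt x) = x := by
  obtain ⟨i, j⟩ := x
  show (!(!i), j) = (i, j)
  rw [Bool.not_not]

omit [Group G] in
theorem NN_le (l f : ℕ) (v : Vst G) : NN l f v ≤ l * f * v.m + 1 := by
  unfold NN
  have : v.tw.toList.length ≤ 1 := by cases v.tw <;> simp
  omega

theorem hvv_zero (S : Lets G) (l f : ℕ) (r : ℕ → Lt) (v : Vst G) : hvv S l f r v 0 = v.y := by
  unfold hvv; rw [fr_zero, mul_one]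

theorem hvv_succ (S : Lets G) (l f : ℕ) (r : ℕ → Lt) (v : Vst G) (i : ℕ) :
    hvv S l f r v (i + 1) = hvv S l f r v i * S.sv (hlt l f r v i) := by
  unfold hvv; rw [fr_succ, mul_assoc]

theorem hvv_T (hc : Circ S Γ T L lv) (v : Vst G) (i : ℕ) : v.y⁻¹ * hvv S l f r v i ∈ T := by
  unfold hvv; rw [inv_mul_cancel_left]; exact fr_mem hc _ _

theorem hvv_mk (hc : Circ S Γ T L lv) (v : Vst G) (i : ℕ) :
    (QuotientGroup.mk (hvv S l f r v i) : G ⧸ T) = QuotientGroup.mk v.y :=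
  (QuotientGroup.eq.2 (hvv_T hc v i)).symm

theorem hvv_run (hr : Run S T l r lam) (v : Vst G) : hvv S l f r v (l * f * v.m) = v.y * lam ^ (f * v.m) := by
  unfold hvv
  rw [fr_congr (s' := fun n => flt (r n)) fun i hi => by unfold hlt; rw [if_pos hi], mul_assoc l, fr_run' hr]

/-- The last hole vertex is the exit. -/
theorem hvv_out (hr : Run S T l r lam) (v : Vst G) : hvv S l f r v (NN l f v) = v.out S (lam ^ f) := by
  unfold NN Vst.out
  rcases h : v.tw with _ | τ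
  · show hvv S l f r v (l * f * v.m + 0) = _ * _ * 1
    rw [add_zero, hvv_run hr, ← pow_mul, mul_one]
  · show hvv S l f r v (l * f * v.m + 1) = _ * _ * S.sv τ
    rw [hvv_succ, hvv_run hr, ← pow_mul]
    have h1 : hlt l f r v (l * f * v.m) = τ := by
      unfold hlt
      rw [if_neg (lt_irrefl _), h, Option.getD_some]
    rw [h1]

theorem sv_ne (hc : Circ S Γ T L lv) (x : Lt) : S.sv x ≠ S.sv (flt x) := by
  intro h
  have h1 : S.al x.1 * (S.be x.2)⁻¹ = S.al (!x.1) * (S.be x.2)⁻¹ := h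
  have h2 := mul_right_cancel h1
  have h3 := hc.ne
  rcases x with ⟨_ | _, j⟩
  · exact h3 h2
  · exact h3 h2.symm

namespace Ctx

variable (H : Ctx S Γ T L lv l r lam f n v s a W g)

include H

theorem aΓ {t : ℕ} (ht : t ≤ n) : a t ∈ Γ := by
  have h1 := Γ.mul_mem (H.yΓ t ht) (Γ.inv_mem (H.hc.le (H.aT t ht)))
  rwa [mul_inv_rev, inv_inv, mul_inv_cancel_left] at h1

theorem amk {t : ℕ} (ht : t ≤ n) : (QuotientGroup.mk (a t) : G ⧸ T) = QuotientGroup.mk (v t).y :=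
  QuotientGroup.eq.2 (H.aT t ht)

theorem hvvΓ {t : ℕ} (ht : t ≤ n) (i : ℕ) : hvv S l f r (v t) i ∈ Γ :=
  (lv_fr H.hc _ (H.yΓ t ht) i).1

theorem bd {t : ℕ} (ht : t ≤ n) : lv (v t).y + NN l f (v t) < L := by
  have h1 := H.high t ht
  have h2 := NN_le l f (v t)
  have h3 := H.Wpos
  omega

theorem hvv_lv {t : ℕ} (ht : t ≤ n) {i : ℕ} (hi : i ≤ NN l f (v t)) : lv (hvv S l f r (v t) i) = lv (v t).y + i := by
  have h1 := H.bd ht
  unfold hvv
  rw [(lv_fr H.hc _ (H.yΓ t ht) i).2, Nat.mod_eq_of_lt (by omega)]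

/-- The zones of one coset are disjoint. -/
theorem zone {t t' : ℕ} (ht : t ≤ n) (ht' : t' ≤ n)
    (h : (QuotientGroup.mk (v t).y : G ⧸ T) = QuotientGroup.mk (v t').y) (hne : t ≠ t') :
    lv (v t).y + NN l f (v t) + 1 ≤ lv (v t').y ∨ lv (v t').y + NN l f (v t') + 1 ≤ lv (v t).y := by
  have h2 := NN_le l f (v t)
  have h3 := NN_le l f (v t')
  have h4 := H.Wpos
  rcases H.sep t ht t' ht' hne (QuotientGroup.eq.1 h) with h1 | h1
  · left; omega
  · right; omega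

theorem hvv_inj {t t' i i' : ℕ} (ht : t ≤ n) (ht' : t' ≤ n) (hi : i ≤ NN l f (v t)) (hi' : i' ≤ NN l f (v t'))
    (h : hvv S l f r (v t) i = hvv S l f r (v t') i') : t = t' ∧ i = i' := by
  have h1 := hvv_mk (l := l) (f := f) (r := r) H.hc (v t) i
  have h2 := hvv_mk (l := l) (f := f) (r := r) H.hc (v t') i'
  have h3 := H.hvv_lv ht hi
  have h4 := H.hvv_lv ht' hi'
  rw [h] at h1 h3
  by_cases htt : t = t'
  · subst htt; exact ⟨rfl, by omega⟩
  · rcases H.zone ht ht' (h1.symm.trans h2) htt with h5 | h5 <;> omega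

/-- A hole vertex in the zone of the visit `t` belongs to this visit. -/
theorem hit {t t' i' : ℕ} (ht : t ≤ n) (ht' : t' ≤ n) (hi' : i' ≤ NN l f (v t')) {x : G} (h : hvv S l f r (v t') i' = x)
    (hx : (QuotientGroup.mk x : G ⧸ T) = QuotientGroup.mk (v t).y) (h1 : lv (v t).y ≤ lv x)
    (h2 : lv x ≤ lv (v t).y + NN l f (v t)) : t' = t ∧ i' = lv x - lv (v t).y := by
  have h3 := hvv_mk (l := l) (f := f) (r := r) H.hc (v t') i'
  have h4 := H.hvv_lv ht' hi'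
  rw [h] at h3 h4
  by_cases htt : t' = t
  · subst htt; exact ⟨rfl, by omega⟩
  · rcases H.zone ht' ht (h3.symm.trans hx) htt with h5 | h5 <;> omega

/-- The letters of the sea in the zone. -/
theorem sea {t k : ℕ} (ht : t ≤ n) (hk : k < NN l f (v t)) :
    s (QuotientGroup.mk (v t).y) (lv (v t).y + k) = flt (hlt l f r (v t) k) := by
  unfold hlt
  split_ifs with h1
  · rw [H.P3 t ht k h1, flt_flt]
  · have h2 := NN_le l f (v t)
    have h3 : k = l * f * (v t).m := by omega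
    rcases h4 : (v t).tw with _ | τ
    · unfold NN at hk
      rw [h4] at hk
      simp only [Option.toList_none, List.length_nil] at hk
      omega
    · rw [h3, H.P4 t ht τ h4, Option.getD_some]

end Ctx

/-! ### Columns -/

/-- The vertex of the level `k` on the column `w`. -/
def vt (S : Lets G) (s : G ⧸ T → ℕ → Lt) (k : ℕ) (w : Col Γ lv) : G := w.1 * fr S (s (QuotientGroup.mk w.1)) k

section vt

theorem vt_zero (w : Col Γ lv) : vt S s 0 w = w.1 := by unfold vt; rw [fr_zero, mul_one]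

variable (hc : Circ S Γ T L lv)

include hc

theorem vtΓ (k : ℕ) (w : Col Γ lv) : vt S s k w ∈ Γ := (lv_fr hc _ w.2.1 k).1

theorem vt_lv {k : ℕ} (hk : k < L) (w : Col Γ lv) : lv (vt S s k w) = k := by
  unfold vt
  rw [(lv_fr hc _ w.2.1 k).2, w.2.2, zero_add, Nat.mod_eq_of_lt hk]

theorem vt_mk (k : ℕ) (w : Col Γ lv) : (QuotientGroup.mk (vt S s k w) : G ⧸ T) = QuotientGroup.mk w.1 :=
  mk_mul (fr_mem hc _ _)

theorem vt_step {k : ℕ} (hk : k < L) (w : Col Γ lv) : vt S s k w * S.sv (lt' lv s (vt S s k w)) = vt S s (k + 1) w := by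
  unfold lt'
  rw [vt_mk hc, vt_lv hc hk]
  unfold vt
  rw [fr_succ, mul_assoc]

theorem vt_ex {x : G} (hx : x ∈ Γ) : ∃ w : Col Γ lv, vt S s (lv x) w = x ∧ (QuotientGroup.mk w.1 : G ⧸ T) = QuotientGroup.mk x := by
  set F := fr S (s (QuotientGroup.mk x)) (lv x) with hF
  have hFT : F ∈ T := fr_mem hc _ _
  have h1 : x * F⁻¹ ∈ Γ := Γ.mul_mem hx (Γ.inv_mem (hc.le hFT))
  have h2 : (QuotientGroup.mk (x * F⁻¹) : G ⧸ T) = QuotientGroup.mk x := mk_mul (T.inv_mem hFT)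
  have h3 := (lv_fr hc (s (QuotientGroup.mk x)) h1 (lv x)).2
  rw [← hF, inv_mul_cancel_right] at h3
  have h4 := hc.lt (x * F⁻¹)
  have h5 := hc.lt x
  have h6 : lv (x * F⁻¹) = 0 := by
    rcases Nat.lt_or_ge (lv (x * F⁻¹) + lv x) L with h7 | h7
    · rw [Nat.mod_eq_of_lt h7] at h3; omega
    · rw [Nat.mod_eq_sub_mod h7, Nat.mod_eq_of_lt (by omega)] at h3; omega
  refine ⟨⟨x * F⁻¹, h1, h6⟩, ?_, h2⟩
  show x * F⁻¹ * fr S (s (QuotientGroup.mk (x * F⁻¹))) (lv x) = x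
  rw [h2, ← hF, inv_mul_cancel_right]

theorem vt_inj {k : ℕ} {w w' : Col Γ lv} (h : vt S s k w = vt S s k w') : w = w' := by
  have h1 : (QuotientGroup.mk w.1 : G ⧸ T) = QuotientGroup.mk w'.1 := by
    rw [← vt_mk (s := s) hc k w, ← vt_mk (s := s) hc k w', h]
  unfold vt at h
  rw [h1] at h
  exact Subtype.ext (mul_right_cancel h)

end vt

end Pool.Agent.Lib.MP_688fd0_co.SQ7.H25
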