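import Mathlib

/-!
Type C2, B1-FULL, row HOLE (helper25): a vertical run of the hole is transparent.

Levels `0, 1, 2, ..`; the plain move of the level `n` is `z ↦ z * s n`. The hole stands at `x n` (level `n`) and goes to
`x n * s' n`. The token `z = x n * s' n * (s n)⁻¹` goes to `x n` and from there to `x n * s n` (15-puzzle). In straight
coordinates (columns) one level is the transposition of the column of the hole and the new column of the hole. If the words
`s`, `s'` are periodic of period `l` and both products are the same central element `lam` then after `l * l!` levels all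
columns are at their old places.
-/

set_option autoImplicit false

namespace Pool.Agent.Lib.MP_688fd0_co.SQ7.H25

variable {Γ : Type*} [Group Γ]

/-- `s 0 * s 1 * ⋯ * s (n - 1)` -/
def pw (s : ℕ → Γ) : ℕ → Γ
  | 0 => 1
  | n + 1 => pw s n * s n

theorem pw_eq_prod (s : ℕ → Γ) (n : ℕ) : pw s n = ((List.range n).map s).prod := by
  induction n with
  | zero => rfl
  | succ n ih => rw [List.range_succ, List.map_append, List.prod_append, ← ih]; simp [pw]

theorem pw_add (s : ℕ → Γ) (m n : ℕ) : pw s (m + n) = pw s m * pw (fun i => s (m + i)) n := by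
  induction n with
  | zero => simp [pw]
  | succ n ih => rw [← add_assoc]; show pw s (m + n) * s (m + n) = _; rw [ih, mul_assoc]; rfl

theorem pw_per {s : ℕ → Γ} {l : ℕ} (hs : ∀ n, s (l + n) = s n) (n : ℕ) : pw s (l + n) = pw s l * pw s n := by
  rw [pw_add]; congr 2; exact funext hs

theorem pw_mul {s : ℕ → Γ} {l : ℕ} (hs : ∀ n, s (l + n) = s n) (m : ℕ) : pw s (l * m) = pw s l ^ m := by
  induction m with
  | zero => simp [pw]
  | succ m ih => rw [Nat.mul_succ, add_comm, pw_per hs, ih, pow_succ']

variable [DecidableEq Γ]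

/-- One level: the hole is at `y`, the plain step is `s`, the hole goes to `y * s'`. -/
def hs (y s s' : Γ) : Equiv.Perm Γ := Equiv.mulRight s * Equiv.swap y (y * s' * s⁻¹)

theorem hs_hole (y s s' : Γ) : hs y s s' y = y * s' := by simp [hs]

theorem hs_nb (y s s' : Γ) : hs y s s' (y * s' * s⁻¹) = y * s := by simp [hs]

theorem hs_ne {y s s' z : Γ} (h : z ≠ y) (h' : z ≠ y * s' * s⁻¹) : hs y s s' z = z * s := by
  simp [hs, Equiv.swap_apply_of_ne_of_ne h h']

/-- The run: the hole starts at `x`. -/
def run (x : Γ) (s s' : ℕ → Γ) : ℕ → Equiv.Perm Γ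
  | 0 => 1
  | n + 1 => hs (x * pw s' n) (s n) (s' n) * run x s s' n

theorem run_hole (x : Γ) (s s' : ℕ → Γ) (n : ℕ) : run x s s' n x = x * pw s' n := by
  induction n with
  | zero => simp [run, pw]
  | succ n ih => rw [run, Equiv.Perm.mul_apply, ih, hs_hole, pw, mul_assoc]

/-- The column of the hole. -/
def col (x : Γ) (s s' : ℕ → Γ) (n : ℕ) : Γ := x * pw s' n * (pw s n)⁻¹

/-- The permutation of the columns. -/
def cp (x : Γ) (s s' : ℕ → Γ) : ℕ → Equiv.Perm Γ
  | 0 => 1
  | n + 1 => Equiv.swap (col x s s' n) (col x s s' (n + 1)) * cp x s s' n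

theorem swap_mulRight (a b g : Γ) :
    Equiv.swap a b * Equiv.mulRight g = Equiv.mulRight g * Equiv.swap (a * g⁻¹) (b * g⁻¹) := by
  have h := Equiv.swap_mul_eq_mul_swap (Equiv.mulRight g) a b
  rw [h]
  congr 2

theorem run_eq (x : Γ) (s s' : ℕ → Γ) (n : ℕ) : run x s s' n = Equiv.mulRight (pw s n) * cp x s s' n := by
  induction n with
  | zero => ext z; simp [run, cp, pw]
  | succ n ih =>
    rw [run, ih, hs, cp, mul_assoc, ← mul_assoc (Equiv.swap _ _) (Equiv.mulRight _), swap_mulRight, mul_assoc,
      ← mul_assoc, ← mul_assoc]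
    have h1 : Equiv.mulRight (s n) * Equiv.mulRight (pw s n) = Equiv.mulRight (pw s (n + 1)) := by
      ext z; simp [pw, mul_assoc]
    rw [h1, mul_assoc]
    congr 3
    simp only [col, pw, mul_inv_rev, mul_assoc]

theorem cp_fix {x : Γ} {s s' : ℕ → Γ} {n : ℕ} {z : Γ} (h : ∀ i ≤ n, z ≠ col x s s' i) : cp x s s' n z = z := by
  induction n with
  | zero => rfl
  | succ n ih =>
    rw [cp, Equiv.Perm.mul_apply, ih fun i hi => h i (by omega)]
    exact Equiv.swap_apply_of_ne_of_ne (h n (by omega)) (h (n + 1) le_rfl)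

section per

variable {x : Γ} {s s' : ℕ → Γ} {l : ℕ} {lam : Γ} (hc : ∀ g, g * lam = lam * g) (hs : ∀ n, s (l + n) = s n)
  (hs' : ∀ n, s' (l + n) = s' n) (h1 : pw s l = lam) (h2 : pw s' l = lam)

include hc hs hs' h1 h2

omit [DecidableEq Γ] in
theorem col_per (n : ℕ) : col x s s' (l + n) = col x s s' n := by
  rw [col, pw_per hs, pw_per hs', h1, h2, col, mul_inv_rev, ← mul_assoc x, hc x]
  have h3 : (pw s n)⁻¹ * lam⁻¹ = lam⁻¹ * (pw s n)⁻¹ := by
    rw [← mul_inv_rev, ← mul_inv_rev, hc]
  rw [h3]
  have h4 : lam * x * pw s' n * (lam⁻¹ * (pw s n)⁻¹) = lam * (x * pw s' n * lam⁻¹) * (pw s n)⁻¹ := by group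
  rw [h4]
  have h5 : lam * (x * pw s' n * lam⁻¹) = x * pw s' n := by
    rw [← mul_assoc, ← hc (x * pw s' n), mul_inv_cancel_right]
  rw [h5]

theorem cp_add (n : ℕ) : cp x s s' (l + n) = cp x s s' n * cp x s s' l := by
  induction n with
  | zero => simp [cp]
  | succ n ih =>
    rw [← add_assoc, cp, ih, col_per hc hs hs' h1 h2, add_assoc, col_per hc hs hs' h1 h2, cp, mul_assoc]

theorem cp_mul (m : ℕ) : cp x s s' (l * m) = cp x s s' l ^ m := by
  induction m with
  | zero => simp [cp]
  | succ m ih => rw [Nat.mul_succ, add_comm, cp_add hc hs hs' h1 h2, ih, pow_succ]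

omit [DecidableEq Γ] in
theorem col_l : col x s s' l = x := by
  have := col_per (x := x) hc hs hs' h1 h2 0
  rw [add_zero] at this
  rw [this]; simp [col, pw]

theorem cp_pow : cp x s s' l ^ l.factorial = 1 := by
  rcases Nat.eq_zero_or_pos l with rfl | hl
  · simp [cp]
  set S : Finset Γ := (Finset.range l).image (col x s s') with hS
  have hfix : ∀ z ∉ S, cp x s s' l z = z := by
    intro z hz
    apply cp_fix
    intro i hi h3
    apply hz
    rcases Nat.lt_or_ge i l with h4 | h4
    · exact Finset.mem_image.2 ⟨i, Finset.mem_range.2 h4, h3.symm⟩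
    · have h5 : i = l := by omega
      subst h5
      have h6 : col x s s' 0 = x := by simp [col, pw]
      rw [col_l hc hs hs' h1 h2, ← h6] at h3
      exact Finset.mem_image.2 ⟨0, Finset.mem_range.2 hl, h3.symm⟩
  have hmem : ∀ z, z ∈ S ↔ cp x s s' l z ∈ S := by
    intro z
    constructor
    · intro hz
      by_contra h3
      have h4 := hfix _ h3
      have h5 := (cp x s s' l).injective h4
      rw [h5] at h3
      exact h3 hz
    · intro hz
      by_contra h3
      rw [hfix z h3] at hz
      exact h3 hz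
  set f : Equiv.Perm {z // z ∈ S} := (cp x s s' l).subtypePerm (fun z => (hmem z).symm) with hf
  have hcard : f ^ l.factorial = 1 := by
    have h3 : orderOf f ∣ Fintype.card (Equiv.Perm {z // z ∈ S}) := orderOf_dvd_card
    rw [Fintype.card_perm] at h3
    have h4 : Fintype.card {z // z ∈ S} ≤ l := by
      rw [Fintype.card_coe]
      exact Finset.card_image_le.trans (by simp)
    exact orderOf_dvd_iff_pow_eq_one.1 (h3.trans (Nat.factorial_dvd_factorial h4))
  have hpow : ∀ (n : ℕ) (z : {z // z ∈ S}), ((f ^ n) z : Γ) = (cp x s s' l ^ n) z := by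
    intro n
    induction n with
    | zero => intro z; rfl
    | succ n ih => intro z; rw [pow_succ, pow_succ, Equiv.Perm.mul_apply, Equiv.Perm.mul_apply, ih]; rfl
  ext z
  rw [Equiv.Perm.one_apply]
  by_cases hz : z ∈ S
  · rw [← hpow _ ⟨z, hz⟩, hcard]; rfl
  · have : ∀ n : ℕ, (cp x s s' l ^ n) z = z := by
      intro n
      induction n with
      | zero => rfl
      | succ n ih => rw [pow_succ, Equiv.Perm.mul_apply, hfix z hz, ih]
    exact this _

/-- After `l * (l! * T)` levels nothing has moved. -/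
theorem run_per (T : ℕ) : run x s s' (l * (l.factorial * T)) = Equiv.mulRight (lam ^ (l.factorial * T)) := by
  rw [run_eq, cp_mul hc hs hs' h1 h2, pow_mul, cp_pow hc hs hs' h1 h2, one_pow, mul_one, pw_mul hs, h1]

/-- The same for a relation between the vertices (darts) `up n z` of the levels. -/
theorem run_rel {D : Type*} {Rel : D → D → Prop} (hr : ∀ d, Rel d d) (ht : ∀ a b c, Rel a b → Rel b c → Rel a c)
    (up : ℕ → Γ → D) (T : ℕ)
    (st : ∀ n, n < l * (l.factorial * T) → ∀ z, z ≠ x * pw s' n → z ≠ x * pw s' n * s' n * (s n)⁻¹ →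
      Rel (up n z) (up (n + 1) (z * s n)))
    (st' : ∀ n, n < l * (l.factorial * T) → x * pw s' n * s' n * (s n)⁻¹ ≠ x * pw s' n →
      Rel (up n (x * pw s' n * s' n * (s n)⁻¹)) (up (n + 1) (x * pw s' n * s n)))
    (z : Γ) (hz : z ≠ x) : Rel (up 0 z) (up (l * (l.factorial * T)) (z * lam ^ (l.factorial * T))) := by
  have key : ∀ n, n ≤ l * (l.factorial * T) → Rel (up 0 z) (up n (run x s s' n z)) := by
    intro n
    induction n with
    | zero => intro _; exact hr _
    | succ n ih =>
      intro hn
      refine ht _ _ _ (ih (by omega)) ?_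
      rw [run, Equiv.Perm.mul_apply]
      have h3 : run x s s' n z ≠ x * pw s' n := by
        rw [← run_hole x s s' n]; exact fun h => hz ((run x s s' n).injective h)
      by_cases h4 : run x s s' n z = x * pw s' n * s' n * (s n)⁻¹
      · rw [h4, hs_nb]
        exact st' n (by omega) (by rw [← h4]; exact h3)
      · rw [hs_ne h3 h4]
        exact st n (by omega) _ h3 h4
  have h5 := key _ le_rfl
  rw [run_per hc hs hs' h1 h2] at h5
  exact h5

end per

end Pool.Agent.Lib.MP_688fd0_co.SQ7.H25
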