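import Pool.Agent.Lib.MP_688fd0_co.SQ7.IfaceG

/-!
Type C2, B1-FULL: the level part `Nv` of the group data.
-/

set_option autoImplicit false

namespace Pool.Agent.Lib.MP_688fd0_co.SQ7.H25

open Pool.Agent.Lib.MP_688fd0_co.OSF Pool.Agent.Lib.MP_688fd0_co.SQ3

section

variable {G : Type} [Group G] [Finite G] {N C : Subgroup G} {eps : G →* ℤˣ} {k P : ℕ}

/-- An element whose order is prime to the index of `N` belongs to `N`. -/
theorem mem_of_cop (h : GN N C eps k P) {x : G} (hx : (orderOf x).Coprime k) : x ∈ N := by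
  obtain ⟨m, hm⟩ := exists_pow_eq_self_of_coprime hx.symm
  rw [← hm]
  exact N.pow_mem (SQD.H24.pow_mem_N h x) m

/-- The cardinal of `V` is `[V : N ⊓ V]` times the cardinal of `N ⊓ V`, and `[V : N ⊓ V]` divides `k`. -/
theorem card_V (h : GN N C eps k P) (V : Subgroup G) :
    ∃ q, q ∣ k ∧ Nat.card V = Nat.card (N ⊓ V : Subgroup G) * q := by
  have hNn := h.Nn
  refine ⟨N.relIndex V, ?_, ?_⟩
  · have := Subgroup.relIndex_dvd_index_of_normal N V
    rwa [h.idx] at this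
  · have h1 := Subgroup.relIndex_mul_relIndex (⊥ : Subgroup G) (N ⊓ V) V bot_le inf_le_right
    rw [Subgroup.relIndex_bot_left, Subgroup.relIndex_bot_left, Subgroup.inf_relIndex_right] at h1
    exact h1.symm

/-- An element of `N` whose order divides `|V|` belongs to `V`. -/
theorem mem_V_of_dvd (h : GN N C eps k P) {V : Subgroup G} {z : G} (hz : z ∈ N) (hd : orderOf z ∣ Nat.card V) :
    z ∈ V := by
  obtain ⟨q, hq, hV⟩ := card_V h V
  have hzN : orderOf z ∣ Nat.card N := by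
    have := orderOf_dvd_natCard (⟨z, hz⟩ : N)
    rwa [Subgroup.orderOf_mk] at this
  have h1 : (orderOf z).Coprime q :=
    Nat.Coprime.coprime_dvd_left hzN (Nat.Coprime.coprime_dvd_right hq h.cop)
  have h2 : orderOf z ∣ Nat.card (N ⊓ V : Subgroup G) := by
    rw [hV] at hd
    exact h1.dvd_of_dvd_mul_right hd
  haveI := h.Nc
  haveI : IsCyclic (N ⊓ V : Subgroup G) := Subgroup.isCyclic_of_le (inf_le_left : N ⊓ V ≤ N)
  obtain ⟨⟨g, hg⟩, hgen⟩ := IsCyclic.exists_generator (α := (N ⊓ V : Subgroup G))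
  have ho : orderOf g = Nat.card (N ⊓ V : Subgroup G) := by
    have h3 := orderOf_eq_card_of_forall_mem_zpowers hgen
    rw [Subgroup.orderOf_mk] at h3
    exact h3
  have h3 := SQ2.H41.mem_zpowers_of_pow N h.Nc (g := g) (x := z) hg.1 hz
    (orderOf_dvd_iff_pow_eq_one.1 (by rw [ho]; exact h2))
  exact (Subgroup.zpowers_le.2 hg.2) h3

/-- A prime of `N` which does not divide `|C|` does not divide the order of the square of a reflection. -/
theorem ndvd_sq (h : GN N C eps k P) {p : ℕ} (hp : p.Prime) (hpN : p ∣ Nat.card N) (hpC : ¬ p ∣ Nat.card C) {b : G}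
    (hb : eps b = -1) : ¬ p ∣ orderOf (b * b) := by
  have hpk := SQD.H24.ndvd_k h hp hpN
  have hp2 : 2 < p := by
    have h1 := (h.big p (Nat.mem_primeFactors.2 ⟨hp, hpN, Nat.card_pos.ne'⟩)).1
    have h2 : 0 < k := by
      rw [← h.idx]; exact Nat.pos_of_ne_zero N.index_ne_zero_of_finite
    omega
  intro hd
  have h1 := (SQD.H24.dvd_orderOf_pow hp hpk (b * b)).2 hd
  set y := (b * b) ^ k with hy
  have hyN : y ∈ N := SQD.H24.pow_mem_N h _
  have h2 := h.act y hyN b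
  have h3 : b * y * b⁻¹ = y := by
    have h4 : Commute b y := by
      rw [hy]
      exact ((Commute.refl b).mul_right (Commute.refl b)).pow_right k
    rw [h4.eq]; group
  rw [h3, hb] at h2
  have h4 : y * y ∈ C := by simpa using h2
  have h5 : orderOf (y * y) ∣ Nat.card C := by
    have := orderOf_dvd_natCard (⟨y * y, h4⟩ : C)
    rwa [Subgroup.orderOf_mk] at this
  have h6 : orderOf y ∣ 2 * orderOf (y * y) := by
    rw [orderOf_dvd_iff_pow_eq_one, pow_mul, pow_two, pow_orderOf_eq_one]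
  rcases (Nat.Prime.dvd_mul hp).1 (h1.trans h6) with h7 | h7
  · have := Nat.le_of_dvd (by norm_num) h7
    omega
  · exact hpC (h7.trans h5)

/-- The elements of `ker eps` whose order is prime to `p`. -/
def Mp (h : GN N C eps k P) {p : ℕ} (hp : p.Prime) (hpN : p ∣ Nat.card N) (hpC : ¬ p ∣ Nat.card C) : Subgroup G where
  carrier := {x | eps x = 1 ∧ ¬ p ∣ orderOf x}
  one_mem' := ⟨map_one _, by rw [orderOf_one]; exact fun h1 => hp.one_lt.ne' (Nat.dvd_one.1 h1)⟩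
  mul_mem' := fun {x y} hx hy =>
    ⟨by rw [map_mul, hx.1, hy.1, mul_one], SQD.H24.ndvd_mul h hp hpN hpC hx.1 hy.1 hx.2 hy.2⟩
  inv_mem' := fun {x} hx => ⟨by rw [map_inv, hx.1, inv_one], by rw [orderOf_inv]; exact hx.2⟩

theorem mem_Mp (h : GN N C eps k P) {p : ℕ} (hp : p.Prime) (hpN : p ∣ Nat.card N) (hpC : ¬ p ∣ Nat.card C) {x : G} :
    x ∈ Mp h hp hpN hpC ↔ eps x = 1 ∧ ¬ p ∣ orderOf x := Iff.rfl

theorem orderOf_conj (x y : G) : orderOf (x * y * x⁻¹) = orderOf y := by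
  have := (MulAut.conj x).orderOf_eq y
  simpa using this

end

section

variable {G : Type} [Group G] {N C : Subgroup G} {eps : G →* ℤˣ} {k P : ℕ} {A : Set G} {S : Lets G} {D : Set G}

theorem Bas.eps_sv (h : Bas N C eps k P A S D) (s : Lt) : eps (S.sv s) = 1 := by
  rw [Lets.sv, map_mul, map_inv, h.neg _ (h.al _), h.neg _ (h.be _)]; decide

/-- The primes of `N` which divide `|V|` divide `|C|`. -/
theorem ndvd_V [Finite G] (h : Bas N C eps k P A S D) {T V : Subgroup G} (hTe : ∀ x ∈ T, eps x = 1)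
    (Vmin : ∀ U : Subgroup G, (∀ x ∈ T, ∀ y ∈ U, x * y * x⁻¹ ∈ U) → (∀ s s', S.sv s * (S.sv s')⁻¹ ∈ U) → V ≤ U)
    {p : ℕ} (hp : p.Prime) (hpN : p ∣ Nat.card N) (hpC : ¬ p ∣ Nat.card C) : ¬ p ∣ Nat.card V := by
  have hV : V ≤ Mp h.gn hp hpN hpC := by
    refine Vmin _ ?_ ?_
    · intro x hx y hy
      rw [mem_Mp] at hy ⊢
      refine ⟨?_, ?_⟩
      · rw [map_mul, map_mul, map_inv, hy.1, hTe x hx]; simp
      · rw [orderOf_conj]; exact hy.2
    · have hal : ∀ i i', S.al i * (S.al i')⁻¹ ∈ Mp h.gn hp hpN hpC := by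
        have h0 : ∀ i i', eps (S.al i * (S.al i')⁻¹) = 1 := fun i i' => by
          rw [map_mul, map_inv, h.neg _ (h.al _), h.neg _ (h.al _)]; decide
        have h1 : S.al false * (S.al true)⁻¹ ∈ Mp h.gn hp hpN hpC :=
          ⟨h0 _ _, h.sim p (Nat.mem_primeFactors.2 ⟨hp, hpN, Nat.card_pos.ne'⟩) hpC⟩
        intro i i'
        cases i <;> cases i'
        · rw [mul_inv_cancel]; exact Subgroup.one_mem _
        · exact h1
        · have e : S.al true * (S.al false)⁻¹ = (S.al false * (S.al true)⁻¹)⁻¹ := by group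
          rw [e]; exact Subgroup.inv_mem _ h1
        · rw [mul_inv_cancel]; exact Subgroup.one_mem _
      have hbe : ∀ j j', (S.be j)⁻¹ * S.be j' ∈ Mp h.gn hp hpN hpC := by
        have hb2 : S.be false * S.be false ∈ Mp h.gn hp hpN hpC :=
          ⟨by rw [map_mul, h.neg _ (h.be _)]; decide, ndvd_sq h.gn hp hpN hpC (h.neg _ (h.be _))⟩
        intro j j'
        cases j <;> cases j'
        · rw [inv_mul_cancel]; exact Subgroup.one_mem _
        · have e : (S.be false)⁻¹ * S.be true = (S.be false * S.be false)⁻¹ := by rw [h.be_inv]; group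
          rw [e]; exact Subgroup.inv_mem _ hb2
        · have e : (S.be true)⁻¹ * S.be false = S.be false * S.be false := by rw [h.be_inv]; group
          rw [e]; exact hb2
        · rw [inv_mul_cancel]; exact Subgroup.one_mem _
      intro s s'
      have e : S.sv s * (S.sv s')⁻¹ =
          (S.al s.1 * ((S.be s.2)⁻¹ * S.be s'.2) * (S.al s.1)⁻¹) * (S.al s.1 * (S.al s'.1)⁻¹) := by
        rw [Lets.sv, Lets.sv]; group
      rw [e]
      refine Subgroup.mul_mem _ ?_ (hal _ _)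
      have h1 := hbe s.2 s'.2
      rw [mem_Mp] at h1 ⊢
      refine ⟨?_, ?_⟩
      · rw [map_mul, map_mul, map_inv, h1.1, mul_one, mul_inv_cancel]
      · rw [orderOf_conj]; exact h1.2
  intro hd
  haveI : Fact p.Prime := ⟨hp⟩
  obtain ⟨x, hx⟩ := exists_prime_orderOf_dvd_card' (G := V) p hd
  have h1 := (hV x.2).2
  rw [Subgroup.orderOf_coe, hx] at h1
  exact h1 dvd_rfl

/-- The level part. -/
theorem nvd [Finite G] (h : Bas N C eps k P A S D) {T V : Subgroup G}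
    (hT : ∀ x, x ∈ T ↔ x ∈ Subgroup.closure (Set.range S.al ∪ Set.range S.be) ∧ eps x = 1)
    (Tcl : T = Subgroup.closure (Set.range S.sv))
    (Vn : ∀ x ∈ T, ∀ y ∈ V, x * y * x⁻¹ ∈ V)
    (Vs : ∀ s s', S.sv s * (S.sv s')⁻¹ ∈ V)
    (Vmin : ∀ U : Subgroup G, (∀ x ∈ T, ∀ y ∈ U, x * y * x⁻¹ ∈ U) → (∀ s s', S.sv s * (S.sv s')⁻¹ ∈ U) → V ≤ U) :
    ∃ Nv : Subgroup G, (∀ x, x ∈ Nv ↔ x ∈ N ∧ x ∈ T ∧ (orderOf x).Coprime (Nat.card V)) ∧
      (∀ x ∈ T, ∀ y ∈ Nv, x * y = y * x) ∧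
      (∀ x ∈ Nv, x ∈ V → x = 1) ∧
      (∀ x ∈ N, x ∈ T → (orderOf x).Coprime (Nat.card C) → x ∈ Nv) ∧
      (∀ x ∈ N, x ∈ T → ∃ y ∈ Nv, ∃ z ∈ N ⊓ V, x = y * z) ∧
      P ∣ Nat.card Nv ∧ Nat.card V ≤ k * Nat.card (N ⊓ V : Subgroup G) := by
  have hcom := SQ2.H41.comm_of_cyclic N h.gn.Nc
  have hTe : ∀ x ∈ T, eps x = 1 := fun x hx => ((hT x).1 hx).2
  have hsvT : ∀ s, S.sv s ∈ T := fun s => by rw [Tcl]; exact Subgroup.subset_closure ⟨s, rfl⟩
  have hNpos : Nat.card N ≠ 0 := Nat.card_pos.ne'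
  -- the commutators of `T` are in `V`
  have hcT : ∀ x ∈ T, ∀ y ∈ T, x * y * x⁻¹ * y⁻¹ ∈ V := by
    -- every element of `T` is a power of `s₀` modulo `V`
    set s₀ := S.sv (false, false) with hs₀
    have hpw : ∀ x ∈ T, ∃ n : ℤ, x * (s₀ ^ n)⁻¹ ∈ V := by
      intro x hx
      rw [Tcl] at hx
      refine Subgroup.closure_induction (p := fun x _ => ∃ n : ℤ, x * (s₀ ^ n)⁻¹ ∈ V) ?_ ?_ ?_ ?_ hx
      · rintro _ ⟨s, rfl⟩
        exact ⟨1, by rw [zpow_one]; exact Vs s (false, false)⟩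
      · exact ⟨0, by simp⟩
      · rintro a b _ _ ⟨n, hn⟩ ⟨m, hm⟩
        refine ⟨n + m, ?_⟩
        have e : a * b * (s₀ ^ (n + m))⁻¹ = (a * (s₀ ^ n)⁻¹) * ((s₀ ^ n) * (b * (s₀ ^ m)⁻¹) * (s₀ ^ n)⁻¹) := by
          rw [zpow_add]; group
        rw [e]
        exact V.mul_mem hn (Vn _ (T.zpow_mem (hsvT _) n) _ hm)
      · rintro a _ ⟨n, hn⟩
        refine ⟨-n, ?_⟩
        have e2 : a⁻¹ * (s₀ ^ (-n))⁻¹ = (s₀ ^ (-n)) * (s₀ ^ n * a⁻¹) * (s₀ ^ (-n))⁻¹ := by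
          rw [zpow_neg]; group
        rw [e2]
        have e3 : s₀ ^ n * a⁻¹ = (a * (s₀ ^ n)⁻¹)⁻¹ := by group
        rw [e3]
        exact Vn _ (T.zpow_mem (hsvT _) _) _ (V.inv_mem hn)
    intro x hx y hy
    obtain ⟨n, hn⟩ := hpw x hx
    obtain ⟨m, hm⟩ := hpw y hy
    set u := x * (s₀ ^ n)⁻¹ with hu
    set w := y * (s₀ ^ m)⁻¹ with hw
    have hx' : x = u * s₀ ^ n := by rw [hu]; group
    have hy' : y = w * s₀ ^ m := by rw [hw]; group
    have hsn : s₀ ^ n ∈ T := T.zpow_mem (hsvT _) n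
    have hsm : s₀ ^ m ∈ T := T.zpow_mem (hsvT _) m
    have e : x * y * x⁻¹ * y⁻¹ = u * (s₀ ^ n * w * (s₀ ^ n)⁻¹) * (s₀ ^ m * u⁻¹ * (s₀ ^ m)⁻¹) * w⁻¹ := by
      rw [hx', hy']
      have hc : s₀ ^ n * s₀ ^ m = s₀ ^ m * s₀ ^ n := by rw [← zpow_add, ← zpow_add, add_comm]
      have hc' : (s₀ ^ n)⁻¹ * s₀ ^ m = s₀ ^ m * (s₀ ^ n)⁻¹ := by
        rw [← zpow_neg, ← zpow_add, ← zpow_add, add_comm]
      calc u * s₀ ^ n * (w * s₀ ^ m) * (u * s₀ ^ n)⁻¹ * (w * s₀ ^ m)⁻¹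
          = u * s₀ ^ n * w * (s₀ ^ m * (s₀ ^ n)⁻¹) * u⁻¹ * (s₀ ^ m)⁻¹ * w⁻¹ := by group
        _ = u * s₀ ^ n * w * ((s₀ ^ n)⁻¹ * s₀ ^ m) * u⁻¹ * (s₀ ^ m)⁻¹ * w⁻¹ := by rw [hc']
        _ = _ := by group
    rw [e]
    exact V.mul_mem (V.mul_mem (V.mul_mem hn (Vn _ hsn _ hm)) (Vn _ hsm _ (V.inv_mem hn))) (V.inv_mem hm)
  let Nv : Subgroup G :=
    { carrier := {x | x ∈ N ∧ x ∈ T ∧ (orderOf x).Coprime (Nat.card V)}
      one_mem' := ⟨N.one_mem, T.one_mem, by rw [orderOf_one]; exact Nat.coprime_one_left _⟩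
      mul_mem' := fun {x y} hx hy => ⟨N.mul_mem hx.1 hy.1, T.mul_mem hx.2.1 hy.2.1, by
        have h1 : Commute x y := hcom x hx.1 y hy.1
        exact Nat.Coprime.coprime_dvd_left h1.orderOf_mul_dvd_mul_orderOf (Nat.Coprime.mul_left hx.2.2 hy.2.2)⟩
      inv_mem' := fun {x} hx => ⟨N.inv_mem hx.1, T.inv_mem hx.2.1, by rw [orderOf_inv]; exact hx.2.2⟩ }
  have hNv : ∀ x, x ∈ Nv ↔ x ∈ N ∧ x ∈ T ∧ (orderOf x).Coprime (Nat.card V) := fun x => Iff.rfl
  have hNvV : ∀ x ∈ Nv, x ∈ V → x = 1 := by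
    intro x hx hxV
    have h1 : orderOf x ∣ Nat.card V := by
      have := orderOf_dvd_natCard (⟨x, hxV⟩ : V)
      rwa [Subgroup.orderOf_mk] at this
    have h2 := Nat.Coprime.eq_one_of_dvd ((hNv x).1 hx).2.2 h1
    exact orderOf_eq_one_iff.1 h2
  have hNvC : ∀ x ∈ N, x ∈ T → (orderOf x).Coprime (Nat.card C) → x ∈ Nv := by
    intro x hx hxT hxC
    refine ⟨hx, hxT, ?_⟩
    rw [Nat.coprime_iff_gcd_eq_one]
    by_contra hne
    obtain ⟨p, hp, hpd⟩ := Nat.exists_prime_and_dvd hne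
    have hp1 := hpd.trans (Nat.gcd_dvd_left _ _)
    have hp2 := hpd.trans (Nat.gcd_dvd_right _ _)
    have hxN : orderOf x ∣ Nat.card N := by
      have := orderOf_dvd_natCard (⟨x, hx⟩ : N)
      rwa [Subgroup.orderOf_mk] at this
    have hpC : ¬ p ∣ Nat.card C := fun h3 => by
      have := Nat.dvd_gcd hp1 h3
      rw [Nat.coprime_iff_gcd_eq_one.1 hxC] at this
      exact hp.one_lt.ne' (Nat.dvd_one.1 this)
    exact ndvd_V h hTe Vmin hp (hp1.trans hxN) hpC hp2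
  refine ⟨Nv, hNv, ?_, hNvV, hNvC, ?_, ?_, ?_⟩
  · -- central
    intro x hx y hy
    have h1 := ((hNv y).1 hy)
    have h2 : x * y * x⁻¹ * y⁻¹ ∈ V := hcT x hx y h1.2.1
    have h3 : x * y * x⁻¹ ∈ N := h.gn.Nn.conj_mem y h1.1 x
    have h4 : x * y * x⁻¹ ∈ Nv := by
      refine ⟨h3, T.mul_mem (T.mul_mem hx h1.2.1) (T.inv_mem hx), ?_⟩
      rw [orderOf_conj]; exact h1.2.2
    have h5 := hNvV _ (Nv.mul_mem h4 (Nv.inv_mem hy)) h2
    have h6 : x * y * x⁻¹ = y := mul_inv_eq_one.1 h5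
    calc x * y = (x * y * x⁻¹) * x := by group
      _ = y * x := by rw [h6]
  · -- decomposition
    intro x hx hxT
    have hxN : orderOf x ∣ Nat.card N := by
      have := orderOf_dvd_natCard (⟨x, hx⟩ : N)
      rwa [Subgroup.orderOf_mk] at this
    have hsq : Squarefree (orderOf x) := h.gn.Nsq.squarefree_of_dvd hxN
    set m := orderOf x with hm
    have hm0 : m ≠ 0 := (orderOf_pos x).ne'
    set d := Nat.gcd m (Nat.card V) with hd
    obtain ⟨e, he⟩ : d ∣ m := Nat.gcd_dvd_left _ _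
    have hde : Nat.Coprime d e := by
      have := hsq
      rw [he] at this
      exact Nat.coprime_of_squarefree_mul this
    have heV : Nat.Coprime e (Nat.card V) := by
      have h1 : Nat.gcd e (Nat.card V) ∣ d := Nat.dvd_gcd ((Nat.gcd_dvd_left _ _).trans ⟨d, by rw [he]; ring⟩) (Nat.gcd_dvd_right _ _)
      have h2 : Nat.gcd e (Nat.card V) ∣ Nat.gcd d e := Nat.dvd_gcd h1 (Nat.gcd_dvd_left _ _)
      rw [Nat.coprime_iff_gcd_eq_one.1 hde] at h2
      exact Nat.dvd_one.1 h2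
    -- Bezout
    have hbez := Nat.gcd_eq_gcd_ab d e
    rw [Nat.coprime_iff_gcd_eq_one.1 hde] at hbez
    set a := Nat.gcdA d e
    set b := Nat.gcdB d e
    refine ⟨x ^ ((d : ℤ) * a), ⟨N.zpow_mem hx _, T.zpow_mem hxT _, ?_⟩, x ^ ((e : ℤ) * b), ?_, ?_⟩
    · have h1 : orderOf (x ^ ((d : ℤ) * a)) ∣ e := by
        rw [orderOf_dvd_iff_pow_eq_one, ← zpow_natCast, ← zpow_mul]
        have e1 : (d : ℤ) * a * (e : ℤ) = ((m : ℕ) : ℤ) * a := by rw [he]; push_cast; ring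
        rw [e1, zpow_mul, zpow_natCast, hm, pow_orderOf_eq_one, one_zpow]
      exact Nat.Coprime.coprime_dvd_left h1 heV
    · refine ⟨N.zpow_mem hx _, mem_V_of_dvd h.gn (N.zpow_mem hx _) ?_⟩
      have h1 : orderOf (x ^ ((e : ℤ) * b)) ∣ d := by
        rw [orderOf_dvd_iff_pow_eq_one, ← zpow_natCast, ← zpow_mul]
        have e1 : (e : ℤ) * b * (d : ℤ) = ((m : ℕ) : ℤ) * b := by rw [he]; push_cast; ring
        rw [e1, zpow_mul, zpow_natCast, hm, pow_orderOf_eq_one, one_zpow]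
      exact h1.trans (Nat.gcd_dvd_right _ _)
    · rw [← zpow_add, ← hbez]; simp
  · -- `P`
    have hPp := h.gn.prime
    haveI : Fact P.Prime := ⟨hPp⟩
    have h1 := h.hgt false false
    set s := S.al false * (S.be false)⁻¹ with hs
    have hsT : s ∈ T := hsvT (false, false)
    obtain ⟨q, hq⟩ := h1
    have hs0 : orderOf s ≠ 0 := (orderOf_pos s).ne'
    have hq0 : q ≠ 0 := by
      rintro rfl
      exact hs0 (by rw [hq]; simp)
    have ho : orderOf (s ^ q) = P := by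
      rw [orderOf_pow_of_dvd hq0 ⟨P, by rw [hq]; ring⟩, hq]
      exact Nat.mul_div_cancel _ (Nat.pos_of_ne_zero hq0)
    have hPk : ¬ P ∣ k := SQD.H24.ndvd_k h.gn hPp h.gn.dvd
    have hN : s ^ q ∈ N := mem_of_cop h.gn (by rw [ho]; exact (Nat.Prime.coprime_iff_not_dvd hPp).2 hPk)
    have hmem : s ^ q ∈ Nv := hNvC _ hN (T.pow_mem hsT q) (by
      rw [ho]; exact (Nat.Prime.coprime_iff_not_dvd hPp).2 h.gn.ndvd)
    have := orderOf_dvd_natCard (⟨_, hmem⟩ : Nv)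
    rwa [Subgroup.orderOf_mk, ho] at this
  · obtain ⟨q, hq, hV⟩ := card_V h.gn V
    have hk0 : 0 < k := by
      rw [← h.gn.idx]; exact Nat.pos_of_ne_zero N.index_ne_zero_of_finite
    rw [hV, mul_comm]
    exact Nat.mul_le_mul_right _ (Nat.le_of_dvd hk0 hq)

end

end Pool.Agent.Lib.MP_688fd0_co.SQ7.H25
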