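import Pool.Agent.Lib.MP_688fd0_co.SQ7.H25.Word

/-!
Type C2, B1-FULL, row PAT (helper25): patterns of one coset with prescribed zones and frames.
-/

set_option autoImplicit false

namespace Pool.Agent.Lib.MP_688fd0_co.SQ7.H25

variable {Λ Y I : Type*} [Group Y]

theorem pw_congr {s s' : ℕ → Y} {n : ℕ} (h : ∀ i < n, s i = s' i) : pw s n = pw s' n := by
  induction n with
  | zero => rfl
  | succ n ih =>
    show pw s n * s n = pw s' n * s' n
    rw [ih fun i hi => h i (by omega), h n (by omega)]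

/-- A pattern continued by a word. -/
theorem exists_ext [Nonempty Λ] (q : Λ → Y) (s' : ℕ → Λ) (M : ℕ) (w : List Λ) : ∃ s : ℕ → Λ, (∀ n < M, s n = s' n) ∧
    (∀ j, ∀ h : j < w.length, s (M + j) = w[j]) ∧
    (∀ n ≤ M, pw (fun i => q (s i)) n = pw (fun i => q (s' i)) n) ∧
    pw (fun i => q (s i)) (M + w.length) = pw (fun i => q (s' i)) M * vl q w := by
  classical
  set s : ℕ → Λ := fun n => if n < M then s' n else
    if h : n - M < w.length then w[n - M] else Classical.arbitrary Λ with hs
  have h1 : ∀ n < M, s n = s' n := fun n hn => if_pos hn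
  have h2 : ∀ j, ∀ h : j < w.length, s (M + j) = w[j] := by
    intro j h
    have h3 : ¬ M + j < M := by omega
    have h4 : M + j - M < w.length := by omega
    rw [hs]
    simp only [if_neg h3, dif_pos h4]
    congr 1
    omega
  have h3 : ∀ n ≤ M, pw (fun i => q (s i)) n = pw (fun i => q (s' i)) n := fun n hn =>
    pw_congr fun i hi => by rw [h1 i (by omega)]
  refine ⟨s, h1, h2, h3, ?_⟩
  have h4 := pw_seg (q := q) h2 w.length le_rfl
  rw [List.take_length, h3 M le_rfl] at h4
  exact h4

/-- PAT. The visits `S` of one coset with the zones `lo i, .., hi i` (far apart), the words `zw i` of the zones and the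
frames `f i` at the bottoms; `g` is the frame at the level `L`. -/
theorem exists_pattern [Nonempty Λ] {q : Λ → Y} {l1 D B B' : ℕ} (H : Wd q l1 D) (S : Finset I) (lo hi : I → ℕ)
    (zw : I → List Λ) (f : I → Y) (hlen : ∀ i ∈ S, (zw i).length = hi i + 1 - lo i) (hlh : ∀ i ∈ S, lo i ≤ hi i)
    (hf : ∀ i ∈ S, Sh q l1 B (f i) (lo i)) (hz : ∀ i ∈ S, Sh q l1 B' (vl q (zw i)) ((hi i : ℤ) + 1 - lo i))
    (h0 : ∀ i ∈ S, (B + B') * D + B + D ≤ lo i)
    (hsep : ∀ i ∈ S, ∀ j ∈ S, i ≠ j → hi i + 1 + ((B + B') * D + B + D) ≤ lo j ∨ hi j + 1 + ((B + B') * D + B + D) ≤ lo i)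
    (L : ℕ) (g : Y) (hg : Sh q l1 B g L) (hL : ∀ i ∈ S, hi i + 1 + ((B + B') * D + B + D) ≤ L)
    (hL0 : (B + B') * D + B + D ≤ L) :
    ∃ s : ℕ → Λ, (∀ i ∈ S, ∀ j, ∀ h : j < (zw i).length, s (lo i + j) = (zw i)[j]) ∧
      (∀ i ∈ S, pw (fun n => q (s n)) (lo i) = f i) ∧ pw (fun n => q (s n)) L = g := by
  classical
  induction hn : S.card generalizing S L g with
  | zero =>
    have hS : S = ∅ := Finset.card_eq_zero.1 hn
    subst hS
    have h1 := Sh.one (q := q) (l1 := l1)
    obtain ⟨w, hw1, hw2⟩ := Sh.between (n := 0) H (by exact_mod_cast h1) hg (by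
      have : 0 * D + B + D ≤ (B + B') * D + B + D := by
        have := Nat.zero_le ((B + B') * D)
        omega
      omega)
    rw [one_mul] at hw2
    obtain ⟨s, -, -, -, h4⟩ := exists_ext q (fun _ => Classical.arbitrary Λ) 0 w
    refine ⟨s, fun i hi => absurd hi (by simp), fun i hi => absurd hi (by simp), ?_⟩
    have h5 : 0 + w.length = L := by omega
    rw [h5, hw2] at h4
    rw [h4]
    show pw _ 0 * g = g
    simp [pw]
  | succ k ih =>
    have hne : S.Nonempty := Finset.card_pos.1 (by omega)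
    obtain ⟨i, hiS, hmax⟩ := Finset.exists_max_image S lo hne
    set S' := S.erase i with hS'
    have hcard : S'.card = k := by rw [hS', Finset.card_erase_of_mem hiS]; omega
    have hsub : ∀ j ∈ S', j ∈ S ∧ j ≠ i := fun j hj => ⟨Finset.mem_of_mem_erase hj, Finset.ne_of_mem_erase hj⟩
    have hbelow : ∀ j ∈ S', hi j + 1 + ((B + B') * D + B + D) ≤ lo i := by
      intro j hj
      obtain ⟨h1, h2⟩ := hsub j hj
      rcases hsep j h1 i hiS h2 with h3 | h3
      · exact h3
      · have h4 := hmax j h1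
        have h5 := hlh i hiS
        omega
    obtain ⟨s', hs1, hs2, hs3⟩ := ih S' (fun j hj => hlen j (hsub j hj).1) (fun j hj => hlh j (hsub j hj).1)
      (fun j hj => hf j (hsub j hj).1) (fun j hj => hz j (hsub j hj).1) (fun j hj => h0 j (hsub j hj).1)
      (fun j hj j' hj' => hsep j (hsub j hj).1 j' (hsub j' hj').1) (lo i) (f i) (hf i hiS) hbelow (h0 i hiS) hcard
    -- the segment above the zone of `i`
    have h1 : Sh q l1 (B + B') (f i * vl q (zw i)) ((hi i + 1 : ℕ) : ℤ) := by
      refine ((hf i hiS).mul (hz i hiS)).congr ?_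
      have : ((hi i + 1 : ℕ) : ℤ) - ((lo i : ℤ) + ((hi i : ℤ) + 1 - lo i)) = 0 := by push_cast; ring
      rw [this]; exact dvd_zero _
    have hLi := hL i hiS
    obtain ⟨w, hw1, hw2⟩ := Sh.between H h1 hg (by omega)
    obtain ⟨s, h3, h4, h5, h6⟩ := exists_ext q s' (lo i) (zw i ++ w)
    have hlh' := hlh i hiS
    have hlen' := hlen i hiS
    have hL2 : lo i + (zw i ++ w).length = L := by
      rw [List.length_append, hlen', hw1]; omega
    refine ⟨s, ?_, ?_, ?_⟩
    · intro j hj m hm
      by_cases hji : j = i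
      · subst hji
        have h7 := h4 m (by rw [List.length_append]; omega)
        rw [h7, List.getElem_append_left hm]
      · have hj' : j ∈ S' := Finset.mem_erase.2 ⟨hji, hj⟩
        have h7 := hbelow j hj'
        have h8 := hlen j hj
        rw [h3 _ (by omega)]
        exact hs1 j hj' m hm
    · intro j hj
      by_cases hji : j = i
      · subst hji
        rw [h5 _ le_rfl, hs3]
      · have hj' : j ∈ S' := Finset.mem_erase.2 ⟨hji, hj⟩
        have h7 := hbelow j hj'
        have h8 := hlh j hj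
        rw [h5 _ (by omega)]
        exact hs2 j hj'
    · rw [hL2] at h6
      rw [h6, hs3, vl_append, ← mul_assoc, hw2]

end Pool.Agent.Lib.MP_688fd0_co.SQ7.H25
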