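import Pool.Agent.Lib.MP_688fd0_co.SQ7.Iface
import Pool.Agent.Lib.MP_688fd0_co.SQ7.H25.Pat

/-!
Type C2, B1-FULL, row COSET (helper25): the pattern of one coset.
-/

set_option autoImplicit false

namespace Pool.Agent.Lib.MP_688fd0_co.SQ7.H25

section

variable {G : Type} [Group G] {S : Lets G} {Γ T : Subgroup G} {L : ℕ} {lv : G → ℕ}

/-- The value of a pattern. -/
def fr (S : Lets G) (s : ℕ → Lt) (n : ℕ) : G := pw (fun i => S.sv (s i)) n

theorem fr_zero (s : ℕ → Lt) : fr S s 0 = 1 := rfl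

theorem fr_succ (s : ℕ → Lt) (n : ℕ) : fr S s (n + 1) = fr S s n * S.sv (s n) := rfl

theorem fr_mem (hc : Circ S Γ T L lv) (s : ℕ → Lt) (n : ℕ) : fr S s n ∈ T := by
  induction n with
  | zero => exact T.one_mem
  | succ n ih => rw [fr_succ]; exact T.mul_mem ih (hc.mem _)

theorem lv_fr (hc : Circ S Γ T L lv) (s : ℕ → Lt) {x : G} (hx : x ∈ Γ) (n : ℕ) :
    x * fr S s n ∈ Γ ∧ lv (x * fr S s n) = (lv x + n) % L := by
  induction n with
  | zero => rw [fr_zero, mul_one, add_zero, Nat.mod_eq_of_lt (hc.lt x)]; exact ⟨hx, rfl⟩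
  | succ n ih =>
    rw [fr_succ, ← mul_assoc]
    refine ⟨Γ.mul_mem ih.1 (hc.le (hc.mem _)), ?_⟩
    rw [hc.step _ ih.1, ih.2, Nat.mod_add_mod, add_assoc]

theorem fr_add (s : ℕ → Lt) (m n : ℕ) : fr S s (m + n) = fr S s m * fr S (fun i => s (m + i)) n := pw_add _ m n

theorem fr_congr {s s' : ℕ → Lt} {n : ℕ} (h : ∀ i < n, s i = s' i) : fr S s n = fr S s' n :=
  pw_congr fun i hi => by rw [h i hi]

/-- The run. -/
theorem fr_run {l : ℕ} {r : ℕ → Lt} {lam : G} (hr : Run S T l r lam) (m : ℕ) : fr S r (l * m) = lam ^ m := by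
  unfold fr
  rw [pw_mul (fun n => by rw [hr.per]), hr.sea]

theorem fr_run' {l : ℕ} {r : ℕ → Lt} {lam : G} (hr : Run S T l r lam) (m : ℕ) :
    fr S (fun n => flt (r n)) (l * m) = lam ^ m := by
  unfold fr
  rw [pw_mul (fun n => by show S.sv (flt (r (l + n))) = S.sv (flt (r n)); rw [hr.per]), hr.hol]

/-- The zone word of a visit, from the level `lv y - 1` on. -/
def zwd (l fa : ℕ) (r : ℕ → Lt) (j : Bool) (m : ℕ) (tw : Option Lt) : List Lt :=
  (false, j) :: ((List.range (l * fa * m)).map r ++ tw.toList.map flt)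

theorem zwd_length (l fa : ℕ) (r : ℕ → Lt) (j : Bool) (m : ℕ) (tw : Option Lt) :
    (zwd l fa r j m tw).length = l * fa * m + tw.toList.length + 1 := by
  unfold zwd
  rw [List.length_cons, List.length_append, List.length_map, List.length_range, List.length_map]

theorem zwd_run {l fa : ℕ} {r : ℕ → Lt} {j : Bool} {m : ℕ} {tw : Option Lt} {n : ℕ} (hn : n < l * fa * m)
    (h : n + 1 < (zwd l fa r j m tw).length) : (zwd l fa r j m tw)[n + 1] = r n := by
  simp only [zwd, List.getElem_cons_succ]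
  rw [List.getElem_append_left (by rw [List.length_map, List.length_range]; exact hn), List.getElem_map,
    List.getElem_range]

theorem zwd_tw {l fa : ℕ} {r : ℕ → Lt} {j : Bool} {m : ℕ} {tw : Option Lt} {τ : Lt} (hτ : tw = some τ)
    (h : l * fa * m + 1 < (zwd l fa r j m tw).length) : (zwd l fa r j m tw)[l * fa * m + 1] = flt τ := by
  subst hτ
  simp only [zwd, List.getElem_cons_succ]
  rw [List.getElem_append_right (by rw [List.length_map, List.length_range])]
  simp only [List.length_map, List.length_range, Option.toList_some, List.map_cons, List.map_nil, Nat.sub_self,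
    List.getElem_cons_zero]

/-- **Patterns.** -/
theorem exists_pats {Nv : Subgroup G} {l₁ B D W l fa : ℕ} {r : ℕ → Lt} {lam g : G} (hw : Wrd S Γ T L lv Nv l₁ D)
    (hr : Run S T l r lam) (hlam : lam ^ fa ∈ Nv) (hl : l₁ ∣ l * fa) {I : Type} (J : Finset I) (y a : I → G) (j : I → Bool)
    (m : I → ℕ) (tw : I → Option Lt) (hyΓ : ∀ i ∈ J, y i ∈ Γ) (haT : ∀ i ∈ J, (a i)⁻¹ * y i ∈ T)
    (ha0 : ∀ i ∈ J, lv (a i) = 0)
    (hword : ∀ i ∈ J, ∃ w : List Lt, w.length ≤ B ∧ w.length ≡ lv (y i) [MOD l₁] ∧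
      ((w.map S.sv).prod)⁻¹ * ((a i)⁻¹ * y i) ∈ Nv)
    (hgT : g ∈ T) (x₀ : G) (hx₀ : x₀ ∈ Γ) (hx₀' : lv x₀ = 0) (hx₀g : lv (x₀ * g) = 0)
    (hg : ∃ w : List Lt, w.length ≤ B ∧ w.length ≡ L [MOD l₁] ∧ ((w.map S.sv).prod)⁻¹ * g ∈ Nv)
    (hW : (B + D + 2) * D + (B + D) + D + 2 ≤ W) (hWL : W ≤ L)
    (hlow : ∀ i ∈ J, W ≤ lv (y i)) (hhigh : ∀ i ∈ J, lv (y i) + l * fa * m i + W ≤ L)
    (hsep : ∀ i ∈ J, ∀ i' ∈ J, i ≠ i' → lv (y i) + l * fa * m i + W ≤ lv (y i') ∨
      lv (y i') + l * fa * m i' + W ≤ lv (y i)) :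
    ∃ s : ℕ → Lt, fr S s L = g ∧ ∀ i ∈ J, a i * fr S s (lv (y i)) = y i ∧ (s (lv (y i) - 1)).2 = j i ∧
      (∀ n < l * fa * m i, s (lv (y i) + n) = r n) ∧
      ∀ τ, tw i = some τ → s (lv (y i) + l * fa * m i) = flt τ := by
  classical
  have hc := hw.circ
  have hnorm : (Nv.subgroupOf T).Normal := by
    refine ⟨fun x hx t => ?_⟩
    have h1 : (t : G) * (x : G) = x * t := hw.cen t t.2 x hx
    have h2 : t * x * t⁻¹ = x := Subtype.ext (by
      show (t : G) * x * (t : G)⁻¹ = x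
      rw [h1, mul_inv_cancel_right])
    rw [h2]; exact hx
  set π : ↥T →* (↥T ⧸ Nv.subgroupOf T) := QuotientGroup.mk' _ with hπ
  set qT : Lt → ↥T := fun s => ⟨S.sv s, hc.mem s⟩ with hqT
  set q : Lt → (↥T ⧸ Nv.subgroupOf T) := fun s => π (qT s) with hq
  -- values
  have hvT : ∀ w : List Lt, (((w.map qT).prod : ↥T) : G) = (w.map S.sv).prod := by
    intro w
    induction w with
    | nil => rfl
    | cons s w ih => rw [List.map_cons, List.prod_cons, List.map_cons, List.prod_cons, ← ih]; rfl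
  have hvq : ∀ w : List Lt, vl q w = π (w.map qT).prod := by
    intro w
    unfold vl
    rw [map_list_prod, List.map_map]
    rfl
  have hpT : ∀ (s : ℕ → Lt) (n : ℕ), ((pw (fun i => qT (s i)) n : ↥T) : G) = fr S s n := by
    intro s n
    induction n with
    | zero => rfl
    | succ n ih =>
      show ((pw (fun i => qT (s i)) n * qT (s n) : ↥T) : G) = _
      rw [fr_succ, ← ih]; rfl
  have hpq : ∀ (s : ℕ → Lt) (n : ℕ), pw (fun i => q (s i)) n = π (pw (fun i => qT (s i)) n) := by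
    intro s n
    induction n with
    | zero => exact (map_one π).symm
    | succ n ih =>
      show pw (fun i => q (s i)) n * q (s n) = π (pw (fun i => qT (s i)) n * qT (s n))
      rw [ih, map_mul]
  have hπe : ∀ x y : ↥T, π x = π y ↔ (x : G)⁻¹ * y ∈ Nv := by
    intro x y
    rw [hπ]
    exact QuotientGroup.eq
  -- `Wd`
  have hWd : Wd q l₁ D := by
    refine ⟨fun d hd hdd => ?_, fun s => ?_⟩
    · obtain ⟨w, h1, h2⟩ := hw.cl d hd hdd
      refine ⟨w, h1, ?_⟩
      rw [hvq, ← map_one π, hπe]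
      rw [hvT]
      have := Nv.inv_mem h2
      simpa using this
    · obtain ⟨w, h1, h2, h3⟩ := hw.inv s
      refine ⟨w, h1, h2, ?_⟩
      rw [hvq, hq, ← map_inv, hπe]
      have h4 : (S.sv s * (w.map S.sv).prod)⁻¹ ∈ Nv := Nv.inv_mem h3
      rw [mul_inv_rev] at h4
      rw [hvT]
      exact h4
  -- the frames
  have hsh : ∀ {x : G} (hx : x ∈ T) {N : ℕ}, (∃ w : List Lt, w.length ≤ B ∧ w.length ≡ N [MOD l₁] ∧
      ((w.map S.sv).prod)⁻¹ * x ∈ Nv) → Sh q l₁ B (π ⟨x, hx⟩) N := by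
    intro x hx N h
    obtain ⟨w, h1, h2, h3⟩ := h
    refine ⟨w, h1, ?_, ?_⟩
    · exact (Nat.modEq_iff_dvd.1 h2)
    · rw [hvq, hπe, hvT]
      exact h3
  set aT : I → ↥T := fun i => if h : (a i)⁻¹ * y i ∈ T then ⟨(a i)⁻¹ * y i, h⟩ else 1 with haT'
  have haT2 : ∀ i ∈ J, ((aT i : ↥T) : G) = (a i)⁻¹ * y i := by
    intro i hi
    rw [haT']
    simp only [dif_pos (haT i hi)]
  set f : I → (↥T ⧸ Nv.subgroupOf T) := fun i => π (aT i) * (q (false, j i))⁻¹ with hf
  set lo : I → ℕ := fun i => lv (y i) - 1 with hlo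
  set hi : I → ℕ := fun i => lv (y i) - 1 + (l * fa * m i + (tw i).toList.length) with hhi
  set zw : I → List Lt := fun i => zwd l fa r (j i) (m i) (tw i) with hzw
  have hlow' : ∀ i ∈ J, 2 ≤ lv (y i) := fun i hi => by have := hlow i hi; omega
  have htw : ∀ i, (tw i).toList.length ≤ 1 := fun i => by cases tw i <;> simp
  have hshf : ∀ i ∈ J, Sh q l₁ (B + D) (f i) (lo i) := by
    intro i hiJ
    have h1 : Sh q l₁ B (π (aT i)) (lv (y i)) := by
      have h2 := hsh (haT i hiJ) (hword i hiJ)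
      have h3 : aT i = ⟨(a i)⁻¹ * y i, haT i hiJ⟩ := Subtype.ext (haT2 i hiJ)
      rw [h3]; exact h2
    have h2 := (Sh.letter (q := q) (l1 := l₁) (false, j i)).inv hWd
    have h3 := h1.mul h2
    rw [one_mul] at h3
    refine h3.congr ?_
    have h4 := hlow' i hiJ
    have : ((lo i : ℕ) : ℤ) - ((lv (y i) : ℤ) + -1) = 0 := by
      rw [hlo]; simp only; rw [Nat.cast_sub (by omega)]; push_cast; ring
    rw [this]; exact dvd_zero _
  have hrun1 : ∀ k, pw (fun n => q (r n)) (l * fa * k) = 1 := by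
    intro k
    rw [hpq, ← map_one π]
    rw [hπe, hpT]
    rw [mul_assoc, fr_run hr, pow_mul]
    have := Nv.inv_mem (Nv.pow_mem hlam k)
    simpa using this
  have hmid : ∀ i, vl q ((List.range (l * fa * m i)).map r) = 1 := by
    intro i
    unfold vl
    rw [List.map_map]
    have h1 := pw_eq_prod (fun n => q (r n)) (l * fa * m i)
    have h2 : ((List.range (l * fa * m i)).map (q ∘ r)).prod = pw (fun n => q (r n)) (l * fa * m i) := by
      rw [h1]; rfl
    rw [h2]
    exact hrun1 _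
  have hz : ∀ i ∈ J, Sh q l₁ 2 (vl q (zw i)) ((hi i : ℤ) + 1 - lo i) := by
    intro i hiJ
    refine ⟨(false, j i) :: (tw i).toList.map flt, ?_, ?_, ?_⟩
    · rw [List.length_cons, List.length_map]; have := htw i; omega
    · rw [List.length_cons, List.length_map]
      have h1 : (hi i : ℤ) + 1 - lo i - (((tw i).toList.length + 1 : ℕ) : ℤ) = ((l * fa * m i : ℕ) : ℤ) := by
        rw [hhi, hlo]; simp only; push_cast; ring
      rw [h1]
      exact_mod_cast hl.trans (dvd_mul_right _ _)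
    · rw [hzw]; simp only [zwd]
      rw [vl_cons, vl_cons, vl_append, hmid i, one_mul]
  have hshg : Sh q l₁ (B + D) (π ⟨g, hgT⟩) L := (hsh hgT hg).mono (by omega)
  obtain ⟨s, h1, h2, h3⟩ := exists_pattern (B' := 2) hWd J lo hi zw f
    (fun i _ => by rw [hzw]; simp only; rw [zwd_length, hhi, hlo]; simp only; omega)
    (fun i _ => by rw [hhi, hlo]; simp only; omega) hshf hz
    (fun i hiJ => by rw [hlo]; simp only; have := hlow i hiJ; omega)
    (fun i hiJ i' hiJ' hne => by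
      rw [hhi, hlo]; simp only
      have h4 := htw i
      have h5 := htw i'
      have h6 := hlow i hiJ
      have h7 := hlow i' hiJ'
      rcases hsep i hiJ i' hiJ' hne with h8 | h8
      · left; omega
      · right; omega)
    L (π ⟨g, hgT⟩) hshg
    (fun i hiJ => by
      rw [hhi]; simp only
      have h4 := htw i
      have h5 := hhigh i hiJ
      have h6 := hlow i hiJ
      omega) (by omega)
  refine ⟨s, ?_, fun i hiJ => ?_⟩
  · -- the top
    rw [hpq, hπe, hpT] at h3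
    have h4 := (lv_fr hc s hx₀ L)
    have h5 : lv (x₀ * g * (g⁻¹ * fr S s L)) = lv (x₀ * g) := by
      rw [mul_assoc, mul_inv_cancel_left, h4.2, hx₀', hx₀g, zero_add, Nat.mod_self]
    have h6 : g⁻¹ * fr S s L ∈ Nv := by
      have := Nv.inv_mem h3
      rw [mul_inv_rev, inv_inv] at this
      exact this
    have h7 := hw.one (x₀ * g) (Γ.mul_mem hx₀ (hc.le hgT)) _ h6 h5
    exact (inv_mul_eq_one.1 h7).symm
  · have hlen : (zw i).length = l * fa * m i + (tw i).toList.length + 1 := zwd_length _ _ _ _ _ _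
    have hlo1 : lo i + 1 = lv (y i) := by rw [hlo]; simp only; have := hlow' i hiJ; omega
    have hs0 : s (lo i) = (false, j i) := h1 i hiJ 0 (by omega)
    refine ⟨?_, ?_, ?_, ?_⟩
    · have h4 := h2 i hiJ
      have h5 : π (pw (fun n => qT (s n)) (lv (y i))) = π (aT i) := by
        rw [← hpq, ← hlo1]
        show pw (fun n => q (s n)) (lo i) * q (s (lo i)) = _
        rw [h4, hs0, hf]; simp only; rw [inv_mul_cancel_right]
      rw [hπe, hpT, haT2 i hiJ] at h5
      have haΓ : a i ∈ Γ := by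
        have h6 := Γ.mul_mem (hyΓ i hiJ) (Γ.inv_mem (hc.le (haT i hiJ)))
        rwa [mul_inv_rev, inv_inv, mul_inv_cancel_left] at h6
      have h6 : (y i)⁻¹ * (a i * fr S s (lv (y i))) ∈ Nv := by
        have := Nv.inv_mem h5
        rw [mul_inv_rev, inv_inv, mul_inv_rev, inv_inv, mul_assoc] at this
        exact this
      have h7 := hw.one (y i) (hyΓ i hiJ) _ h6 (by
        rw [mul_inv_cancel_left, (lv_fr hc s haΓ _).2, ha0 i hiJ, zero_add, Nat.mod_eq_of_lt (hc.lt _)])
      exact (inv_mul_eq_one.1 h7).symm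
    · have : lv (y i) - 1 = lo i := rfl
      rw [this, hs0]
    · intro n hn
      have h4 := h1 i hiJ (n + 1) (by omega)
      rw [show lo i + (n + 1) = lv (y i) + n by omega] at h4
      rw [h4]
      exact zwd_run hn _
    · intro τ hτ
      have h4 := h1 i hiJ (l * fa * m i + 1) (by rw [hlen, hτ]; simp)
      rw [show lo i + (l * fa * m i + 1) = lv (y i) + l * fa * m i by omega] at h4
      rw [h4]
      exact zwd_tw hτ _

end

end Pool.Agent.Lib.MP_688fd0_co.SQ7.H25
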