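import Pool.Agent.Lib.MP_688fd0_co.SQ7.H25.Word

/-!
Type C2, B1-FULL, words in a bounded group (helper25): every element of the right class modulo `V` is the value of a word of
length exactly `n` if `n ≥ |Y| (|Y| + 1)`.
-/

set_option autoImplicit false

namespace Pool.Agent.Lib.MP_688fd0_co.SQ7.H25

variable {Λ Y : Type*} [Group Y]

/-- The values of the words of length `n`. -/
def vs (q : Λ → Y) (n : ℕ) : Set Y := {f | ∃ w : List Λ, w.length = n ∧ vl q w = f}

variable {q : Λ → Y}

theorem vs_word {n : ℕ} {f : Y} (h : f ∈ vs q n) (w : List Λ) : f * vl q w ∈ vs q (n + w.length) := by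
  obtain ⟨u, h1, h2⟩ := h
  exact ⟨u ++ w, by rw [List.length_append, h1], by rw [vl_append, h2]⟩

theorem exists_word [Finite Y] (hgen : Subgroup.closure (Set.range q) = ⊤) (y : Y) :
    ∃ w : List Λ, w.length ≤ Nat.card Y ∧ vl q w = y := by
  classical
  have := Fintype.ofFinite Y
  -- the values of the words of length at most `n`
  set T : ℕ → Finset Y := fun n => Finset.univ.filter fun f => ∃ w : List Λ, w.length ≤ n ∧ vl q w = f with hT
  have hmem : ∀ n f, f ∈ T n ↔ ∃ w : List Λ, w.length ≤ n ∧ vl q w = f := by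
    intro n f; rw [hT]; simp
  have hmono : ∀ n, T n ⊆ T (n + 1) := by
    intro n f hf
    rw [hmem] at hf ⊢
    obtain ⟨w, h1, h2⟩ := hf
    exact ⟨w, by omega, h2⟩
  have hstep : ∀ n, T n = T (n + 1) → T (n + 1) = T (n + 2) := by
    intro n h
    refine Finset.Subset.antisymm (hmono _) ?_
    intro f hf
    rw [hmem] at hf
    obtain ⟨w, h1, h2⟩ := hf
    rcases List.eq_nil_or_concat w with rfl | ⟨u, s, rfl⟩
    · rw [hmem]; exact ⟨[], by simp, h2⟩
    · have h3 : vl q u ∈ T (n + 1) := by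
        rw [hmem]; exact ⟨u, by rw [List.concat_eq_append, List.length_append] at h1; simp at h1; omega, rfl⟩
      rw [← h, hmem] at h3
      obtain ⟨u', h4, h5⟩ := h3
      rw [hmem]
      refine ⟨u' ++ [s], by rw [List.length_append]; simp; omega, ?_⟩
      rw [vl_append, h5, ← h2, List.concat_eq_append, vl_append]
  have hcard : ∀ n, T n ≠ T (n + 1) → n + 2 ≤ (T (n + 1)).card := by
    intro n
    induction n with
    | zero =>
      intro h
      have h1 : (T 0).card < (T (0 + 1)).card := Finset.card_lt_card (lt_of_le_of_ne (hmono 0) h)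
      have h2 : 0 < (T 0).card := Finset.card_pos.2 ⟨1, by rw [hmem]; exact ⟨[], by simp, rfl⟩⟩
      omega
    | succ n ih =>
      intro h
      have h0 : T n ≠ T (n + 1) := fun h' => h (hstep n h')
      have h1 : (T (n + 1)).card < (T (n + 1 + 1)).card := Finset.card_lt_card (lt_of_le_of_ne (hmono _) h)
      have := ih h0
      omega
  have hN : T (Nat.card Y) = T (Nat.card Y + 1) := by
    by_contra h
    have h1 := hcard _ h
    have h2 := Finset.card_le_univ (T (Nat.card Y + 1))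
    rw [← Nat.card_eq_fintype_card] at h2
    omega
  have hall : ∀ m, T (Nat.card Y + m) = T (Nat.card Y) := by
    intro m
    induction m with
    | zero => rfl
    | succ m ih =>
      have : ∀ m, T (Nat.card Y + m) = T (Nat.card Y + m + 1) := by
        intro m
        induction m with
        | zero => exact hN
        | succ m ih => exact hstep _ ih
      rw [← add_assoc, ← this m, ih]
  -- a finite monoid is a group
  have hcl : ∀ y : Y, ∃ w : List Λ, vl q w = y := by
    intro y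
    have hy : y ∈ Subgroup.closure (Set.range q) := by rw [hgen]; exact Subgroup.mem_top _
    have hinv : ∀ w : List Λ, ∃ w' : List Λ, vl q w' = (vl q w)⁻¹ := by
      intro w
      have h1 : (vl q w) ^ (Nat.card Y - 1) = (vl q w)⁻¹ := by
        have h2 : (vl q w) ^ (Nat.card Y) = 1 := pow_card_eq_one'
        have h3 : 0 < Nat.card Y := Nat.card_pos
        rw [eq_inv_iff_mul_eq_one, ← pow_succ, Nat.sub_add_cancel h3, h2]
      refine ⟨(List.replicate (Nat.card Y - 1) w).flatten, ?_⟩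
      rw [← h1]
      generalize Nat.card Y - 1 = m
      induction m with
      | zero => simp
      | succ m ih => rw [List.replicate_succ, List.flatten_cons, vl_append, ih, pow_succ']
    induction hy using Subgroup.closure_induction with
    | mem x hx => obtain ⟨s, rfl⟩ := hx; exact ⟨[s], by simp [vl]⟩
    | one => exact ⟨[], rfl⟩
    | mul x y _ _ hx hy =>
      obtain ⟨w, rfl⟩ := hx
      obtain ⟨w', rfl⟩ := hy
      exact ⟨w ++ w', vl_append _ _ _⟩
    | inv x _ hx => obtain ⟨w, rfl⟩ := hx; exact hinv w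
  obtain ⟨w, hw⟩ := hcl y
  have h1 : y ∈ T (Nat.card Y + w.length) := by rw [hmem]; exact ⟨w, by omega, hw⟩
  rw [hall, hmem] at h1
  exact h1

/-- The sets of values are complete classes modulo `V`. -/
theorem prim [Finite Y] (hgen : Subgroup.closure (Set.range q) = ⊤) (s₀ : Λ) (V : Subgroup Y) [V.Normal]
    (hV : V = Subgroup.normalClosure {x | ∃ s s', x = q s * (q s')⁻¹}) (n : ℕ)
    (hn : Nat.card Y * (Nat.card Y + 1) ≤ n) (f : Y) (hf : f * (q s₀ ^ n)⁻¹ ∈ V) :
    ∃ w : List Λ, w.length = n ∧ vl q w = f := by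
  classical
  have := Fintype.ofFinite Y
  set c : ℕ → ℕ := fun n => (vs q n).ncard with hc
  have hfin : ∀ n, (vs q n).Finite := fun n => Set.toFinite _
  have hle : ∀ n (w : List Λ), c n ≤ c (n + w.length) := by
    intro n w
    exact Set.ncard_le_ncard_of_injOn (fun f => f * vl q w) (fun f hf => vs_word hf w)
      (fun a _ b _ h => mul_right_cancel h) (hfin _)
  have hmono : Monotone c := by
    refine monotone_nat_of_le_succ fun n => ?_
    exact hle n [s₀]
  set m := Nat.card Y + 1 with hm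
  -- a stretch of constant size
  obtain ⟨j, hj, hjc⟩ : ∃ j < Nat.card Y, c (j * m) = c ((j + 1) * m) := by
    by_contra hcon
    push Not at hcon
    have h1 : ∀ j ≤ Nat.card Y, j + 1 ≤ c (j * m) := by
      intro j
      induction j with
      | zero =>
        intro _
        have h2 : 0 < (vs q (0 * m)).ncard := by
          rw [Set.ncard_pos]
          exact ⟨1, [], by simp, rfl⟩
        exact h2
      | succ j ih =>
        intro hj
        have h2 := ih (by omega)
        have h3 : c (j * m) ≤ c ((j + 1) * m) := hmono (Nat.mul_le_mul_right m (by omega))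
        have h4 := hcon j (by omega)
        omega
    have h2 := h1 _ le_rfl
    have h3 : c (Nat.card Y * m) ≤ Nat.card Y := by
      rw [hc]
      have := Set.ncard_le_ncard (Set.subset_univ (vs q (Nat.card Y * m))) (Set.toFinite _)
      rwa [Set.ncard_univ] at this
    omega
  set n₀ := j * m with hn₀
  have hn₀n : n₀ ≤ n := by
    have : j * m ≤ Nat.card Y * m := Nat.mul_le_mul_right m (by omega)
    omega
  -- `S · w = S (n₀ + |w|)`
  have hS : ∀ w : List Λ, w.length ≤ m → ∀ g ∈ vs q (n₀ + w.length), g * (vl q w)⁻¹ ∈ vs q n₀ := by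
    intro w hw g hg
    have h1 : (fun f => f * vl q w) '' vs q n₀ ⊆ vs q (n₀ + w.length) := by
      rintro _ ⟨f, hf, rfl⟩; exact vs_word hf w
    have h2 : (vs q (n₀ + w.length)).ncard ≤ ((fun f => f * vl q w) '' vs q n₀).ncard := by
      rw [Set.ncard_image_of_injective _ (mul_left_injective _)]
      have h3 : c (n₀ + w.length) ≤ c ((j + 1) * m) := hmono (by rw [hn₀, add_mul]; omega)
      rw [← hjc] at h3
      exact h3
    have h3 := Set.eq_of_subset_of_ncard_le h1 h2 (hfin _)
    rw [← h3] at hg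
    obtain ⟨f, hf, rfl⟩ := hg
    simpa using hf
  -- the stabiliser
  have hst : ∀ v ∈ V, ∀ g ∈ vs q n₀, g * v ∈ vs q n₀ := by
    have hgenr : ∀ y s s', ∀ g ∈ vs q n₀, g * (y * (q s * (q s')⁻¹) * y⁻¹) ∈ vs q n₀ := by
      intro y s s' g hg
      obtain ⟨u, hu1, hu2⟩ := exists_word hgen y
      have h1 : g * vl q (u ++ [s]) ∈ vs q (n₀ + (u ++ [s']).length) := by
        have := vs_word hg (u ++ [s])
        rw [List.length_append] at this ⊢
        exact this
      have h2 := hS (u ++ [s']) (by rw [List.length_append]; simp; omega) _ h1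
      have h3 : g * (y * (q s * (q s')⁻¹) * y⁻¹) = g * vl q (u ++ [s]) * (vl q (u ++ [s']))⁻¹ := by
        rw [vl_append, vl_append, hu2]
        simp only [vl_cons, vl_nil, mul_one, mul_inv_rev, mul_assoc]
      rw [h3]; exact h2
    -- the right stabiliser of a finite set is a subgroup
    have hsub : ∃ St : Subgroup Y, ∀ v, v ∈ St ↔ ∀ g ∈ vs q n₀, g * v ∈ vs q n₀ := by
      refine ⟨{ carrier := {v | ∀ g ∈ vs q n₀, g * v ∈ vs q n₀}
                mul_mem' := ?_, one_mem' := ?_, inv_mem' := ?_ }, fun v => Iff.rfl⟩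
      · intro a b ha hb g hg
        rw [← mul_assoc]
        exact hb _ (ha g hg)
      · intro g hg; rwa [mul_one]
      · intro a ha g hg
        have h1 : (fun f => f * a) '' vs q n₀ ⊆ vs q n₀ := by
          rintro _ ⟨f, hf, rfl⟩; exact ha f hf
        have h2 : (vs q n₀).ncard ≤ ((fun f => f * a) '' vs q n₀).ncard := by
          rw [Set.ncard_image_of_injective _ (mul_left_injective _)]
        have h3 := Set.eq_of_subset_of_ncard_le h1 h2 (hfin _)
        rw [← h3] at hg
        obtain ⟨f, hf, rfl⟩ := hg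
        simpa using hf
    obtain ⟨St, hSt⟩ := hsub
    have h1 : V ≤ St := by
      rw [hV, Subgroup.normalClosure, Subgroup.closure_le]
      intro x hx
      rw [Group.mem_conjugatesOfSet_iff] at hx
      obtain ⟨a, ⟨s, s', rfl⟩, hx⟩ := hx
      rw [isConj_iff] at hx
      obtain ⟨y, rfl⟩ := hx
      exact (hSt _).2 (hgenr y s s')
    intro v hv
    exact (hSt v).1 (h1 hv)
  -- the end
  have h1 : q s₀ ^ n₀ ∈ vs q n₀ := by
    refine ⟨List.replicate n₀ s₀, by simp, ?_⟩
    simp [vl]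
  have h2 : f * (q s₀ ^ (n - n₀))⁻¹ ∈ vs q n₀ := by
    have h3 : (q s₀ ^ n₀)⁻¹ * (f * (q s₀ ^ (n - n₀))⁻¹) ∈ V := by
      have h4 : (q s₀ ^ n)⁻¹ * f ∈ V := by
        have := Subgroup.Normal.conj_mem ‹V.Normal› _ hf (q s₀ ^ n)⁻¹
        simpa [mul_assoc] using this
      have h5 := Subgroup.Normal.conj_mem ‹V.Normal› _ h4 (q s₀ ^ (n - n₀))
      have h6 : q s₀ ^ (n - n₀) * ((q s₀ ^ n)⁻¹ * f) * (q s₀ ^ (n - n₀))⁻¹ =
          (q s₀ ^ n₀)⁻¹ * (f * (q s₀ ^ (n - n₀))⁻¹) := by
        have h7 : q s₀ ^ n = q s₀ ^ n₀ * q s₀ ^ (n - n₀) := by rw [← pow_add]; congr 1; omega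
        have h8 : q s₀ ^ n = q s₀ ^ (n - n₀) * q s₀ ^ n₀ := by rw [← pow_add]; congr 1; omega
        rw [← mul_assoc, ← mul_assoc]
        congr 2
        rw [h7, mul_inv_rev, ← mul_assoc, mul_inv_cancel, one_mul]
      rwa [h6] at h5
    have h5 := hst _ h3 _ h1
    rwa [mul_inv_cancel_left] at h5
  obtain ⟨w, hw1, hw2⟩ := h2
  refine ⟨w ++ List.replicate (n - n₀) s₀, by rw [List.length_append, hw1]; simp; omega, ?_⟩
  rw [vl_append, hw2]
  have : vl q (List.replicate (n - n₀) s₀) = q s₀ ^ (n - n₀) := by simp [vl]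
  rw [this, inv_mul_cancel_right]

section wd

variable [Finite Y] (hgen : Subgroup.closure (Set.range q) = ⊤) (s₀ : Λ) (V : Subgroup Y) [V.Normal]
  (hV : V = Subgroup.normalClosure {x | ∃ s s', x = q s * (q s')⁻¹}) (δ : ℕ) (hδ : ∀ n : ℕ, q s₀ ^ n ∈ V ↔ δ ∣ n)
  (δ0 : 0 < δ)

include hgen hV hδ δ0

/-- Every element is a short word of the right length. -/
theorem sh_prim (f : Y) (n : ℤ) (h : f * (q s₀ ^ n)⁻¹ ∈ V) :
    Sh q δ (Nat.card Y * (Nat.card Y + 1) + δ) f n := by
  set D := Nat.card Y * (Nat.card Y + 1) with hD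
  have hz : ∀ n : ℤ, (δ : ℤ) ∣ n → q s₀ ^ n ∈ V := by
    intro n hn
    obtain ⟨k, rfl⟩ := hn
    rw [zpow_mul, zpow_natCast]
    exact V.zpow_mem ((hδ δ).2 dvd_rfl) k
  set r := ((n - D) % (δ : ℤ)).toNat with hr
  have h1 : (0 : ℤ) ≤ (n - D) % (δ : ℤ) := Int.emod_nonneg _ (by omega)
  have h2 : (n - D) % (δ : ℤ) < δ := Int.emod_lt_of_pos _ (by exact_mod_cast δ0)
  have h3 : ((D + r : ℕ) : ℤ) = D + (n - D) % (δ : ℤ) := by push_cast; rw [hr, Int.toNat_of_nonneg h1]
  have h4 : (δ : ℤ) ∣ n - ((D + r : ℕ) : ℤ) := by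
    rw [h3]
    have := Int.emod_add_mul_ediv (n - D) δ
    exact ⟨(n - D) / δ, by linarith⟩
  obtain ⟨w, hw1, hw2⟩ := prim hgen s₀ V hV (D + r) (by omega) f (by
    have h5 : f * (q s₀ ^ (D + r))⁻¹ = f * (q s₀ ^ n)⁻¹ * (q s₀ ^ (n - ((D + r : ℕ) : ℤ))) := by
      rw [mul_assoc]
      congr 1
      rw [← zpow_natCast, ← zpow_neg, ← zpow_neg, ← zpow_add]
      congr 1; ring
    rw [h5]
    exact V.mul_mem h (hz _ h4))
  exact ⟨w, by omega, by rw [hw1]; exact h4, hw2⟩

theorem wd_prim : Wd q δ (Nat.card Y * (Nat.card Y + 1) + δ) := by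
  refine ⟨fun d hd hdd => ?_, fun s => ?_⟩
  · obtain ⟨w, h1, h2⟩ := prim hgen s₀ V hV d (by omega) 1 (by rw [one_mul]; exact V.inv_mem ((hδ d).2 hdd))
    exact ⟨w, h1, h2⟩
  · have h0 : q s * (q s₀)⁻¹ ∈ V := by
      rw [hV]; exact Subgroup.subset_normalClosure ⟨s, s₀, rfl⟩
    obtain ⟨w, h1, h2, h3⟩ := sh_prim hgen s₀ V hV δ hδ δ0 (q s)⁻¹ (-1) (by
      rw [zpow_neg_one, inv_inv]
      have := Subgroup.Normal.conj_mem ‹V.Normal› _ (V.inv_mem h0) (q s)⁻¹
      simpa [mul_assoc] using this)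
    refine ⟨w, h1, ?_, h3⟩
    have h4 : (-1 : ℤ) - (w.length : ℤ) = -((w.length + 1 : ℕ) : ℤ) := by push_cast; ring
    rw [h4, dvd_neg] at h2
    exact_mod_cast h2

end wd

end Pool.Agent.Lib.MP_688fd0_co.SQ7.H25
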