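import Pool.Agent.Lib.MP_688fd0_co.SQ7.H25.Pats

/-!
Type C2, B1-FULL, row COSET (helper25): the thread as a cyclic permutation of the hole vertices; the bijection from the even to
the odd vertices and the plain permutation given by the patterns of all cosets.
-/

set_option autoImplicit false

namespace Pool.Agent.Lib.MP_688fd0_co.SQ7.H25

/-! ### The cyclic predecessor -/

/-- The hole vertices: place `i ≤ N t` of the visit `t < n`. -/
abbrev TI (n : ℕ) (N : ℕ → ℕ) := {p : ℕ × ℕ // p.1 < n ∧ p.2 ≤ N p.1}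

/-- The place before `(t, i)`. -/
def pv (n : ℕ) (N : ℕ → ℕ) (p : ℕ × ℕ) : ℕ × ℕ :=
  if 0 < p.2 then (p.1, p.2 - 1) else if 0 < p.1 then (p.1 - 1, N (p.1 - 1)) else (n - 1, N (n - 1))

/-- The place after `(t, i)`. -/
def nv (n : ℕ) (N : ℕ → ℕ) (p : ℕ × ℕ) : ℕ × ℕ :=
  if p.2 < N p.1 then (p.1, p.2 + 1) else if p.1 + 1 < n then (p.1 + 1, 0) else (0, 0)

theorem pv_mem {n : ℕ} {N : ℕ → ℕ} {p : ℕ × ℕ} (h : p.1 < n ∧ p.2 ≤ N p.1) :
    (pv n N p).1 < n ∧ (pv n N p).2 ≤ N (pv n N p).1 := by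
  unfold pv
  split_ifs with h1 h2
  · exact ⟨h.1, by show p.2 - 1 ≤ N p.1; omega⟩
  · exact ⟨by show p.1 - 1 < n; omega, le_rfl⟩
  · exact ⟨by show n - 1 < n; omega, le_rfl⟩

theorem nv_mem {n : ℕ} {N : ℕ → ℕ} {p : ℕ × ℕ} (h : p.1 < n ∧ p.2 ≤ N p.1) :
    (nv n N p).1 < n ∧ (nv n N p).2 ≤ N (nv n N p).1 := by
  unfold nv
  split_ifs with h1 h2
  · exact ⟨h.1, by show p.2 + 1 ≤ N p.1; omega⟩
  · exact ⟨h2, Nat.zero_le _⟩
  · exact ⟨by show 0 < n; omega, Nat.zero_le _⟩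

theorem nv_pv {n : ℕ} {N : ℕ → ℕ} {p : ℕ × ℕ} (h : p.1 < n ∧ p.2 ≤ N p.1) : nv n N (pv n N p) = p := by
  obtain ⟨t, i⟩ := p
  obtain ⟨h0, h0'⟩ := h
  have h0 : t < n := h0
  have h0' : i ≤ N t := h0'
  unfold pv
  split_ifs with h1 h2
  · unfold nv
    have h1 : 0 < i := h1
    rw [if_pos (show i - 1 < N t by omega)]
    show (t, i - 1 + 1) = (t, i)
    rw [Nat.sub_add_cancel h1]
  · unfold nv
    have h1 : ¬ 0 < i := h1
    have h2 : 0 < t := h2
    rw [if_neg (show ¬ N (t - 1) < N (t - 1) by omega), if_pos (show t - 1 + 1 < n by omega)]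
    show (t - 1 + 1, 0) = (t, i)
    rw [Nat.sub_add_cancel h2, show i = 0 by omega]
  · unfold nv
    have h1 : ¬ 0 < i := h1
    have h2 : ¬ 0 < t := h2
    rw [if_neg (show ¬ N (n - 1) < N (n - 1) by omega), if_neg (show ¬ n - 1 + 1 < n by omega)]
    show (0, 0) = (t, i)
    rw [show i = 0 by omega, show t = 0 by omega]

theorem pv_nv {n : ℕ} {N : ℕ → ℕ} {p : ℕ × ℕ} (h : p.1 < n ∧ p.2 ≤ N p.1) : pv n N (nv n N p) = p := by
  obtain ⟨t, i⟩ := p
  obtain ⟨h0, h0'⟩ := h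
  have h0 : t < n := h0
  have h0' : i ≤ N t := h0'
  unfold nv
  split_ifs with h1 h2
  · unfold pv
    rw [if_pos (show 0 < i + 1 by omega)]
    show (t, i + 1 - 1) = (t, i)
    rw [Nat.add_sub_cancel]
  · have h1 : ¬ i < N t := h1
    unfold pv
    rw [if_neg (show ¬ 0 < 0 by omega), if_pos (show 0 < t + 1 by omega)]
    show (t + 1 - 1, N (t + 1 - 1)) = (t, i)
    rw [Nat.add_sub_cancel, show i = N t by omega]
  · have h1 : ¬ i < N t := h1
    have h2 : ¬ t + 1 < n := h2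
    unfold pv
    rw [if_neg (show ¬ 0 < 0 by omega), if_neg (show ¬ 0 < 0 by omega)]
    show (n - 1, N (n - 1)) = (t, i)
    have h3 : n - 1 = t := by omega
    rw [h3, show i = N t by omega]

/-- The cyclic predecessor as a permutation. -/
def pvE (n : ℕ) (N : ℕ → ℕ) : Equiv.Perm (TI n N) where
  toFun p := ⟨pv n N p.1, pv_mem p.2⟩
  invFun p := ⟨nv n N p.1, nv_mem p.2⟩
  left_inv p := Subtype.ext (nv_pv p.2)
  right_inv p := Subtype.ext (pv_nv p.2)

/-! ### The plain permutation -/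

section

variable {G : Type} [Group G] {S : Lets G} {Γ T : Subgroup G} {L : ℕ} {lv : G → ℕ}

/-- The letters at the even vertex `x`. -/
def lt' (lv : G → ℕ) (s : G ⧸ T → ℕ → Lt) (x : G) : Lt := s (QuotientGroup.mk x) (lv x)

theorem mk_mul {x z : G} (hz : z ∈ T) : (QuotientGroup.mk (x * z) : G ⧸ T) = QuotientGroup.mk x :=
  QuotientGroup.mk_mul_of_mem x hz

theorem lev_inj (hc : Circ S Γ T L lv) {x y : G} (hx : x ∈ Γ) (hy : y ∈ Γ) {s s' : Lt}
    (h : x * S.sv s = y * S.sv s') : (QuotientGroup.mk x : G ⧸ T) = QuotientGroup.mk y ∧ lv x = lv y := by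
  have h1 := hc.step x hx s
  have h2 := hc.step y hy s'
  have h3 := congrArg lv h
  rw [h1, h2] at h3
  refine ⟨?_, ?_⟩
  · have h4 := mk_mul (T := T) (x := x) (hc.mem s)
    have h5 := mk_mul (T := T) (x := y) (hc.mem s')
    rw [← h4, h, h5]
  · have h4 := hc.lt x
    have h5 := hc.lt y
    rcases Nat.lt_or_ge (lv x + 1) L with h6 | h6 <;> rcases Nat.lt_or_ge (lv y + 1) L with h7 | h7
    · rw [Nat.mod_eq_of_lt h6, Nat.mod_eq_of_lt h7] at h3; omega
    · have h8 : lv y + 1 = L := by omega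
      rw [Nat.mod_eq_of_lt h6, h8, Nat.mod_self] at h3; omega
    · have h8 : lv x + 1 = L := by omega
      rw [Nat.mod_eq_of_lt h7, h8, Nat.mod_self] at h3; omega
    · omega

variable [Finite G] (hc : Circ S Γ T L lv) (s : G ⧸ T → ℕ → Lt)

/-- One level up. -/
noncomputable def p0 : Equiv.Perm ↥Γ :=
  Equiv.ofBijective (fun x => ⟨x.1 * S.sv (lt' lv s x.1), Γ.mul_mem x.2 (hc.le (hc.mem _))⟩)
    (Finite.injective_iff_bijective.1 (by
      intro x y h
      have h1 : x.1 * S.sv (lt' lv s x.1) = y.1 * S.sv (lt' lv s y.1) := congrArg Subtype.val h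
      obtain ⟨h2, h3⟩ := lev_inj hc x.2 y.2 h1
      have h4 : lt' lv s x.1 = lt' lv s y.1 := by unfold lt'; rw [h2, h3]
      rw [h4] at h1
      exact Subtype.ext (mul_right_cancel h1)))

theorem p0_val (x : ↥Γ) : (p0 hc s x : G) = x.1 * S.sv (lt' lv s x.1) := rfl

include hc in
omit [Finite G] in
theorem al_odd (x : G) (hx : x ∈ Γ) (i : Bool) : x * S.al i ∉ Γ := fun h =>
  hc.odd_al i ((Γ.mul_mem_cancel_left hx).1 h)

/-- From the even to the odd vertices. -/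
noncomputable def mu : ↥Γ ≃ {o : G // o ∉ Γ} :=
  Equiv.ofBijective (fun x => ⟨x.1 * S.al (lt' lv s x.1).1, al_odd hc x.1 x.2 _⟩) (by
    have hinj : Function.Injective (fun x : ↥Γ => (⟨x.1 * S.al (lt' lv s x.1).1, al_odd hc x.1 x.2 _⟩ : {o : G // o ∉ Γ})) := by
      intro x y h
      have h1 : x.1 * S.al (lt' lv s x.1).1 = y.1 * S.al (lt' lv s y.1).1 := congrArg Subtype.val h
      have h2 : x.1 * S.sv ((lt' lv s x.1).1, false) = y.1 * S.sv ((lt' lv s y.1).1, false) := by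
        unfold Lets.sv
        rw [← mul_assoc, ← mul_assoc, h1]
      obtain ⟨h3, h4⟩ := lev_inj hc x.2 y.2 h2
      have h5 : lt' lv s x.1 = lt' lv s y.1 := by unfold lt'; rw [h3, h4]
      rw [h5] at h1
      exact Subtype.ext (mul_right_cancel h1)
    refine ⟨hinj, ?_⟩
    -- the other direction
    let g : {o : G // o ∉ Γ} → ↥Γ := fun o => ⟨o.1 * (S.al false)⁻¹, by
      have h1 := hc.two (o.1)⁻¹ (S.al false)⁻¹ (fun h => o.2 (by simpa using Γ.inv_mem h))
        (fun h => hc.odd_al false (by simpa using Γ.inv_mem h))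
      rwa [inv_inv] at h1⟩
    have hg : Function.Injective g := by
      intro o o' h
      have h1 : o.1 * (S.al false)⁻¹ = o'.1 * (S.al false)⁻¹ := congrArg Subtype.val h
      exact Subtype.ext (mul_right_cancel h1)
    intro o
    have h2 := (Finite.injective_iff_surjective.1 (hg.comp hinj)) (g o)
    obtain ⟨x, hx⟩ := h2
    exact ⟨x, hg hx⟩)

theorem mu_val (x : ↥Γ) : (mu hc s x : G) = x.1 * S.al (lt' lv s x.1).1 := rfl

/-- The permutation of the even vertices with the thread. -/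
noncomputable def phi {n : ℕ} {N : ℕ → ℕ} (hv : TI n N ↪ ↥Γ) : Equiv.Perm ↥Γ := (pvE n N).viaEmbedding hv * p0 hc s

theorem phi_off {n : ℕ} {N : ℕ → ℕ} (hv : TI n N ↪ ↥Γ) {x : ↥Γ} (h : ∀ p, hv p ≠ p0 hc s x) :
    phi hc s hv x = p0 hc s x := by
  show (pvE n N).viaEmbedding hv (p0 hc s x) = _
  exact Equiv.Perm.viaEmbedding_apply_of_notMem _ _ _ fun ⟨p, hp⟩ => h p hp

theorem phi_on {n : ℕ} {N : ℕ → ℕ} (hv : TI n N ↪ ↥Γ) {x : ↥Γ} {p : TI n N} (h : hv p = p0 hc s x) :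
    phi hc s hv x = hv (pvE n N p) := by
  show (pvE n N).viaEmbedding hv (p0 hc s x) = _
  rw [← h]
  exact Equiv.Perm.viaEmbedding_apply _ _ _

end

end Pool.Agent.Lib.MP_688fd0_co.SQ7.H25
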