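import Pool.Agent.Lib.MP_688fd0_co.SQ7.H25.Zth

/-!
Type C2, B1-FULL, row COSET (helper25): the structure `Cos` for a context.
-/

set_option autoImplicit false

namespace Pool.Agent.Lib.MP_688fd0_co.SQ7.H25

open Pool.Agent.Lib.MP_688fd0_co.SQ4.H49 Pool.Agent.Lib.MP_688fd0_co.SQ7.H71

variable {G : Type} [Group G] [Finite G] {S : Lets G} {Γ T : Subgroup G} {L : ℕ} {lv : G → ℕ} {l : ℕ} {r : ℕ → Lt} {lam : G}
  {f n : ℕ} {v : ℕ → Vst G} {s : G ⧸ T → ℕ → Lt} {a : ℕ → G} {W : ℕ} {g : G}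

namespace Ctx

variable (H : Ctx S Γ T L lv l r lam f n v s a W g)

include H

omit [Finite G] in
theorem NN_n : NN l f (v n) = 0 := by
  unfold NN; rw [H.vm, H.vtw]; rfl

omit [Finite G] in
theorem W_n : H.Wc (le_refl n) = H.A (le_refl n) := by
  apply Subtype.ext
  show (v n).w S * a n = a n
  unfold Vst.w
  rw [H.vtw, one_mul]

omit [Finite G] in
theorem W_none {t : ℕ} (ht : t ≤ n) (h : (v t).tw = none) : H.Wc ht = H.A ht := by
  apply Subtype.ext
  show (v t).w S * a t = a t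
  unfold Vst.w
  rw [h, one_mul]

theorem ent {t : ℕ} (ht : t ≤ n) (w : Col Γ lv) (hw : (QuotientGroup.mk w.1 : G ⧸ T) = QuotientGroup.mk (v t).y)
    (hne : t < n → w ≠ H.A ht) : H.R (vt S s (lv (v t).y - 1) w) (vt S s (lv (v t).y) w) := by
  have h1 := H.low t ht
  have h2 := H.Wpos
  have h3 : lv (v t).y - 1 + 1 = lv (v t).y := by omega
  have h4 := H.zs ht (k := lv (v t).y - 1) (by omega) (by omega) w hw fun h5 h6 => by
    rw [h3, Nat.sub_self, hvv_zero] at h6
    exact hne h5 (vt_inj (s := s) H.hc (k := lv (v t).y) (by rw [H.vt_A ht]; exact h6.symm))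
  rwa [h3] at h4

theorem thru {t : ℕ} (ht : t ≤ n) (w : Col Γ lv) (hw : (QuotientGroup.mk w.1 : G ⧸ T) = QuotientGroup.mk (v t).y)
    (hW : w ≠ H.Wc ht) (hA : w ≠ H.A ht) :
    H.R (vt S s (lv (v t).y - 1) w) (vt S s (lv (v t).y + NN l f (v t)) w) := by
  have h0 := H.ent ht w hw fun _ => hA
  rcases Nat.eq_or_lt_of_le ht with rfl | htn
  · rw [H.NN_n, add_zero]; exact h0
  · have h1 := H.R_eqv.trans h0 (H.run htn w hw hA)
    rcases h : (v t).tw with _ | τ
    · have h2 : NN l f (v t) = l * f * (v t).m := by unfold NN; rw [h]; rfl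
      rw [h2]; exact h1
    · have h2 : NN l f (v t) = l * f * (v t).m + 1 := by unfold NN; rw [h]; rfl
      have h3 := H.vt_W ht
      rw [h2, ← add_assoc] at h3 ⊢
      refine H.R_eqv.trans h1 (H.zs ht (by omega) (by omega) w hw fun _ h4 => ?_)
      rw [show lv (v t).y + l * f * (v t).m + 1 - lv (v t).y = l * f * (v t).m + 1 by omega, ← h3] at h4
      exact hW (vt_inj H.hc h4).symm

theorem twist {t : ℕ} (ht : t ≤ n) (hne : H.Wc ht ≠ H.A ht) :
    H.R (vt S s (lv (v t).y - 1) (H.Wc ht)) (vt S s (lv (v t).y + NN l f (v t)) (H.A ht)) := by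
  have h0 := H.ent ht _ (H.W_mk ht) fun _ => hne
  rcases h : (v t).tw with _ | τ
  · exact absurd (H.W_none ht h) hne
  · have htn : t < n := by
      rcases Nat.eq_or_lt_of_le ht with rfl | h1
      · rw [H.vtw] at h; exact absurd h (by simp)
      · exact h1
    have h1 := H.R_eqv.trans h0 (H.run htn _ (H.W_mk ht) hne)
    have h2 : NN l f (v t) = l * f * (v t).m + 1 := by unfold NN; rw [h]; rfl
    have h3 := H.vt_W ht
    rw [h2, ← add_assoc] at h3 ⊢
    have h4 := H.R_eqv.trans h1 (H.zh htn (by omega) _ h3.symm)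
    rw [← H.vt_Am ht] at h4
    refine H.R_eqv.trans h4 (H.zs ht (by omega) (by omega) _ (H.A_mk ht) fun _ h5 => ?_)
    rw [show lv (v t).y + l * f * (v t).m + 1 - lv (v t).y = l * f * (v t).m + 1 by omega, ← h3] at h5
    exact hne (vt_inj H.hc h5)

theorem cov {t : ℕ} (ht : t ≤ n) (d : ℕ) : ∀ (k : ℕ) (w : Col Γ lv), lv (v t).y ≤ k → k + d = lv (v t).y + NN l f (v t) →
    (QuotientGroup.mk w.1 : G ⧸ T) = QuotientGroup.mk (v t).y → ∃ w' : Col Γ lv,
      (QuotientGroup.mk w'.1 : G ⧸ T) = QuotientGroup.mk (v t).y ∧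
        H.R (vt S s k w) (vt S s (lv (v t).y + NN l f (v t)) w') := by
  induction d with
  | zero =>
    intro k w h1 h2 h3
    rw [add_zero] at h2
    exact ⟨w, h3, by rw [h2]; exact H.R_eqv.refl _⟩
  | succ d ih =>
    intro k w h1 h2 h3
    have htn : t < n := by
      rcases Nat.eq_or_lt_of_le ht with rfl | h4
      · rw [H.NN_n] at h2; omega
      · exact h4
    have hbd := H.bd ht
    by_cases h4 : hvv S l f r (v t) (k + 1 - lv (v t).y) = vt S s (k + 1) w
    · obtain ⟨j, rfl⟩ := Nat.exists_eq_add_of_le h1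
      have h5 : lv (v t).y + j + 1 - lv (v t).y = j + 1 := by omega
      rw [h5] at h4
      have h6 := H.zh htn (k := j) (by omega) w h4
      have h7 := H.hvv_lv ht (show j ≤ NN l f (v t) by omega)
      obtain ⟨w1, h8, h9⟩ := vt_ex (s := s) H.hc (H.hvvΓ ht j)
      rw [h7] at h8
      rw [hvv_mk H.hc] at h9
      have h10 := H.zs ht (k := lv (v t).y + j) (by omega) (by omega) w1 h9 fun _ h11 => by
        rw [h5, hvv_succ, ← h8] at h11
        have h12 := vt_step (s := s) H.hc (show lv (v t).y + j < L by omega) w1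
        rw [← h12] at h11
        have h13 := mul_left_cancel h11
        unfold lt' at h13
        rw [vt_mk H.hc, vt_lv H.hc (by omega), h9, H.sea ht (by omega)] at h13
        exact sv_ne H.hc _ h13
      obtain ⟨w', h11, h12⟩ := ih (lv (v t).y + j + 1) w1 (by omega) (by omega) h9
      rw [← h8] at h6
      exact ⟨w', h11, H.R_eqv.trans h6 (H.R_eqv.trans h10 h12)⟩
    · have h5 := H.zs ht (k := k) (by omega) (by omega) w h3 fun _ => h4
      obtain ⟨w', h6, h7⟩ := ih (k + 1) w (by omega) (by omega) h3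
      exact ⟨w', h6, H.R_eqv.trans h5 h7⟩

/-- The end of the strand below the arrival. -/
theorem arr {t : ℕ} (ht : t ≤ n) :
    H.R (vt S s (lv (v t).y - 1) (H.A ht))
      (if t = n then hvv S l f r (v n) (NN l f (v n)) else hvv S l f r (v (bf n t)) (NN l f (v (bf n t)))) := by
  have h1 := H.low t ht
  have h2 := H.Wpos
  have h3 : lv (v t).y - 1 + 1 = lv (v t).y := by omega
  have hbd := H.bd ht
  split_ifs with h
  · subst h
    have h4 := H.ent ht (H.A ht) (H.A_mk ht) fun h5 => absurd h5 (lt_irrefl _)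
    rw [H.vt_A ht] at h4
    rw [H.NN_n, hvv_zero]
    exact h4
  · have htn : t < n := by omega
    refine H.R_ar (vtΓ H.hc _ _) htn ?_
    rw [vt_step H.hc (by omega), h3, H.vt_A ht]

/-! ### The structure `Cos` -/

/-- The column of the exit of the visit number `i` in the order of the levels. -/
noncomputable def xf (σ : ℕ → ℕ) (i : ℕ) : Col Γ lv := if h : σ i ≤ n then H.Wc h else H.Wc (le_refl n)

/-- The column of the arrival. -/
noncomputable def yf (σ : ℕ → ℕ) (i : ℕ) : Col Γ lv := if h : σ i ≤ n then H.A h else H.A (le_refl n)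

/-- The number in the thread. -/
def tf (n : ℕ) (σ : ℕ → ℕ) (i : ℕ) : Fin (n + 1) := if h : σ i ≤ n then ⟨σ i, Nat.lt_succ_of_le h⟩ else Fin.last n

omit [Finite G] H in
theorem tf_val {σ : ℕ → ℕ} {i : ℕ} (h : σ i ≤ n) : (tf n σ i).1 = σ i := by unfold tf; rw [dif_pos h]

theorem cos {σ : ℕ → ℕ} (σlt : ∀ k ≤ n, σ k ≤ n) (σinj : ∀ k ≤ n, ∀ k' ≤ n, σ k = σ k' → k = k')
    (σmon : ∀ k < n, lv (v (σ k)).y ≤ lv (v (σ (k + 1))).y) :
    Cos H.R (fun k w => vt S s k w) (fun w : Col Γ lv => (QuotientGroup.mk w.1 : G ⧸ T)) L (n + 1)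
      (fun i => lv (v (σ i)).y - 1) (fun i => lv (v (σ i)).y + NN l f (v (σ i)) - 1) (H.xf σ) (H.yf σ) (tf n σ) := by
  have hx : ∀ i, ∀ h : σ i ≤ n, H.xf σ i = H.Wc h := fun i h => by unfold xf; rw [dif_pos h]
  have hy : ∀ i, ∀ h : σ i ≤ n, H.yf σ i = H.A h := fun i h => by unfold yf; rw [dif_pos h]
  have hmon : ∀ i j, i ≤ j → j ≤ n → lv (v (σ i)).y ≤ lv (v (σ j)).y := by
    intro i j hij
    induction j, hij using Nat.le_induction with
    | base => intro _; exact le_rfl
    | succ j hij ih => intro hj; exact (ih (by omega)).trans (σmon j (by omega))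
  have hsurj : ∀ t ≤ n, ∃ i ≤ n, σ i = t := by
    intro t ht
    have h1 : Function.Injective (fun i : Fin (n + 1) => (⟨σ i.1, Nat.lt_succ_of_le (σlt i.1 (by omega))⟩ : Fin (n + 1))) := by
      intro i j hij
      exact Fin.ext (σinj i.1 (by omega) j.1 (by omega) (congrArg Fin.val hij))
    obtain ⟨i, hi⟩ := Finite.injective_iff_surjective.1 h1 ⟨t, Nat.lt_succ_of_le ht⟩
    exact ⟨i.1, by omega, congrArg Fin.val hi⟩
  have hlow : ∀ i ≤ n, 2 ≤ lv (v (σ i)).y := fun i hi => H.Wpos.trans (H.low _ (σlt i hi))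
  refine ⟨H.R_eqv, ?_, ?_, ?_, ?_, ?_, ?_, ?_, ?_, ?_⟩
  · intro i hi j hj hij
    have h1 := congrArg Fin.val hij
    rw [tf_val (σlt i (by omega)), tf_val (σlt j (by omega))] at h1
    exact σinj i (by omega) j (by omega) h1
  · intro i hi
    have h := σlt i (by omega)
    simp only [hx i h, hy i h]
    rw [H.W_mk h, H.A_mk h]
  · intro i hi
    have := hlow i (by omega)
    show lv (v (σ i)).y - 1 ≤ lv (v (σ i)).y + NN l f (v (σ i)) - 1
    omega
  · intro i j hij hj hc
    have hi' := σlt i (by omega)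
    have hj' := σlt j (by omega)
    simp only [hx i hi', hx j hj'] at hc
    rw [H.W_mk hi', H.W_mk hj'] at hc
    have h1 := hmon i j hij.le (by omega)
    have h2 := hlow i (by omega)
    have h3 : σ i ≠ σ j := fun h => absurd (σinj i (by omega) j (by omega) h) (by omega)
    show lv (v (σ i)).y + NN l f (v (σ i)) - 1 < lv (v (σ j)).y - 1
    rcases H.zone hi' hj' hc h3 with h4 | h4 <;> omega
  · intro i hi
    have := H.bd (σlt i (by omega))
    show lv (v (σ i)).y + NN l f (v (σ i)) - 1 < L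
    omega
  · intro k hk w h
    refine H.plain hk w fun t ht hm => ?_
    obtain ⟨i, hi, rfl⟩ := hsurj t ht
    have h1 := h i (by omega)
    simp only [hx i ht] at h1
    rw [H.W_mk ht] at h1
    exact h1 hm
  · intro i hi w hw h1 h2
    have h := σlt i (by omega)
    simp only [hx i h, hy i h] at hw h1 h2
    rw [H.W_mk h] at hw
    have h3 := H.thru h w hw h1 h2
    have := hlow i (by omega)
    show H.R (vt S s (lv (v (σ i)).y - 1) w) (vt S s (lv (v (σ i)).y + NN l f (v (σ i)) - 1 + 1) w)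
    rwa [show lv (v (σ i)).y + NN l f (v (σ i)) - 1 + 1 = lv (v (σ i)).y + NN l f (v (σ i)) by omega]
  · intro i hi h1
    have h := σlt i (by omega)
    simp only [hx i h, hy i h] at h1 ⊢
    have h3 := H.twist h h1
    have := hlow i (by omega)
    rwa [show lv (v (σ i)).y + NN l f (v (σ i)) - 1 + 1 = lv (v (σ i)).y + NN l f (v (σ i)) by omega]
  · intro i hi w hw k h1 h2
    have h := σlt i (by omega)
    simp only [hx i h] at hw ⊢
    rw [H.W_mk h] at hw
    have h3 := hlow i (by omega)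
    have h1 : lv (v (σ i)).y - 1 < k := h1
    have h2 : k ≤ lv (v (σ i)).y + NN l f (v (σ i)) - 1 := h2
    obtain ⟨w', h4, h5⟩ := H.cov h (lv (v (σ i)).y + NN l f (v (σ i)) - k) k w (by omega) (by omega) hw
    refine ⟨w', by rw [H.W_mk h]; exact h4, ?_⟩
    rwa [show lv (v (σ i)).y + NN l f (v (σ i)) - 1 + 1 = lv (v (σ i)).y + NN l f (v (σ i)) by omega]

end Ctx

end Pool.Agent.Lib.MP_688fd0_co.SQ7.H25
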