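import Pool.Agent.Lib.MP_688fd0_co.SQ7.H25.Ctx

/-!
Type C2, B1-FULL, row COSET (helper25): connections inside the zones.
-/

set_option autoImplicit false

namespace Pool.Agent.Lib.MP_688fd0_co.SQ7.H25

open Pool.Agent.Lib.MP_688fd0_co.SQ4.H49 Pool.Agent.Lib.MP_688fd0_co.SQ7.H71

variable {G : Type} [Group G] [Finite G] {S : Lets G} {Γ T : Subgroup G} {L : ℕ} {lv : G → ℕ} {l : ℕ} {r : ℕ → Lt} {lam : G}
  {f n : ℕ} {v : ℕ → Vst G} {s : G ⧸ T → ℕ → Lt} {a : ℕ → G} {W : ℕ} {g : G}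

namespace Ctx

variable (H : Ctx S Γ T L lv l r lam f n v s a W g)

/-- The hole vertices of the real visits. -/
noncomputable def emb : TI n (fun t => NN l f (v t)) ↪ ↥Γ :=
  ⟨fun p => ⟨hvv S l f r (v p.1.1) p.1.2, H.hvvΓ p.2.1.le _⟩, by
    intro p p' h
    obtain ⟨⟨t, i⟩, ht, hi⟩ := p
    obtain ⟨⟨t', i'⟩, ht', hi'⟩ := p'
    obtain ⟨h1, h2⟩ := H.hvv_inj (Nat.le_of_lt ht) (Nat.le_of_lt ht') hi hi' (congrArg Subtype.val h)
    exact Subtype.ext (Prod.ext h1 h2)⟩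

/-- The permutation of the even vertices. -/
noncomputable def Φ : Equiv.Perm ↥Γ := phi H.hc s H.emb

/-- The darts. -/
noncomputable def e : G × Bool → G × Bool := drt (mu H.hc s) H.Φ

/-- Connected in the 2-factor. -/
def R (x y : G) : Prop := Con fl H.e (x, false) (y, false)

theorem R_eqv : Equivalence H.R := ⟨fun _ => Con.rfl', fun h => h.symm, fun h h' => h.trans h'⟩

theorem R_phi (x : ↥Γ) : H.R x (H.Φ x) := drt_con _ _ x _ _

theorem phi_of_off {x : ↥Γ} (h : ∀ t < n, ∀ i ≤ NN l f (v t), hvv S l f r (v t) i ≠ x.1 * S.sv (lt' lv s x.1)) :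
    ((H.Φ x : ↥Γ) : G) = x.1 * S.sv (lt' lv s x.1) := by
  have h1 : H.Φ x = p0 H.hc s x := by
    refine phi_off H.hc s H.emb fun p hp => ?_
    obtain ⟨⟨t, i⟩, ht, hi⟩ := p
    exact h t ht i hi (congrArg Subtype.val hp)
  rw [h1, p0_val]

theorem phi_of_on {x : ↥Γ} {t i : ℕ} (ht : t < n) (hi : i + 1 ≤ NN l f (v t))
    (h : hvv S l f r (v t) (i + 1) = x.1 * S.sv (lt' lv s x.1)) : ((H.Φ x : ↥Γ) : G) = hvv S l f r (v t) i := by
  have h1 : H.Φ x = H.emb (pvE n _ ⟨(t, i + 1), ht, hi⟩) := phi_on H.hc s H.emb (Subtype.ext h)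
  rw [h1]
  show hvv S l f r (v (pv n (fun t => NN l f (v t)) (t, i + 1)).1) (pv n (fun t => NN l f (v t)) (t, i + 1)).2 = _
  have h2 : pv n (fun t => NN l f (v t)) (t, i + 1) = (t, i) := by
    unfold pv
    rw [if_pos (show 0 < i + 1 by omega)]
    rfl
  rw [h2]

/-- The visit before `t` in the thread. -/
def bf (n t : ℕ) : ℕ := if 0 < t then t - 1 else n - 1

theorem bf_lt {n t : ℕ} (h : 0 < n) (ht : t < n) : bf n t < n := by
  unfold bf; split_ifs <;> omega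

theorem phi_of_ar {x : ↥Γ} {t : ℕ} (ht : t < n) (h : (v t).y = x.1 * S.sv (lt' lv s x.1)) :
    ((H.Φ x : ↥Γ) : G) = hvv S l f r (v (bf n t)) (NN l f (v (bf n t))) := by
  have h1 : H.Φ x = H.emb (pvE n _ ⟨(t, 0), ht, Nat.zero_le _⟩) :=
    phi_on H.hc s H.emb (Subtype.ext ((hvv_zero S l f r (v t)).trans h))
  rw [h1]
  show hvv S l f r (v (pv n (fun t => NN l f (v t)) (t, 0)).1) (pv n (fun t => NN l f (v t)) (t, 0)).2 = _
  have h2 : pv n (fun t => NN l f (v t)) (t, 0) = (bf n t, NN l f (v (bf n t))) := by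
    unfold pv bf
    rw [if_neg (show ¬ 0 < 0 by omega)]
    by_cases h3 : 0 < t
    · rw [if_pos (show 0 < t from h3), if_pos h3]
    · rw [if_neg (show ¬ 0 < t from h3), if_neg h3]
  rw [h2]

theorem R_off {x : G} (hx : x ∈ Γ)
    (h : ∀ t < n, ∀ i ≤ NN l f (v t), hvv S l f r (v t) i ≠ x * S.sv (lt' lv s x)) : H.R x (x * S.sv (lt' lv s x)) := by
  have h1 := H.R_phi ⟨x, hx⟩
  rwa [H.phi_of_off h] at h1

theorem R_on {x : G} (hx : x ∈ Γ) {t i : ℕ} (ht : t < n) (hi : i + 1 ≤ NN l f (v t))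
    (h : hvv S l f r (v t) (i + 1) = x * S.sv (lt' lv s x)) : H.R x (hvv S l f r (v t) i) := by
  have h1 := H.R_phi ⟨x, hx⟩
  rwa [H.phi_of_on ht hi h] at h1

theorem R_ar {x : G} (hx : x ∈ Γ) {t : ℕ} (ht : t < n) (h : (v t).y = x * S.sv (lt' lv s x)) :
    H.R x (hvv S l f r (v (bf n t)) (NN l f (v (bf n t)))) := by
  have h1 := H.R_phi ⟨x, hx⟩
  rwa [H.phi_of_ar ht h] at h1

/-! ### Columns of the visits -/

include H

/-- The column of the arrival. -/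
def A {t : ℕ} (ht : t ≤ n) : Col Γ lv := ⟨a t, H.aΓ ht, H.a0 t ht⟩

omit [Finite G] in
theorem wT {t : ℕ} (ht : t ≤ n) : ∃ z ∈ T, (v t).w S * a t = a t * z := by
  have h1 : ∃ z ∈ T, (v t).w S * (v t).y = (v t).y * z := by
    unfold Vst.w
    rcases (v t).tw with _ | τ
    · exact ⟨1, T.one_mem, by simp⟩
    · refine ⟨S.sv (τ.1, false) * (S.sv (!τ.1, false))⁻¹, T.mul_mem (H.hc.mem _) (T.inv_mem (H.hc.mem _)), ?_⟩
      show (v t).y * S.al τ.1 * (S.al (!τ.1))⁻¹ * (v t).y⁻¹ * (v t).y = _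
      unfold Lets.sv
      rw [inv_mul_cancel_right, mul_inv_rev, inv_inv]
      simp only [mul_assoc]
      rw [inv_mul_cancel_left]
  obtain ⟨z, hz, h2⟩ := h1
  have h3 := H.aT t ht
  set F := (a t)⁻¹ * (v t).y with hF
  have h4 : (v t).y = a t * F := by rw [hF, mul_inv_cancel_left]
  refine ⟨F * z * F⁻¹, T.mul_mem (T.mul_mem h3 hz) (T.inv_mem h3), ?_⟩
  have h5 : (v t).w S * a t = (v t).w S * (v t).y * F⁻¹ := by rw [h4]; group
  rw [h5, h2, h4]
  group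

/-- The column of the exit. -/
def Wc {t : ℕ} (ht : t ≤ n) : Col Γ lv := ⟨(v t).w S * a t, by
  obtain ⟨z, hz, h1⟩ := H.wT ht
  rw [h1]
  exact Γ.mul_mem (H.aΓ ht) (H.hc.le hz), H.w0 t ht⟩

omit [Finite G] in
theorem A_mk {t : ℕ} (ht : t ≤ n) : (QuotientGroup.mk (H.A ht).1 : G ⧸ T) = QuotientGroup.mk (v t).y := H.amk ht

omit [Finite G] in
theorem W_mk {t : ℕ} (ht : t ≤ n) : (QuotientGroup.mk (H.Wc ht).1 : G ⧸ T) = QuotientGroup.mk (v t).y := by
  obtain ⟨z, hz, h1⟩ := H.wT ht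
  show (QuotientGroup.mk ((v t).w S * a t) : G ⧸ T) = _
  rw [h1, mk_mul hz]
  exact H.amk ht

omit [Finite G] in
theorem vt_A {t : ℕ} (ht : t ≤ n) : vt S s (lv (v t).y) (H.A ht) = (v t).y := by
  unfold vt
  rw [H.A_mk ht]
  exact H.P1 t ht

omit [Finite G] in
/-- The frames of the zone. -/
theorem vt_run {t : ℕ} (ht : t ≤ n) (w : Col Γ lv) (hw : (QuotientGroup.mk w.1 : G ⧸ T) = QuotientGroup.mk (v t).y) :
    vt S s (lv (v t).y + l * f * (v t).m) w = vt S s (lv (v t).y) w * lam ^ (f * (v t).m) := by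
  unfold vt
  rw [fr_add, hw, fr_congr (s' := r) fun i hi => H.P3 t ht i hi, mul_assoc l, fr_run H.hr, mul_assoc]

omit [Finite G] in
theorem lam_T : lam ∈ T := by
  rw [← H.hr.sea]
  exact fr_mem H.hc r l

omit [Finite G] in
theorem Rlam (x : G) (hx : x ∈ T) (k : ℕ) : x * lam ^ k = lam ^ k * x := by
  have : Commute x lam := H.hr.cen x hx
  exact this.pow_right k

omit [Finite G] in
theorem vt_Am {t : ℕ} (ht : t ≤ n) :
    vt S s (lv (v t).y + l * f * (v t).m) (H.A ht) = hvv S l f r (v t) (l * f * (v t).m) := by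
  rw [H.vt_run ht _ (H.A_mk ht), H.vt_A ht, hvv_run H.hr]

omit [Finite G] in
/-- The exit is on the column `Wc`. -/
theorem vt_W {t : ℕ} (ht : t ≤ n) :
    vt S s (lv (v t).y + NN l f (v t)) (H.Wc ht) = hvv S l f r (v t) (NN l f (v t)) := by
  have hW := H.W_mk ht
  have h0 : vt S s (lv (v t).y) (H.Wc ht) = (v t).w S * (v t).y := by
    have h1 := H.P1 t ht
    unfold vt
    rw [hW]
    show (v t).w S * a t * _ = _
    rw [mul_assoc, h1]
  rcases h : (v t).tw with _ | τ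
  · have h1 : NN l f (v t) = l * f * (v t).m := by unfold NN; rw [h]; rfl
    rw [h1, H.vt_run ht _ hW, h0, hvv_run H.hr]
    have h2 : (v t).w S = 1 := by unfold Vst.w; rw [h]
    rw [h2, one_mul]
  · have h1 : NN l f (v t) = l * f * (v t).m + 1 := by unfold NN; rw [h]; rfl
    have h2 : vt S s (lv (v t).y + NN l f (v t)) (H.Wc ht) =
        vt S s (lv (v t).y + l * f * (v t).m) (H.Wc ht) * S.sv (flt τ) := by
      rw [h1, ← add_assoc]
      unfold vt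
      rw [fr_succ, hW, H.P4 t ht τ h]
      exact (mul_assoc _ _ _).symm
    have h3 : hvv S l f r (v t) (NN l f (v t)) = (v t).y * lam ^ (f * (v t).m) * S.sv τ := by
      rw [h1, hvv_succ, hvv_run H.hr]
      congr 2
      unfold hlt
      rw [if_neg (lt_irrefl _), h, Option.getD_some]
    rw [h2, h3, H.vt_run ht _ hW, h0]
    have h4 : (v t).w S = (v t).y * (S.sv τ * (S.sv (flt τ))⁻¹) * (v t).y⁻¹ := by
      unfold Vst.w
      rw [h]
      show (v t).y * S.al τ.1 * (S.al (!τ.1))⁻¹ * (v t).y⁻¹ =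
        (v t).y * ((S.al τ.1 * (S.be τ.2)⁻¹) * (S.al (!τ.1) * (S.be τ.2)⁻¹)⁻¹) * (v t).y⁻¹
      group
    rw [h4]
    have h5 : S.sv τ * (S.sv (flt τ))⁻¹ ∈ T := T.mul_mem (H.hc.mem _) (T.inv_mem (H.hc.mem _))
    have h6 := H.Rlam _ h5 (f * (v t).m)
    calc (v t).y * (S.sv τ * (S.sv (flt τ))⁻¹) * (v t).y⁻¹ * (v t).y * lam ^ (f * (v t).m) * S.sv (flt τ)
        = (v t).y * ((S.sv τ * (S.sv (flt τ))⁻¹) * lam ^ (f * (v t).m)) * S.sv (flt τ) := by group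
      _ = (v t).y * (lam ^ (f * (v t).m) * (S.sv τ * (S.sv (flt τ))⁻¹)) * S.sv (flt τ) := by rw [h6]
      _ = (v t).y * lam ^ (f * (v t).m) * S.sv τ := by group

end Ctx

end Pool.Agent.Lib.MP_688fd0_co.SQ7.H25
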