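import Pool.Agent.Lib.MP_688fd0_co.SQ7.H25.Zon

/-!
Type C2, B1-FULL, row COSET (helper25): the strands through the zone of a visit.
-/

set_option autoImplicit false

namespace Pool.Agent.Lib.MP_688fd0_co.SQ7.H25

open Pool.Agent.Lib.MP_688fd0_co.SQ4.H49 Pool.Agent.Lib.MP_688fd0_co.SQ7.H71

variable {G : Type} [Group G] [Finite G] {S : Lets G} {Γ T : Subgroup G} {L : ℕ} {lv : G → ℕ} {l : ℕ} {r : ℕ → Lt} {lam : G}
  {f n : ℕ} {v : ℕ → Vst G} {s : G ⧸ T → ℕ → Lt} {a : ℕ → G} {W : ℕ} {g : G}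

namespace Ctx

variable (H : Ctx S Γ T L lv l r lam f n v s a W g)

include H

theorem up {k : ℕ} (hk : k < L) (w : Col Γ lv)
    (h : ∀ t < n, ∀ i ≤ NN l f (v t), hvv S l f r (v t) i ≠ vt S s (k + 1) w) : H.R (vt S s k w) (vt S s (k + 1) w) := by
  have h1 := vt_step (s := s) H.hc hk w
  have h2 := H.R_off (vtΓ H.hc k w) (by rw [h1]; exact h)
  rwa [h1] at h2

omit [Finite G] in
theorem vt_top (w : Col Γ lv) : vt S s L w = w.1 * g := by
  unfold vt; rw [H.P5]

/-- Levels without visits. -/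
theorem plain {k : ℕ} (hk : k < L) (w : Col Γ lv)
    (h : ∀ t ≤ n, (QuotientGroup.mk (v t).y : G ⧸ T) = QuotientGroup.mk w.1 →
      k < lv (v t).y - 1 ∨ lv (v t).y + NN l f (v t) - 1 < k) : H.R (vt S s k w) (vt S s (k + 1) w) := by
  refine H.up hk w fun t ht i hi he => ?_
  have h1 := hvv_mk (l := l) (f := f) (r := r) H.hc (v t) i
  have h2 := H.hvv_lv ht.le hi
  have h3 := H.low t ht.le
  have h4 := H.Wpos
  rw [he] at h1 h2
  rw [vt_mk H.hc] at h1
  rcases Nat.lt_or_ge (k + 1) L with h5 | h5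
  · rw [vt_lv H.hc h5] at h2
    rcases h t ht.le h1.symm with h6 | h6 <;> omega
  · have h6 : k + 1 = L := by omega
    rw [h6, H.vt_top, H.g0 w.1 w.2.1 w.2.2] at h2
    omega

/-- A step in the zone, not to a hole vertex. -/
theorem zs {t k : ℕ} (ht : t ≤ n) (hk : lv (v t).y ≤ k + 1) (hk' : k + 1 ≤ lv (v t).y + NN l f (v t)) (w : Col Γ lv)
    (hw : (QuotientGroup.mk w.1 : G ⧸ T) = QuotientGroup.mk (v t).y)
    (h : t < n → hvv S l f r (v t) (k + 1 - lv (v t).y) ≠ vt S s (k + 1) w) : H.R (vt S s k w) (vt S s (k + 1) w) := by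
  have h0 := H.bd ht
  refine H.up (by omega) w fun t' ht' i hi he => ?_
  have h1 : lv (vt S s (k + 1) w) = k + 1 := vt_lv H.hc (by omega) w
  obtain ⟨h2, h3⟩ := H.hit ht ht'.le hi he (by rw [vt_mk H.hc, hw]) (by omega) (by omega)
  subst h2
  rw [h1] at h3
  rw [h3] at he
  exact h ht' he

/-- A step to a hole vertex. -/
theorem zh {t k : ℕ} (ht : t < n) (hk : k < NN l f (v t)) (w : Col Γ lv)
    (h : hvv S l f r (v t) (k + 1) = vt S s (lv (v t).y + k + 1) w) : H.R (vt S s (lv (v t).y + k) w) (hvv S l f r (v t) k) := by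
  have h0 := H.bd ht.le
  have h1 := vt_step (s := s) H.hc (show lv (v t).y + k < L by omega) w
  exact H.R_on (vtΓ H.hc _ w) ht (by omega) (h.trans h1.symm)

/-- The transparent run. -/
theorem run {t : ℕ} (ht : t < n) (w : Col Γ lv) (hw : (QuotientGroup.mk w.1 : G ⧸ T) = QuotientGroup.mk (v t).y)
    (hne : w ≠ H.A ht.le) :
    H.R (vt S s (lv (v t).y) w) (vt S s (lv (v t).y + l * f * (v t).m) w) := by
  classical
  have hc := H.hc
  have hbd := H.bd ht.le
  have hNN : l * f * (v t).m ≤ NN l f (v t) := Nat.le_add_right _ _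
  obtain ⟨f', hf'⟩ := H.hf
  have hfm : l.factorial * (f' * (v t).m) = f * (v t).m := by rw [hf', mul_assoc]
  have hass : l * (l.factorial * (f' * (v t).m)) = l * f * (v t).m := by rw [hfm, mul_assoc]
  set y := (v t).y with hy
  have hyy : lv (v t).y = lv y := rfl
  have hyΓ : y ∈ Γ := H.yΓ t ht.le
  set rT : ℕ → ↥T := fun k => ⟨S.sv (r k), hc.mem _⟩ with hrT
  set rT' : ℕ → ↥T := fun k => ⟨S.sv (flt (r k)), hc.mem _⟩ with hrT'
  have hpw : ∀ k, ((pw rT k : ↥T) : G) = fr S r k := by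
    intro k
    induction k with
    | zero => rfl
    | succ k ih => rw [fr_succ, ← ih]; rfl
  have hpw' : ∀ k, ((pw rT' k : ↥T) : G) = fr S (fun i => flt (r i)) k := by
    intro k
    induction k with
    | zero => rfl
    | succ k ih => rw [fr_succ, ← ih]; rfl
  have hhv : ∀ k ≤ l * f * (v t).m, hvv S l f r (v t) k = y * ((pw rT' k : ↥T) : G) := by
    intro k hk
    rw [hpw']
    unfold hvv
    rw [fr_congr (s' := fun n => flt (r n)) fun i hi => by unfold hlt; rw [if_pos (by omega)]]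
  set lamT : ↥T := ⟨lam, H.lam_T⟩ with hlamT
  have hzT : y⁻¹ * vt S s (lv y) w ∈ T := by
    rw [← QuotientGroup.eq, vt_mk hc, hw]
  set z0 : ↥T := ⟨y⁻¹ * vt S s (lv y) w, hzT⟩ with hz0
  let Rel : ℕ × ↥T → ℕ × ↥T → Prop := fun p p' =>
    lv (y * (p.2 : G)) = lv y + p.1 → (lv (y * (p'.2 : G)) = lv y + p'.1 ∧ H.R (y * (p.2 : G)) (y * (p'.2 : G)))
  -- the letter at a vertex of the zone
  have hlt : ∀ k < l * f * (v t).m, ∀ z : ↥T, lv (y * (z : G)) = lv y + k → lt' lv s (y * (z : G)) = r k := by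
    intro k hk z hz
    unfold lt'
    rw [mk_mul z.2, hz]
    exact H.P3 t ht.le k hk
  have hlv : ∀ k < l * f * (v t).m, ∀ z : ↥T, lv (y * (z : G)) = lv y + k → ∀ τ,
      lv (y * (z : G) * S.sv τ) = lv y + (k + 1) := by
    intro k hk z hz τ
    rw [hc.step _ (Γ.mul_mem hyΓ (hc.le z.2)), hz, Nat.mod_eq_of_lt (by omega)]
    omega
  have hst : ∀ k < l * f * (v t).m, ∀ z : ↥T, lv (y * (z : G)) = lv y + k → z * rT k ≠ pw rT' (k + 1) →
      H.R (y * (z : G)) (y * ((z * rT k : ↥T) : G)) := by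
    intro k hk z hz hzk
    have h1 := hlt k hk z hz
    have h2 : y * (z : G) * S.sv (lt' lv s (y * (z : G))) = y * ((z * rT k : ↥T) : G) := by
      rw [h1, mul_assoc]; rfl
    rw [← h2]
    refine H.R_off (Γ.mul_mem hyΓ (hc.le z.2)) fun t' ht' i hi he => hzk ?_
    rw [h2] at he
    have h3 : lv (y * ((z * rT k : ↥T) : G)) = lv y + (k + 1) := by
      rw [← h2, h1]; exact hlv k hk z hz (r k)
    obtain ⟨h4, h5⟩ := H.hit ht.le ht'.le hi he (mk_mul (z * rT k).2) (by omega) (by omega)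
    subst h4
    have h6 : i = k + 1 := by omega
    rw [h6, hhv (k + 1) (by omega)] at he
    exact (Subtype.ext (mul_left_cancel he)).symm
  have key := run_rel (x := (1 : ↥T)) (s := rT) (s' := rT') (l := l) (lam := lamT)
    (fun z => Subtype.ext (H.hr.cen z z.2))
    (fun k => Subtype.ext (by show S.sv (r (l + k)) = S.sv (r k); rw [H.hr.per]))
    (fun k => Subtype.ext (by show S.sv (flt (r (l + k))) = S.sv (flt (r k)); rw [H.hr.per]))
    (Subtype.ext (by rw [hpw]; exact H.hr.sea)) (Subtype.ext (by rw [hpw']; exact H.hr.hol))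
    (Rel := Rel) (fun d hd => ⟨hd, H.R_eqv.refl _⟩)
    (fun d d' d'' h1 h2 h => ⟨(h2 (h1 h).1).1, H.R_eqv.trans (h1 h).2 (h2 (h1 h).1).2⟩)
    (fun k z => (k, z)) (f' * (v t).m)
    (fun k hk z _ hz2 hz => by
      rw [hass] at hk
      have hz : lv (y * (z : G)) = lv y + k := hz
      refine ⟨?_, hst k hk z hz fun h => hz2 ?_⟩
      · show lv (y * ((z * rT k : ↥T) : G)) = lv y + (k + 1)
        have := hlv k hk z hz (r k)
        rwa [mul_assoc] at this
      · rw [one_mul]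
        exact (mul_inv_eq_iff_eq_mul.2 (by rw [h]; rfl)).symm)
    (fun k hk _ hz => by
      rw [hass] at hk
      rw [one_mul] at hz ⊢
      set zc : ↥T := pw rT' k * rT' k * (rT k)⁻¹ with hzc
      have hz : lv (y * (zc : G)) = lv y + k := hz
      have h1 : zc * rT k = pw rT' (k + 1) := by rw [hzc, inv_mul_cancel_right]; rfl
      have h2 : H.R (y * (zc : G)) (hvv S l f r (v t) k) := by
        refine H.R_on (Γ.mul_mem hyΓ (hc.le zc.2)) ht (by omega) ?_
        rw [hhv (k + 1) (by omega), hlt k hk zc hz, ← h1]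
        show y * ((zc : G) * S.sv (r k)) = y * (zc : G) * S.sv (r k)
        exact (mul_assoc _ _ _).symm
      have h3 := H.hvv_lv ht.le (show k ≤ NN l f (v t) by omega)
      rw [hhv k (by omega)] at h2 h3
      have h4 := hst k hk (pw rT' k) h3 fun h => by
        have h5 : pw rT' k * rT k = pw rT' k * rT' k := h
        exact sv_ne hc (r k) (congrArg Subtype.val (mul_left_cancel h5))
      refine ⟨?_, H.R_eqv.trans h2 h4⟩
      show lv (y * ((pw rT' k * rT k : ↥T) : G)) = lv y + (k + 1)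
      have := hlv k hk (pw rT' k) h3 (r k)
      rwa [mul_assoc] at this)
    z0 (fun h => hne (vt_inj (s := s) hc (k := lv y) (by
      have h1 : y⁻¹ * vt S s (lv y) w = 1 := congrArg Subtype.val h
      rw [H.vt_A ht.le]
      exact (inv_mul_eq_one.1 h1).symm)))
  have h1 : y * (z0 : G) = vt S s (lv y) w := by
    show y * (y⁻¹ * vt S s (lv y) w) = _
    rw [mul_inv_cancel_left]
  obtain ⟨-, h2⟩ := key (by
    show lv (y * (z0 : G)) = lv y + 0
    rw [h1, vt_lv hc (hc.lt y), add_zero])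
  rw [hfm] at h2
  have h3 : y * ((z0 * lamT ^ (f * (v t).m) : ↥T) : G) = vt S s (lv y + l * f * (v t).m) w := by
    rw [H.vt_run ht.le w hw, ← h1, mul_assoc]
    rfl
  have h4 : H.R (y * (z0 : G)) (y * ((z0 * lamT ^ (f * (v t).m) : ↥T) : G)) := h2
  rwa [h1, h3] at h4

end Ctx

end Pool.Agent.Lib.MP_688fd0_co.SQ7.H25
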